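import Mathlib

/-!
Project SF (MP_1f4fc7_nt), job SF-01.  Virtual permutation characters of a group.

A function `f : Γ → ℝ` is `IsPR` if it is a difference of two permutation characters of `Γ` on
`Fin n`, `Fin m`.  Everything here is elementary.

* `isPR_of_action`: choose `X ≃ Fin (Nat.card X)` and transport `MulAction.toPermHom Γ X` along
  `Equiv.permCongrHom` (or `Equiv.Perm.viaEmbedding`...).
* `add`: act on `Fin n ⊕ Fin n'` (compose with `Equiv.Perm.sumCongrHom`), then `isPR_of_action`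
  applied to `MulAction.compHom`, or directly with `finSumFinEquiv`.
* `mul`: `(a - b)(c - d) = (ac + bd) - (ad + bc)`, the product of two permutation characters is the
  one of `Fin n × Fin m` with the diagonal action (`g • (x, y) = (φ g x, ψ g y)`).
* `int`: `z ≥ 0`: trivial action on `Fin z`.
* `isPR_sign`: act on `ℤˣ` through `s` by multiplication: the number of fixed points is
  `1 + s g`; subtract the constant `1`.
-/

namespace Pool.Agent.H3.SF

/-- number of fixed points of `φ g` -/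
noncomputable def fixc {Γ : Type*} [Group Γ] {n : ℕ} (φ : Γ →* Equiv.Perm (Fin n)) (g : Γ) : ℝ :=
  (Nat.card {i : Fin n // φ g i = i} : ℝ)

/-- `f` is a difference of two permutation characters -/
def IsPR {Γ : Type*} [Group Γ] (f : Γ → ℝ) : Prop :=
  ∃ (n m : ℕ) (φ : Γ →* Equiv.Perm (Fin n)) (ψ : Γ →* Equiv.Perm (Fin m)),
    ∀ g, f g = fixc φ g - fixc ψ g

/-- mean value of a function on a finite group -/
noncomputable def mean {Γ : Type*} [Fintype Γ] (f : Γ → ℝ) : ℝ := (∑ g, f g) / Fintype.card Γ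

/-- mean value on a subgroup -/
noncomputable def meanH {Γ : Type*} [Group Γ] [Fintype Γ] (H : Subgroup Γ) (f : Γ → ℝ) : ℝ :=
  (∑ g, (H : Set Γ).indicator f g) / Nat.card H

/-- average over the cosets of a subgroup -/
noncomputable def avg {Γ : Type*} [Group Γ] [Fintype Γ] (D : Subgroup Γ) (f : Γ → ℝ) (x : Γ) : ℝ :=
  (∑ d, (D : Set Γ).indicator (fun d => f (x * d)) d) / Nat.card D

variable {Γ : Type*} [Group Γ]

/-- A permutation character on a finite set is one on `Fin n`. -/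
theorem basic_pc (X : Type*) [Finite X] (φ : Γ →* Equiv.Perm X) :
    ∃ (n : ℕ) (ψ : Γ →* Equiv.Perm (Fin n)), ∀ g, (Nat.card {x : X // φ g x = x} : ℝ) = fixc ψ g := by
  let e : X ≃ Fin (Nat.card X) := Finite.equivFin X
  refine ⟨Nat.card X, (e.permCongrHom.toMonoidHom).comp φ, fun g => ?_⟩
  unfold fixc
  norm_cast
  refine Nat.card_congr (Equiv.subtypeEquiv e fun x => ?_)
  show φ g x = x ↔ e (φ g (e.symm (e x))) = e x
  rw [Equiv.symm_apply_apply, e.injective.eq_iff]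

theorem basic_zero : ∃ (ψ : Γ →* Equiv.Perm (Fin 0)), ∀ g, fixc ψ g = 0 := by
  refine ⟨1, fun g => ?_⟩
  unfold fixc
  rw [Nat.card_of_isEmpty, Nat.cast_zero]

theorem basic_pr_of_hom (X : Type*) [Finite X] (φ : Γ →* Equiv.Perm X) :
    IsPR (fun g : Γ => (Nat.card {x : X // φ g x = x} : ℝ)) := by
  obtain ⟨n, ψ, hψ⟩ := basic_pc X φ
  obtain ⟨ψ0, hψ0⟩ := basic_zero (Γ := Γ)
  exact ⟨n, 0, ψ, ψ0, fun g => by beta_reduce; rw [hψ g, hψ0 g, sub_zero]⟩

theorem isPR_of_action (X : Type*) [Finite X] [MulAction Γ X] :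
    IsPR (fun g : Γ => (Nat.card {x : X // g • x = x} : ℝ)) :=
  basic_pr_of_hom X (MulAction.toPermHom Γ X)

theorem basic_pc_add {n m : ℕ} (φ : Γ →* Equiv.Perm (Fin n)) (ψ : Γ →* Equiv.Perm (Fin m)) :
    ∃ (k : ℕ) (χ : Γ →* Equiv.Perm (Fin k)), ∀ g, fixc χ g = fixc φ g + fixc ψ g := by
  obtain ⟨k, χ, hχ⟩ := basic_pc (Fin n ⊕ Fin m)
    ((Equiv.Perm.sumCongrHom (Fin n) (Fin m)).comp (φ.prod ψ))
  refine ⟨k, χ, fun g => ?_⟩
  rw [← hχ g]
  unfold fixc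
  norm_cast
  rw [← Nat.card_sum]
  refine Nat.card_congr ((Equiv.subtypeSum).trans (Equiv.sumCongr
    (Equiv.subtypeEquivRight fun i => ?_) (Equiv.subtypeEquivRight fun i => ?_)))
  · show (Sum.inl (φ g i) : Fin n ⊕ Fin m) = Sum.inl i ↔ φ g i = i
    exact Sum.inl_injective.eq_iff
  · show (Sum.inr (ψ g i) : Fin n ⊕ Fin m) = Sum.inr i ↔ ψ g i = i
    exact Sum.inr_injective.eq_iff

/-- The diagonal action on a product. -/
def basic_prodHom {n m : ℕ} (φ : Γ →* Equiv.Perm (Fin n)) (ψ : Γ →* Equiv.Perm (Fin m)) :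
    Γ →* Equiv.Perm (Fin n × Fin m) where
  toFun g := Equiv.prodCongr (φ g) (ψ g)
  map_one' := by
    ext x <;> simp
  map_mul' g h := by
    ext x <;> simp

theorem basic_pc_mul {n m : ℕ} (φ : Γ →* Equiv.Perm (Fin n)) (ψ : Γ →* Equiv.Perm (Fin m)) :
    ∃ (k : ℕ) (χ : Γ →* Equiv.Perm (Fin k)), ∀ g, fixc χ g = fixc φ g * fixc ψ g := by
  obtain ⟨k, χ, hχ⟩ := basic_pc (Fin n × Fin m) (basic_prodHom φ ψ)
  refine ⟨k, χ, fun g => ?_⟩
  rw [← hχ g]
  unfold fixc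
  norm_cast
  rw [← Nat.card_prod]
  refine Nat.card_congr ((Equiv.subtypeEquivRight fun x => ?_).trans
    (Equiv.subtypeProdEquivProd (p := fun i => φ g i = i) (q := fun i => ψ g i = i)))
  show ((φ g x.1, ψ g x.2) : Fin n × Fin m) = x ↔ φ g x.1 = x.1 ∧ ψ g x.2 = x.2
  exact Prod.ext_iff

theorem IsPR.add {f f' : Γ → ℝ} (hf : IsPR f) (hf' : IsPR f') : IsPR (fun g => f g + f' g) := by
  obtain ⟨n, m, φ, ψ, h⟩ := hf
  obtain ⟨n', m', φ', ψ', h'⟩ := hf'
  obtain ⟨k, χ, hχ⟩ := basic_pc_add φ φ'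
  obtain ⟨k', χ', hχ'⟩ := basic_pc_add ψ ψ'
  refine ⟨k, k', χ, χ', fun g => ?_⟩
  beta_reduce
  rw [h, h', hχ, hχ']
  ring

theorem IsPR.neg {f : Γ → ℝ} (hf : IsPR f) : IsPR (fun g => - f g) := by
  obtain ⟨n, m, φ, ψ, h⟩ := hf
  exact ⟨m, n, ψ, φ, fun g => by beta_reduce; rw [h]; ring⟩

theorem IsPR.sub {f f' : Γ → ℝ} (hf : IsPR f) (hf' : IsPR f') : IsPR (fun g => f g - f' g) := by
  have h := hf.add hf'.neg
  simpa [sub_eq_add_neg] using h

theorem IsPR.mul {f f' : Γ → ℝ} (hf : IsPR f) (hf' : IsPR f') : IsPR (fun g => f g * f' g) := by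
  obtain ⟨n, m, φ, ψ, h⟩ := hf
  obtain ⟨n', m', φ', ψ', h'⟩ := hf'
  obtain ⟨k1, χ1, h1⟩ := basic_pc_mul φ φ'
  obtain ⟨k2, χ2, h2⟩ := basic_pc_mul ψ ψ'
  obtain ⟨k3, χ3, h3⟩ := basic_pc_mul φ ψ'
  obtain ⟨k4, χ4, h4⟩ := basic_pc_mul ψ φ'
  obtain ⟨k5, χ5, h5⟩ := basic_pc_add χ1 χ2
  obtain ⟨k6, χ6, h6⟩ := basic_pc_add χ3 χ4
  refine ⟨k5, k6, χ5, χ6, fun g => ?_⟩
  beta_reduce
  rw [h, h', h5, h6, h1, h2, h3, h4]
  ring

theorem basic_nat (n : ℕ) : IsPR (fun _ : Γ => (n : ℝ)) := by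
  have h := basic_pr_of_hom (Γ := Γ) (Fin n) 1
  have h1 : (fun g : Γ => (Nat.card {x : Fin n // (1 : Γ →* Equiv.Perm (Fin n)) g x = x} : ℝ)) =
      fun _ => (n : ℝ) := by
    funext g
    norm_cast
    exact (Nat.card_congr (Equiv.subtypeUnivEquiv
      (p := fun x : Fin n => (1 : Γ →* Equiv.Perm (Fin n)) g x = x) fun x => rfl)).trans (Nat.card_fin n)
  rw [h1] at h
  exact h

theorem isPR_int (z : ℤ) : IsPR (fun _ : Γ => (z : ℝ)) := by
  obtain ⟨n, rfl | rfl⟩ := z.eq_nat_or_neg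
  · have h := basic_nat (Γ := Γ) n
    exact_mod_cast h
  · have h := (basic_nat (Γ := Γ) n).neg
    push_cast
    exact h

theorem IsPR.comp {Γ' : Type*} [Group Γ'] {f : Γ → ℝ} (hf : IsPR f) (φ : Γ' →* Γ) :
    IsPR (fun g => f (φ g)) := by
  obtain ⟨n, m, χ, ψ, h⟩ := hf
  exact ⟨n, m, χ.comp φ, ψ.comp φ, fun g => h (φ g)⟩

theorem basic_fixc_conj {n : ℕ} (φ : Γ →* Equiv.Perm (Fin n)) (h g : Γ) :
    fixc φ (h * g * h⁻¹) = fixc φ g := by
  unfold fixc
  norm_cast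
  refine Nat.card_congr (Equiv.subtypeEquiv (φ h)⁻¹ fun i => ?_)
  rw [map_mul, map_mul, map_inv, Equiv.Perm.mul_apply, Equiv.Perm.mul_apply]
  constructor
  · intro h1
    rw [Equiv.Perm.eq_inv_iff_eq]
    exact h1
  · intro h1
    rw [Equiv.Perm.eq_inv_iff_eq] at h1
    exact h1

theorem IsPR.conj {f : Γ → ℝ} (hf : IsPR f) (h g : Γ) : f (h * g * h⁻¹) = f g := by
  obtain ⟨n, m, φ, ψ, h1⟩ := hf
  rw [h1, h1, basic_fixc_conj, basic_fixc_conj]

theorem IsPR.int_val {f : Γ → ℝ} (hf : IsPR f) (g : Γ) : ∃ z : ℤ, f g = z := by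
  obtain ⟨n, m, φ, ψ, h⟩ := hf
  refine ⟨(Nat.card {i : Fin n // φ g i = i} : ℤ) - (Nat.card {i : Fin m // ψ g i = i} : ℤ), ?_⟩
  rw [h]
  unfold fixc
  push_cast
  rfl

theorem isPR_sign (s : Γ →* ℤˣ) : IsPR (fun g => (((s g : ℤˣ) : ℤ) : ℝ)) := by
  have h := (basic_pr_of_hom (Γ := Γ) ℤˣ ((MulAction.toPermHom ℤˣ ℤˣ).comp s)).sub
    (isPR_int (Γ := Γ) 1)
  have h1 : (fun g : Γ => (Nat.card {x : ℤˣ // ((MulAction.toPermHom ℤˣ ℤˣ).comp s) g x = x} : ℝ) -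
      ((1 : ℤ) : ℝ)) = fun g => (((s g : ℤˣ) : ℤ) : ℝ) := by
    funext g
    rcases Int.units_eq_one_or (s g) with hs | hs
    · have h2 : Nat.card {x : ℤˣ // ((MulAction.toPermHom ℤˣ ℤˣ).comp s) g x = x} = 2 := by
        rw [Nat.card_congr (Equiv.subtypeUnivEquiv fun x => ?_)]
        · rw [Nat.card_eq_fintype_card]
          rfl
        · show s g * x = x
          rw [hs, one_mul]
      rw [h2, hs]
      norm_num
    · have h2 : Nat.card {x : ℤˣ // ((MulAction.toPermHom ℤˣ ℤˣ).comp s) g x = x} = 0 := by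
        have : IsEmpty {x : ℤˣ // ((MulAction.toPermHom ℤˣ ℤˣ).comp s) g x = x} := by
          refine ⟨fun ⟨x, hx⟩ => ?_⟩
          have hx' : s g * x = x := hx
          rw [hs] at hx'
          rcases Int.units_eq_one_or x with rfl | rfl
          · exact absurd hx' (by decide)
          · exact absurd hx' (by decide)
        exact Nat.card_of_isEmpty
      rw [h2, hs]
      norm_num
  rw [h1] at h
  exact h

end Pool.Agent.H3.SF
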