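import Mathlib

/-!
Project SF (MP_1f4fc7_nt), job SF-08.  Block permutations and their cycle types.

`G ≀ᵣ ℤˣ` acts on `Fin m × ℤˣ` (`RegularWreathProduct.smul_def`:
`w • (a, q) = (w.left (w.right * q) • a, w.right * q)`, where `G` acts on `Fin m` through `ψ`,
`MulAction.compHom`), so `Fin N → G ≀ᵣ ℤˣ` acts on `Fin N × Fin m × ℤˣ` (blockwise) and
`(Fin N → G ≀ᵣ ℤˣ) × Perm (Fin (n - 2 m N))` acts on
`X = (Fin N × Fin m × ℤˣ) ⊕ Fin (n - 2 m N)`, a set with `n` elements (`2 * m * N ≤ n`).  Transport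
to `Fin n` by any equivalence `X ≃ Fin n` (`Equiv.permCongrHom`).

* `φ (h ∘ σ, c)` is conjugate to `φ (h, c)` by the permutation `(i, y) ↦ (σ⁻¹ i, y)` (or `σ`) of the
  blocks.
* cycle type: for `w i = ⟨f i, 1⟩` the permutation of `X` is the disjoint union, over `(i, q)`, of
  the permutations `ψ (f i q)` of `{i} × Fin m × {q}`, and of `c`.  It is convenient to prove first:
  for a finite type `κ` and `σ : κ → Perm (Fin m)` the permutation `(a, x) ↦ (a, σ a x)` of
  `κ × Fin m` (`Equiv.Perm.prodExtendRight`, `Equiv.Perm.sigmaCongrRight`) has cycle type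
  `∑ a, (σ a).cycleType` (it is the product over `a` of pairwise disjoint permutations, each an
  `extendDomain`/`prodExtendRight` of `σ a`: `Equiv.Perm.Disjoint.cycleType`,
  `Equiv.Perm.cycleType_extendDomain`), and
  `(Equiv.Perm.sumCongr a b).cycleType = a.cycleType + b.cycleType`.
  The cycle type is invariant under `Equiv.permCongr`/conjugation by an equivalence
  (`Equiv.Perm.cycleType_extendDomain` with the full domain, or `cycleType_conj`).
-/

namespace Pool.Agent.H3.SF

open RegularWreathProduct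

theorem block_ct_ext {κ β : Type*} [Fintype κ] [DecidableEq κ] [Fintype β] [DecidableEq β]
    (a : κ) (σ : Equiv.Perm β) :
    (Equiv.Perm.prodExtendRight a σ).cycleType = σ.cycleType := by
  let e : β ≃ {z : κ × β // z.1 = a} :=
    { toFun := fun b => ⟨(a, b), rfl⟩
      invFun := fun z => z.1.2
      left_inv := fun b => rfl
      right_inv := by
        rintro ⟨⟨x, y⟩, hxy⟩
        simp only at hxy
        subst hxy
        rfl }
  have h : Equiv.Perm.prodExtendRight a σ = σ.extendDomain e := by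
    ext1 z
    obtain ⟨x, y⟩ := z
    by_cases hx : x = a
    · subst hx
      rw [Equiv.Perm.prodExtendRight_apply_eq]
      exact (Equiv.Perm.extendDomain_apply_image σ e y).symm
    · rw [Equiv.Perm.prodExtendRight_apply_ne _ hx,
        Equiv.Perm.extendDomain_apply_not_subtype σ e hx]
  rw [h, Equiv.Perm.cycleType_extendDomain]

theorem block_ct_fin {κ β : Type*} [Fintype κ] [DecidableEq κ] [Fintype β] [DecidableEq β]
    (σ : κ → Equiv.Perm β) (s : Finset κ) :
    Equiv.Perm.cycleType (Equiv.prodCongrRight (fun a => if a ∈ s then σ a else 1) :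
      Equiv.Perm (κ × β)) = ∑ a ∈ s, (σ a).cycleType := by
  induction s using Finset.induction_on with
  | empty =>
    have h : (Equiv.prodCongrRight (fun a => if a ∈ (∅ : Finset κ) then σ a else 1) :
        Equiv.Perm (κ × β)) = 1 := by
      ext1 z
      obtain ⟨x, y⟩ := z
      simp
    rw [h, Equiv.Perm.cycleType_one, Finset.sum_empty]
  | insert a s ha ih =>
    have h : (Equiv.prodCongrRight (fun b => if b ∈ insert a s then σ b else 1) :
        Equiv.Perm (κ × β)) = Equiv.Perm.prodExtendRight a (σ a) *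
          (Equiv.prodCongrRight (fun b => if b ∈ s then σ b else 1) : Equiv.Perm (κ × β)) := by
      ext1 z
      obtain ⟨x, y⟩ := z
      rw [Equiv.Perm.mul_apply, Equiv.prodCongrRight_apply, Equiv.prodCongrRight_apply]
      by_cases hx : x = a
      · subst hx
        rw [if_pos (Finset.mem_insert_self _ _), if_neg ha, Equiv.Perm.one_apply,
          Equiv.Perm.prodExtendRight_apply_eq]
      · rw [Equiv.Perm.prodExtendRight_apply_ne _ hx]
        by_cases hs : x ∈ s
        · rw [if_pos (Finset.mem_insert_of_mem hs), if_pos hs]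
        · rw [if_neg hs, if_neg (fun hc => (Finset.mem_insert.1 hc).elim hx hs)]
    have hd : Equiv.Perm.Disjoint (Equiv.Perm.prodExtendRight a (σ a))
        (Equiv.prodCongrRight (fun b => if b ∈ s then σ b else 1) : Equiv.Perm (κ × β)) := by
      intro z
      obtain ⟨x, y⟩ := z
      by_cases hx : x = a
      · subst hx
        right
        rw [Equiv.prodCongrRight_apply, if_neg ha, Equiv.Perm.one_apply]
      · left
        exact Equiv.Perm.prodExtendRight_apply_ne _ hx y
    rw [h, hd.cycleType_mul, ih, block_ct_ext, Finset.sum_insert ha]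

theorem block_ct_prod {κ β : Type*} [Fintype κ] [DecidableEq κ] [Fintype β] [DecidableEq β]
    (σ : κ → Equiv.Perm β) :
    Equiv.Perm.cycleType (Equiv.prodCongrRight σ : Equiv.Perm (κ × β)) =
      ∑ a, (σ a).cycleType := by
  have h := block_ct_fin σ Finset.univ
  simp only [Finset.mem_univ, if_true] at h
  exact h

theorem block_ct_congr {α β : Type*} [Fintype α] [DecidableEq α] [Fintype β] [DecidableEq β]
    (e : α ≃ β) (σ : Equiv.Perm α) : (e.permCongr σ).cycleType = σ.cycleType := by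
  let e' : α ≃ {y : β // (fun _ : β => True) y} :=
    e.trans (Equiv.subtypeUnivEquiv (fun _ => trivial)).symm
  have h : e.permCongr σ = σ.extendDomain e' := by
    ext1 y
    rw [Equiv.permCongr_apply, Equiv.Perm.extendDomain_apply_subtype σ e' trivial]
    rfl
  rw [h, Equiv.Perm.cycleType_extendDomain]

theorem block_ct_inl {α β : Type*} [Fintype α] [DecidableEq α] [Fintype β] [DecidableEq β]
    (σ : Equiv.Perm α) : (Equiv.Perm.sumCongr σ (1 : Equiv.Perm β)).cycleType = σ.cycleType := by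
  let e : α ≃ {z : α ⊕ β // z.isLeft = true} :=
    { toFun := fun b => ⟨Sum.inl b, rfl⟩
      invFun := fun z => z.1.getLeft z.2
      left_inv := fun b => rfl
      right_inv := by
        rintro ⟨x | y, h⟩
        · rfl
        · simp at h }
  have h : Equiv.Perm.sumCongr σ (1 : Equiv.Perm β) = σ.extendDomain e := by
    ext1 z
    rcases z with x | y
    · exact (Equiv.Perm.extendDomain_apply_image σ e x).symm
    · rw [Equiv.Perm.extendDomain_apply_not_subtype σ e (by simp)]
      rfl
  rw [h, Equiv.Perm.cycleType_extendDomain]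

theorem block_ct_inr {α β : Type*} [Fintype α] [DecidableEq α] [Fintype β] [DecidableEq β]
    (σ : Equiv.Perm β) : (Equiv.Perm.sumCongr (1 : Equiv.Perm α) σ).cycleType = σ.cycleType := by
  let e : β ≃ {z : α ⊕ β // z.isRight = true} :=
    { toFun := fun b => ⟨Sum.inr b, rfl⟩
      invFun := fun z => z.1.getRight z.2
      left_inv := fun b => rfl
      right_inv := by
        rintro ⟨x | y, h⟩
        · simp at h
        · rfl }
  have h : Equiv.Perm.sumCongr (1 : Equiv.Perm α) σ = σ.extendDomain e := by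
    ext1 z
    rcases z with x | y
    · rw [Equiv.Perm.extendDomain_apply_not_subtype σ e (by simp)]
      rfl
    · exact (Equiv.Perm.extendDomain_apply_image σ e y).symm
  rw [h, Equiv.Perm.cycleType_extendDomain]

theorem block_ct_sum {α β : Type*} [Fintype α] [DecidableEq α] [Fintype β] [DecidableEq β]
    (σ : Equiv.Perm α) (τ : Equiv.Perm β) :
    (Equiv.Perm.sumCongr σ τ).cycleType = σ.cycleType + τ.cycleType := by
  have h : Equiv.Perm.sumCongr σ τ = Equiv.Perm.sumCongr σ 1 * Equiv.Perm.sumCongr 1 τ := by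
    rw [Equiv.Perm.sumCongr_mul, mul_one, one_mul]
  have hd : Equiv.Perm.Disjoint (Equiv.Perm.sumCongr σ (1 : Equiv.Perm β))
      (Equiv.Perm.sumCongr (1 : Equiv.Perm α) τ) := by
    intro z
    rcases z with x | y
    · right; rfl
    · left; rfl
  rw [h, hd.cycleType_mul, block_ct_inl, block_ct_inr]

/-- one block -/
def blockOne {G : Type*} [Group G] (m : ℕ) (ψ : G →* Equiv.Perm (Fin m)) :
    G ≀ᵣ ℤˣ →* Equiv.Perm (Fin m × ℤˣ) :=
  letI := MulAction.compHom (Fin m) ψ
  RegularWreathProduct.toPerm G ℤˣ (Fin m)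

theorem blockOne_apply {G : Type*} [Group G] (m : ℕ) (ψ : G →* Equiv.Perm (Fin m))
    (w : G ≀ᵣ ℤˣ) (p : Fin m × ℤˣ) :
    blockOne m ψ w p = (ψ (w.left (w.right * p.2)) p.1, w.right * p.2) := rfl

/-- all blocks -/
def blockAll {G : Type*} [Group G] (m N : ℕ) (ψ : G →* Equiv.Perm (Fin m)) :
    (Fin N → G ≀ᵣ ℤˣ) →* Equiv.Perm (Fin N × (Fin m × ℤˣ)) where
  toFun x := Equiv.prodCongrRight (fun i => blockOne m ψ (x i))
  map_one' := by
    ext1 z
    obtain ⟨i, y⟩ := z
    rw [Equiv.prodCongrRight_apply, Pi.one_apply, map_one]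
    rfl
  map_mul' x x' := by
    ext1 z
    obtain ⟨i, y⟩ := z
    rw [Equiv.Perm.mul_apply, Equiv.prodCongrRight_apply, Equiv.prodCongrRight_apply,
      Equiv.prodCongrRight_apply, Pi.mul_apply, map_mul, Equiv.Perm.mul_apply]

theorem blockAll_apply {G : Type*} [Group G] (m N : ℕ) (ψ : G →* Equiv.Perm (Fin m))
    (x : Fin N → G ≀ᵣ ℤˣ) (i : Fin N) (y : Fin m × ℤˣ) :
    blockAll m N ψ x (i, y) = (i, blockOne m ψ (x i) y) := rfl

theorem blockAll_conj {G : Type*} [Group G] (m N : ℕ) (ψ : G →* Equiv.Perm (Fin m))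
    (σ : Equiv.Perm (Fin N)) (x : Fin N → G ≀ᵣ ℤˣ) :
    IsConj (blockAll m N ψ (x ∘ σ)) (blockAll m N ψ x) := by
  rw [isConj_iff]
  refine ⟨Equiv.prodCongr σ (Equiv.refl _), ?_⟩
  rw [mul_inv_eq_iff_eq_mul]
  ext1 z
  obtain ⟨i, y⟩ := z
  rfl

theorem blockAll_ct {G : Type*} [Group G] (m N : ℕ) (ψ : G →* Equiv.Perm (Fin m))
    (f : Fin N → ℤˣ → G) :
    (blockAll m N ψ (fun i => ⟨f i, 1⟩)).cycleType = ∑ i, ∑ q : ℤˣ, (ψ (f i q)).cycleType := by
  let r : (Fin N × ℤˣ) × Fin m ≃ Fin N × (Fin m × ℤˣ) :=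
    { toFun := fun z => (z.1.1, (z.2, z.1.2))
      invFun := fun z => ((z.1, z.2.2), z.2.1)
      left_inv := fun _ => rfl
      right_inv := fun _ => rfl }
  have h : blockAll m N ψ (fun i => ⟨f i, 1⟩) =
      r.permCongr (Equiv.prodCongrRight (fun p : Fin N × ℤˣ => ψ (f p.1 p.2))) := by
    ext1 z
    obtain ⟨i, a, q⟩ := z
    rw [blockAll_apply, blockOne_apply, Equiv.permCongr_apply]
    simp only [one_mul]
    rfl
  rw [h, block_ct_congr, block_ct_prod, Fintype.sum_prod_type]

theorem block_hom {G : Type*} [Group G] (m N n : ℕ) (ψ : G →* Equiv.Perm (Fin m))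
    (h : 2 * m * N ≤ n) :
    ∃ φ : (Fin N → G ≀ᵣ ℤˣ) × Equiv.Perm (Fin (n - 2 * m * N)) →* Equiv.Perm (Fin n),
      (∀ (σ : Equiv.Perm (Fin N)) (x : Fin N → G ≀ᵣ ℤˣ) (c : Equiv.Perm (Fin (n - 2 * m * N))),
        IsConj (φ (x ∘ σ, c)) (φ (x, c))) ∧
      (∀ (f : Fin N → ℤˣ → G) (c : Equiv.Perm (Fin (n - 2 * m * N))),
        (φ (fun i => ⟨f i, 1⟩, c)).cycleType =
          (∑ i, ∑ q : ℤˣ, (ψ (f i q)).cycleType) + c.cycleType) := by
  have hcard : Fintype.card ((Fin N × (Fin m × ℤˣ)) ⊕ Fin (n - 2 * m * N)) = n := by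
    rw [Fintype.card_sum, Fintype.card_prod, Fintype.card_prod, Fintype.card_fin, Fintype.card_fin,
      Fintype.card_fin, Fintype.card_units_int]
    have e : N * (m * 2) = 2 * m * N := by ring
    omega
  let e := Fintype.equivFinOfCardEq hcard
  refine ⟨(e.permCongrHom).toMonoidHom.comp ((Equiv.Perm.sumCongrHom _ _).comp
    ((blockAll m N ψ).prodMap (MonoidHom.id _))), ?_, ?_⟩
  · intro σ x c
    simp only [MonoidHom.comp_apply]
    apply MonoidHom.map_isConj
    apply MonoidHom.map_isConj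
    rw [isConj_iff]
    obtain ⟨S, hS⟩ := isConj_iff.1 (blockAll_conj m N ψ σ x)
    refine ⟨(S, 1), ?_⟩
    refine Prod.ext hS ?_
    show 1 * c * 1⁻¹ = c
    simp
  · intro f c
    have h1 : ((e.permCongrHom).toMonoidHom.comp ((Equiv.Perm.sumCongrHom _ _).comp
        ((blockAll m N ψ).prodMap (MonoidHom.id _)))) (fun i => ⟨f i, 1⟩, c) =
        e.permCongr (Equiv.Perm.sumCongr (blockAll m N ψ (fun i => ⟨f i, 1⟩)) c) := rfl
    rw [h1, block_ct_congr, block_ct_sum, blockAll_ct]

end Pool.Agent.H3.SF
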