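import Mathlib
import Pool.Agent.H3.SF.Basic

/-!
Project SF (MP_1f4fc7_nt), job SF-03.

* `IsPR.pow_prime`: for a permutation `σ = φ g` of `Fin n` the number of fixed points of `σ` and of
  `σ ^ p` are congruent modulo `p`: `σ` acts on `Y = {i // (σ ^ p) i = i}` with `σ ^ p = 1` and its
  fixed points on `Y` are the fixed points of `σ`
  (`Equiv.Perm.card_fixedPoints_modEq`, or `MulAction.card_modEq_card_fixedPoints`).
* `IsPR.eq_pow_prime`: both values are integers (`pow_prime`), `|f g - f (g ^ p)| ≤ 2 B < p`.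
* `IsPR.parity`: `pow_prime` for `p = 2`, `τ ^ 2 = 1`.
-/

namespace Pool.Agent.H3.SF

variable {Γ : Type*} [Group Γ]

theorem congr_end {n : ℕ} (σ : Equiv.Perm (Fin n)) {p : ℕ} (hp : p.Prime) :
    Nat.card {i : Fin n // (σ ^ p) i = i} ≡ Nat.card {i : Fin n // σ i = i} [MOD p] := by
  classical
  have := Fact.mk hp
  have hstab : ∀ i : Fin n, (σ ^ p) i = i → (σ ^ p) (σ i) = σ i := by
    intro i hi
    rw [← Equiv.Perm.mul_apply, ← pow_succ, pow_succ', Equiv.Perm.mul_apply, hi]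
  let f : Function.End {i : Fin n // (σ ^ p) i = i} := fun y => ⟨σ y.1, hstab y.1 y.2⟩
  have hf : ∀ (k : ℕ) (y : {i : Fin n // (σ ^ p) i = i}), ((f ^ k) y).1 = (σ ^ k) y.1 := by
    intro k
    induction k with
    | zero => intro y; rfl
    | succ k ih =>
      intro y
      rw [pow_succ', pow_succ', Equiv.Perm.mul_apply, ← ih y]
      rfl
  have hfp : f ^ p ^ 1 = 1 := by
    funext y
    apply Subtype.ext
    rw [pow_one, hf p y, y.2]
    rfl
  have h := Equiv.Perm.card_fixedPoints_modEq (f := f) (p := p) (n := 1) hfp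
  rw [Nat.card_eq_fintype_card]
  have h2 : Nat.card {i : Fin n // σ i = i} = Fintype.card f.fixedPoints := by
    rw [← Nat.card_eq_fintype_card]
    refine Nat.card_congr ?_
    refine ⟨fun i => ⟨⟨i.1, ?_⟩, ?_⟩, fun y => ⟨y.1.1, ?_⟩, fun i => rfl, fun y => rfl⟩
    · exact Equiv.Perm.pow_apply_eq_self_of_apply_eq_self i.2 p
    · exact Subtype.ext i.2
    · exact congrArg Subtype.val y.2
  rw [h2]
  exact h

theorem congr_fixc {n : ℕ} (φ : Γ →* Equiv.Perm (Fin n)) {p : ℕ} (hp : p.Prime) (g : Γ) :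
    ∃ z : ℤ, fixc φ g - fixc φ (g ^ p) = p * z := by
  have h := (Nat.modEq_iff_dvd.1 (congr_end (φ g) hp))
  obtain ⟨z, hz⟩ := h
  refine ⟨z, ?_⟩
  unfold fixc
  rw [map_pow]
  exact_mod_cast hz

theorem IsPR.pow_prime {f : Γ → ℝ} (hf : IsPR f) {p : ℕ} (hp : p.Prime) (g : Γ) :
    ∃ z : ℤ, f g - f (g ^ p) = p * z := by
  obtain ⟨n, m, φ, ψ, h⟩ := hf
  obtain ⟨z, hz⟩ := congr_fixc φ hp g
  obtain ⟨w, hw⟩ := congr_fixc ψ hp g
  refine ⟨z - w, ?_⟩
  rw [h, h]
  push_cast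
  linear_combination hz - hw

theorem IsPR.eq_pow_prime {f : Γ → ℝ} (hf : IsPR f) {B : ℝ} (hB : ∀ g, |f g| ≤ B) {p : ℕ}
    (hp : p.Prime) (h : 2 * B < p) (g : Γ) : f g = f (g ^ p) := by
  obtain ⟨z, hz⟩ := hf.pow_prime hp g
  have hp0 : (0 : ℝ) < p := by exact_mod_cast hp.pos
  have h1 : |(p : ℝ) * z| < p := by
    rw [← hz]
    calc |f g - f (g ^ p)| ≤ |f g| + |f (g ^ p)| := abs_sub _ _
      _ ≤ B + B := add_le_add (hB _) (hB _)
      _ < p := by linarith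
  rw [abs_mul, abs_of_pos hp0] at h1
  have h2 : |(z : ℝ)| < 1 := by
    by_contra hcon
    push Not at hcon
    have : (p : ℝ) * 1 ≤ p * |(z : ℝ)| := mul_le_mul_of_nonneg_left hcon hp0.le
    linarith
  have h3 : z = 0 := by
    have h4 : |z| < 1 := by exact_mod_cast h2
    exact Int.abs_lt_one_iff.1 h4
  rw [h3, Int.cast_zero, mul_zero] at hz
  linarith

theorem IsPR.parity {f : Γ → ℝ} (hf : IsPR f) (τ : Γ) (hτ : τ * τ = 1) :
    ∃ z : ℤ, f 1 - f τ = 2 * z := by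
  obtain ⟨z, hz⟩ := hf.pow_prime Nat.prime_two τ
  refine ⟨-z, ?_⟩
  rw [pow_two, hτ] at hz
  push_cast at hz ⊢
  linarith

end Pool.Agent.H3.SF
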