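import Mathlib

/-!
Project SF (MP_1f4fc7_nt), job SF-12.  The proportion of permutations with a cycle of length `ℓ` is
at most `1 / ℓ`.

Proof 1.  Count pairs `(g, x)` such that the cycle of `g` at `x` has length `ℓ`.  For a given `x`
the number of such `g` is `(n - 1)!` (for `ℓ ≤ n`): `g` is determined by the injective sequence
`g x, g² x, ..., g^(ℓ-1) x` in the complement of `x` (`(n - 1) (n - 2) ... (n - ℓ + 1)`
possibilities) and the permutation induced by `g` on the complement of the cycle (`(n - ℓ)!`
possibilities): an injection is enough, for `≤`.  So the number of pairs is at most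
`n (n - 1)! = n!`, and every `g` with a cycle of length `ℓ` occurs with at least `ℓ` points `x`.
Proof 2.  By induction or by `Equiv.Perm.card_of_cycleType` (any proof is fine).
Proof 3.  The map `(g, x) ↦ ` ...: for `ℓ ≥ 2`, a transitive relation: multiplying `g` by the swap
`(x, y)` merges or splits cycles; left to you.
-/

namespace Pool.Agent.H3.SF

theorem exists_cycle_factor {n ℓ : ℕ} (g : Equiv.Perm (Fin n)) (h : ℓ ∈ g.cycleType) :
    ∃ c : Equiv.Perm (Fin n), c.cycleType = {ℓ} ∧ ∀ a ∈ c.support, c a = g a := by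
  rw [Equiv.Perm.cycleType_def, Multiset.mem_map] at h
  obtain ⟨c, hc, hcard⟩ := h
  rw [Finset.mem_val] at hc
  have hc' := Equiv.Perm.mem_cycleFactorsFinset_iff.1 hc
  refine ⟨c, ?_, hc'.2⟩
  rw [hc'.1.cycleType]
  simp only [Function.comp_apply] at hcard
  rw [hcard]

theorem card_fixing {n : ℕ} (S : Finset (Fin n)) :
    Nat.card {f : Equiv.Perm (Fin n) // ∀ a, ¬ (a ∉ S) → f a = a} = (n - S.card).factorial := by
  rw [← Nat.card_congr (Equiv.Perm.subtypeEquivSubtypePerm (fun a => a ∉ S)), Nat.card_perm]
  congr 1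
  rw [Nat.card_eq_fintype_card, Fintype.card_subtype]
  have : (Finset.univ.filter (fun a => a ∉ S)) = Sᶜ := by
    ext a
    simp
  rw [this, Finset.card_compl, Fintype.card_fin]

theorem card_cycle (n ℓ : ℕ) (hℓ : 2 ≤ ℓ) :
    ℓ * Nat.card {g : Equiv.Perm (Fin n) // ℓ ∈ g.cycleType} ≤ n.factorial := by
  classical
  by_cases hn : ℓ ≤ n
  · have h1 : Nat.card {c : Equiv.Perm (Fin n) // c.cycleType = {ℓ}} = (ℓ - 1).factorial * n.choose ℓ := by
      have h := Equiv.Perm.card_of_cycleType_singleton (α := Fin n) hℓ (by simpa using hn)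
      rw [Fintype.card_fin] at h
      rw [← h, Nat.card_eq_fintype_card, Fintype.card_subtype]
    have h2 : Nat.card {g : Equiv.Perm (Fin n) // ℓ ∈ g.cycleType} ≤
        Nat.card {c : Equiv.Perm (Fin n) // c.cycleType = {ℓ}} * (n - ℓ).factorial := by
      have e : Nat.card (Σ c : {c : Equiv.Perm (Fin n) // c.cycleType = {ℓ}},
          {f : Equiv.Perm (Fin n) // ∀ a, ¬ (a ∉ c.1.support) → f a = a}) =
          Nat.card {c : Equiv.Perm (Fin n) // c.cycleType = {ℓ}} * (n - ℓ).factorial := by
        rw [Nat.card_sigma, Finset.sum_congr rfl (fun (c : {c : Equiv.Perm (Fin n) //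
          c.cycleType = {ℓ}}) _ => (card_fixing c.1.support).trans
            (show (n - c.1.support.card).factorial = (n - ℓ).factorial by
              rw [← Equiv.Perm.sum_cycleType, c.2, Multiset.sum_singleton]))]
        rw [Finset.sum_const, smul_eq_mul, Finset.card_univ, Nat.card_eq_fintype_card]
      rw [← e]
      have hc : ∀ g : {g : Equiv.Perm (Fin n) // ℓ ∈ g.cycleType},
          ∃ c : Equiv.Perm (Fin n), c.cycleType = {ℓ} ∧ ∀ a ∈ c.support, c a = g.1 a :=
        fun g => exists_cycle_factor g.1 g.2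
      choose c hc1 hc2 using hc
      refine Nat.card_le_card_of_injective (fun g => ⟨⟨c g, hc1 g⟩, ⟨(c g)⁻¹ * g.1, ?_⟩⟩) ?_
      · intro a ha
        have ha' : a ∈ (c g).support := by simpa using ha
        rw [Equiv.Perm.mul_apply, ← hc2 g a ha']
        exact (c g).symm_apply_apply a
      · intro g g' hgg
        have h3 : c g = c g' := by
          have := congrArg (fun t => t.1.1) hgg
          exact this
        have h4 : (c g)⁻¹ * g.1 = (c g')⁻¹ * g'.1 := by
          have := congrArg (fun t => t.2.1) hgg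
          exact this
        rw [h3] at h4
        exact Subtype.ext (mul_left_cancel h4)
    rw [h1] at h2
    calc ℓ * Nat.card {g : Equiv.Perm (Fin n) // ℓ ∈ g.cycleType}
        ≤ ℓ * ((ℓ - 1).factorial * n.choose ℓ * (n - ℓ).factorial) := Nat.mul_le_mul_left _ h2
      _ = n.choose ℓ * (ℓ * (ℓ - 1).factorial) * (n - ℓ).factorial := by ring
      _ = n.choose ℓ * ℓ.factorial * (n - ℓ).factorial := by
          rw [Nat.mul_factorial_pred (by omega)]
      _ = n.factorial := Nat.choose_mul_factorial_mul_factorial hn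
  · have : Nat.card {g : Equiv.Perm (Fin n) // ℓ ∈ g.cycleType} = 0 := by
      have : IsEmpty {g : Equiv.Perm (Fin n) // ℓ ∈ g.cycleType} := by
        constructor
        rintro ⟨g, hg⟩
        have h1 := Multiset.single_le_sum (fun x _ => Nat.zero_le x) ℓ hg
        rw [Equiv.Perm.sum_cycleType] at h1
        have h2 := Finset.card_le_univ g.support
        rw [Fintype.card_fin] at h2
        omega
      exact Nat.card_of_isEmpty
    rw [this]
    simp

end Pool.Agent.H3.SF
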