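import Mathlib

/-!
Project SF (MP_1f4fc7_nt), job SF-07.  Dihedral groups.

Take `G = DihedralGroup (2 * m)` (order `4 m`, `NeZero (2 * m)`), `R₀ = {sr j}` (`2 m` elements),
`χ (r k) = ((-1)^k, 1)`, `χ (sr k) = ((-1)^k, -1)` (the parity of `k : ZMod (2 * m)` is well defined;
e.g. use `ZMod.castHom (2 ∣ 2 * m)` to `ZMod 2` and a map `ZMod 2 → ℤˣ`, or `k.val`), and
`ψ (r k) x = x - k`, `ψ (sr k) x = k - x` on `ZMod m` (`k` reduced modulo `m` by
`ZMod.castHom`), transported to `Fin m` (for `m = m' + 1` the types `ZMod m` and `Fin m` are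
definitionally equal; or use `ZMod.finEquiv`).  In Mathlib `r i * r j = r (i + j)`,
`r i * sr j = sr (j - i)`, `sr i * r j = sr (i + j)`, `sr i * sr j = r (j - i)`, which makes `ψ` a
homomorphism.

* `hconj`: `χ p' = χ (sr i)` forces `p' = sr j`, `j - i` even, `j - i = 2 k` or `-2 k`, and
  `r k * sr i * (r k)⁻¹ = sr (i - 2 k)`.
* (a) `g = r 1`: `x ↦ x - 1` is one cycle of length `m` (compare `finRotate`:
  `cycleType_finRotate`, `finRotate` is `x ↦ x + 1`; inverse: `cycleType_inv`; or `isCycle` +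
  support = univ).
* (b) `m` odd: `g = r (1 + m)`, which acts as `r 1` and has `χ = 1`.
* (c) `m` even: `g = r 1`, `s = sr 0 : x ↦ -x` (fixed points `0` and `m / 2`, an involution with
  `m / 2 - 1` transpositions), `s' = sr 1 : x ↦ 1 - x` (no fixed point: `2 x = 1` is impossible,
  `m / 2` transpositions).  For an involution the cycle type is
  `Multiset.replicate (#support / 2) 2` (`Equiv.Perm.cycleType_of_pow_prime...`: all parts divide
  `2` and are at least two, `sum_cycleType = #support`).  `χ (r 1) = (-1, 1) = (1, -1) * (-1, -1)`.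

Status: complete (helper26).
-/

namespace Pool.Agent.H3.SF

/-- the parity of an element of `ZMod (2 * m)` -/
def dihPar (m : ℕ) : ZMod (2 * m) →+* ZMod 2 := ZMod.castHom (dvd_mul_right 2 m) (ZMod 2)

/-- reduction modulo `m` -/
def dihRed (m : ℕ) : ZMod (2 * m) →+* ZMod m := ZMod.castHom (dvd_mul_left m 2) (ZMod m)

/-- the sign of an element of `ZMod 2` -/
def dihSg (a : ZMod 2) : ℤˣ := if a = 0 then 1 else -1

theorem dihSg_add : ∀ a b : ZMod 2, dihSg (a + b) = dihSg a * dihSg b := by decide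

theorem dihSg_sub : ∀ a b : ZMod 2, dihSg (a - b) = dihSg a * dihSg b := by decide

theorem dihSg_inj : ∀ a b : ZMod 2, dihSg a = dihSg b → a = b := by decide

/-- the two sign characters of a dihedral group -/
def dihChi (m : ℕ) : DihedralGroup (2 * m) →* ℤˣ × ℤˣ where
  toFun g := match g with
    | .r k => (dihSg (dihPar m k), 1)
    | .sr k => (dihSg (dihPar m k), -1)
  map_one' := by
    change (dihSg (dihPar m 0), (1 : ℤˣ)) = 1
    rw [map_zero]
    rfl
  map_mul' := by
    rintro (a | a) (b | b)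
    · change (dihSg (dihPar m (a + b)), (1 : ℤˣ)) = (dihSg (dihPar m a) * dihSg (dihPar m b), 1 * 1)
      rw [map_add, dihSg_add, mul_one]
    · change (dihSg (dihPar m (b - a)), (-1 : ℤˣ)) =
        (dihSg (dihPar m a) * dihSg (dihPar m b), 1 * -1)
      rw [map_sub, dihSg_sub, one_mul, mul_comm]
    · change (dihSg (dihPar m (a + b)), (-1 : ℤˣ)) =
        (dihSg (dihPar m a) * dihSg (dihPar m b), -1 * 1)
      rw [map_add, dihSg_add, mul_one]
    · change (dihSg (dihPar m (b - a)), (1 : ℤˣ)) =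
        (dihSg (dihPar m a) * dihSg (dihPar m b), -1 * -1)
      rw [map_sub, dihSg_sub, mul_comm (dihSg (dihPar m b))]
      rfl

/-- the action on `ZMod m` -/
def dihPsi (m : ℕ) : DihedralGroup (2 * m) →* Equiv.Perm (ZMod m) where
  toFun g := match g with
    | .r k => Equiv.subRight (dihRed m k)
    | .sr k => Equiv.subLeft (dihRed m k)
  map_one' := by
    change Equiv.subRight (dihRed m 0) = 1
    ext x
    simp
  map_mul' := by
    rintro (a | a) (b | b)
    · change Equiv.subRight (dihRed m (a + b)) =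
        Equiv.subRight (dihRed m a) * Equiv.subRight (dihRed m b)
      apply Equiv.ext
      intro x
      simp only [Equiv.Perm.mul_apply, Equiv.subRight_apply, map_add]
      ring
    · change Equiv.subLeft (dihRed m (b - a)) =
        Equiv.subRight (dihRed m a) * Equiv.subLeft (dihRed m b)
      apply Equiv.ext
      intro x
      simp only [Equiv.Perm.mul_apply, Equiv.subRight_apply, Equiv.subLeft_apply, map_sub]
      ring
    · change Equiv.subLeft (dihRed m (a + b)) =
        Equiv.subLeft (dihRed m a) * Equiv.subRight (dihRed m b)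
      apply Equiv.ext
      intro x
      simp only [Equiv.Perm.mul_apply, Equiv.subRight_apply, Equiv.subLeft_apply, map_add]
      ring
    · change Equiv.subRight (dihRed m (b - a)) =
        Equiv.subLeft (dihRed m a) * Equiv.subLeft (dihRed m b)
      apply Equiv.ext
      intro x
      simp only [Equiv.Perm.mul_apply, Equiv.subRight_apply, Equiv.subLeft_apply, map_sub]
      ring

theorem dih_half {m : ℕ} (hm : 2 ≤ m) {x : ZMod (2 * m)} (h : dihPar m x = 0) :
    ∃ c : ZMod (2 * m), x = c + c := by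
  have : NeZero (2 * m) := ⟨by omega⟩
  have h1 : ((x.val : ℕ) : ZMod (2 * m)) = x := ZMod.natCast_zmod_val x
  have h2 : dihPar m x = ((x.val : ℕ) : ZMod 2) := by
    conv_lhs => rw [← h1]
    rw [map_natCast]
  rw [h2, ZMod.natCast_eq_zero_iff] at h
  obtain ⟨c, hc⟩ := h
  refine ⟨(c : ZMod (2 * m)), ?_⟩
  rw [← h1, hc]
  push_cast
  ring

theorem dih_invol {α : Type} [Fintype α] [DecidableEq α] {σ : Equiv.Perm α} (h : σ * σ = 1) {k : ℕ}
    (hk : σ.support.card = 2 * k) : σ.cycleType = Multiset.replicate k 2 := by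
  have h1 : ∀ c ∈ σ.cycleType, c = 2 := by
    intro c hc
    have h2 : c ∣ orderOf σ := Equiv.Perm.dvd_of_mem_cycleType hc
    have h3 : orderOf σ ∣ 2 := orderOf_dvd_of_pow_eq_one (by rw [pow_two]; exact h)
    have h4 := Equiv.Perm.two_le_of_mem_cycleType hc
    exact le_antisymm (Nat.le_of_dvd (by norm_num) (h2.trans h3)) h4
  have h2 := Multiset.eq_replicate_card.2 h1
  have h3 := Equiv.Perm.sum_cycleType σ
  rw [h2, Multiset.sum_replicate, hk, smul_eq_mul] at h3
  rw [h2]
  congr 1
  omega

theorem dih_rot {n : ℕ} (σ : Equiv.Perm (ZMod (n + 2))) (hσ : ∀ x : ZMod (n + 2), σ x = x - 1) :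
    σ.cycleType = {n + 2} := by
  have h1 : @Eq (Equiv.Perm (Fin (n + 2))) σ (finRotate (n + 2))⁻¹ := by
    rw [eq_inv_iff_mul_eq_one]
    apply Equiv.ext
    intro x
    have h0 : finRotate (n + 2) x = x + 1 := finRotate_apply x
    have h2 : ∀ y : ZMod (n + 2), σ (y + 1) = y := fun y =>
      (hσ (y + 1)).trans (add_sub_cancel_right y 1)
    change σ (finRotate (n + 2) x) = x
    rw [h0]
    exact h2 x
  have h4 : @Equiv.Perm.cycleType (Fin (n + 2)) _ _ ((finRotate (n + 2))⁻¹) = {n + 2} := by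
    rw [Equiv.Perm.cycleType_inv, cycleType_finRotate]
  rw [← h1] at h4
  exact h4

theorem dih_data_aux (n : ℕ) : ∃ (G : Type) (_ : Group G) (_ : Finite G)
    (χ : G →* ℤˣ × ℤˣ) (R₀ : Set G) (ψ : G →* Equiv.Perm (ZMod (n + 2))),
    Nat.card G ≤ 2 * Nat.card R₀ ∧ (∀ p ∈ R₀, ∀ p', χ p' = χ p → IsConj p p') ∧
    (∃ g, (ψ g).cycleType = {n + 2}) ∧
    (Odd (n + 2) → ∃ g, χ g = 1 ∧ (ψ g).cycleType = {n + 2}) ∧
    (Even (n + 2) → ∃ g s s', χ g = χ s * χ s' ∧ (ψ g).cycleType = {n + 2} ∧
      (ψ s).cycleType = Multiset.replicate ((n + 2) / 2 - 1) 2 ∧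
      (ψ s').cycleType = Multiset.replicate ((n + 2) / 2) 2) := by
  have : NeZero (2 * (n + 2)) := ⟨by omega⟩
  have hrot := dih_rot (n := n)
  refine ⟨DihedralGroup (2 * (n + 2)), inferInstance, inferInstance, dihChi (n + 2),
    Set.range DihedralGroup.sr, dihPsi (n + 2), ?_, ?_, ?_, ?_, ?_⟩
  · rw [DihedralGroup.nat_card, Nat.card_range_of_injective, Nat.card_zmod]
    intro a b h
    exact DihedralGroup.sr.inj h
  · rintro _ ⟨i, rfl⟩ p' hp'
    rcases p' with j | j
    · exfalso
      have h1 : (1 : ℤˣ) = -1 := congrArg Prod.snd hp'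
      exact absurd h1 (by decide)
    · have h1 : dihSg (dihPar (n + 2) j) = dihSg (dihPar (n + 2) i) := congrArg Prod.fst hp'
      have h2 : dihPar (n + 2) (i - j) = 0 := by
        rw [map_sub, dihSg_inj _ _ h1, sub_self]
      obtain ⟨c, hc⟩ := dih_half (by omega) h2
      rw [isConj_iff]
      refine ⟨DihedralGroup.r c, ?_⟩
      rw [DihedralGroup.inv_r, DihedralGroup.r_mul_sr, DihedralGroup.sr_mul_r]
      congr 1
      have h3 : i = j + (c + c) := by rw [← hc]; ring
      rw [h3]
      ring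
  · refine ⟨DihedralGroup.r 1, hrot _ fun x => ?_⟩
    change x - dihRed (n + 2) 1 = x - 1
    rw [map_one]
  · intro hodd
    refine ⟨DihedralGroup.r (1 + ((n + 2 : ℕ) : ZMod (2 * (n + 2)))), ?_, hrot _ fun x => ?_⟩
    · change (dihSg (dihPar (n + 2) (1 + ((n + 2 : ℕ) : ZMod (2 * (n + 2))))), (1 : ℤˣ)) = 1
      have h1 : dihPar (n + 2) (1 + ((n + 2 : ℕ) : ZMod (2 * (n + 2)))) = 0 := by
        rw [map_add, map_one, map_natCast]
        have h2 : ((1 + (n + 2) : ℕ) : ZMod 2) = 0 := by
          rw [ZMod.natCast_eq_zero_iff]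
          obtain ⟨k, hk⟩ := hodd
          exact ⟨k + 1, by omega⟩
        rw [← h2]
        push_cast
        ring
      rw [h1]
      rfl
    · change x - dihRed (n + 2) (1 + ((n + 2 : ℕ) : ZMod (2 * (n + 2)))) = x - 1
      rw [map_add, map_one, map_natCast, ZMod.natCast_self, add_zero]
  · rintro ⟨t, ht⟩
    have ht1 : 1 ≤ t := by omega
    refine ⟨DihedralGroup.r 1, DihedralGroup.sr 0, DihedralGroup.sr 1, ?_, hrot _ fun x => ?_,
      ?_, ?_⟩
    · change (dihSg (dihPar (n + 2) 1), (1 : ℤˣ)) =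
        (dihSg (dihPar (n + 2) 0) * dihSg (dihPar (n + 2) 1), -1 * -1)
      rw [map_one, map_zero]
      decide
    · change x - dihRed (n + 2) 1 = x - 1
      rw [map_one]
    · have hs : ∀ x : ZMod (n + 2), (dihPsi (n + 2) (DihedralGroup.sr 0)) x = -x := by
        intro x
        change dihRed (n + 2) 0 - x = -x
        rw [map_zero, zero_sub]
      have h0 : ((t : ℕ) : ZMod (n + 2)).val = t := by
        rw [ZMod.val_natCast, Nat.mod_eq_of_lt (by omega)]
      have hne : (0 : ZMod (n + 2)) ≠ ((t : ℕ) : ZMod (n + 2)) := by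
        intro h
        have h1 := congrArg ZMod.val h
        rw [h0, ZMod.val_zero] at h1
        omega
      have hsup : (dihPsi (n + 2) (DihedralGroup.sr 0)).support =
          ({0, ((t : ℕ) : ZMod (n + 2))} : Finset (ZMod (n + 2)))ᶜ := by
        ext x
        rw [Equiv.Perm.mem_support, hs, Finset.mem_compl, Finset.mem_insert, Finset.mem_singleton]
        refine not_congr ?_
        rw [ZMod.neg_eq_self_iff]
        refine or_congr Iff.rfl ?_
        constructor
        · intro h
          apply ZMod.val_injective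
          rw [h0]
          omega
        · rintro rfl
          rw [h0]
          omega
      refine dih_invol (α := ZMod (n + 2)) ?_ ?_
      · apply Equiv.ext
        intro x
        rw [Equiv.Perm.mul_apply, hs, hs, neg_neg]
        rfl
      · rw [hsup, Finset.card_compl, Finset.card_pair hne, ZMod.card]
        omega
    · have hs : ∀ x : ZMod (n + 2), (dihPsi (n + 2) (DihedralGroup.sr 1)) x = 1 - x := by
        intro x
        change dihRed (n + 2) 1 - x = 1 - x
        rw [map_one]
      have hsup : (dihPsi (n + 2) (DihedralGroup.sr 1)).support = Finset.univ := by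
        ext x
        rw [Equiv.Perm.mem_support, hs]
        refine iff_of_true ?_ (Finset.mem_univ x)
        intro h
        have h1 : x + x = 1 := by
          nth_rewrite 1 [← h]
          ring
        have h2 := congrArg (ZMod.castHom (⟨t, by omega⟩ : 2 ∣ n + 2) (ZMod 2)) h1
        rw [map_add, map_one] at h2
        revert h2
        generalize (ZMod.castHom (⟨t, by omega⟩ : 2 ∣ n + 2) (ZMod 2)) x = y
        revert y
        decide
      refine dih_invol (α := ZMod (n + 2)) ?_ ?_
      · apply Equiv.ext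
        intro x
        rw [Equiv.Perm.mul_apply, hs, hs]
        change 1 - (1 - x) = x
        ring
      · rw [hsup, Finset.card_univ, ZMod.card]
        omega

theorem dih_data (m : ℕ) (hm : 2 ≤ m) : ∃ (G : Type) (_ : Group G) (_ : Finite G)
    (χ : G →* ℤˣ × ℤˣ) (R₀ : Set G) (ψ : G →* Equiv.Perm (Fin m)),
    Nat.card G ≤ 2 * Nat.card R₀ ∧ (∀ p ∈ R₀, ∀ p', χ p' = χ p → IsConj p p') ∧
    (∃ g, (ψ g).cycleType = {m}) ∧
    (Odd m → ∃ g, χ g = 1 ∧ (ψ g).cycleType = {m}) ∧
    (Even m → ∃ g s s', χ g = χ s * χ s' ∧ (ψ g).cycleType = {m} ∧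
      (ψ s).cycleType = Multiset.replicate (m / 2 - 1) 2 ∧
      (ψ s').cycleType = Multiset.replicate (m / 2) 2) := by
  obtain ⟨n, rfl⟩ : ∃ n, m = n + 2 := ⟨m - 2, by omega⟩
  exact dih_data_aux n

end Pool.Agent.H3.SF
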