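import Mathlib
import Pool.Agent.H3.SF.Basic

/-!
Project SF (MP_1f4fc7_nt), job SF-04.  Averages over subgroups as orthogonal projections
(elementary finite sums; `mean` is invariant under translations `x ↦ x * d`).

* `abs_avg_le`: triangle inequality.
* `avg_mul_right`: replace the summation variable `e` by `d⁻¹ * e` (`d ∈ D`).
* `avg_eq_self`: if `f (x * d) = f x` for all `d ∈ D` (at the given `x`), `avg D f x = f x`.
* `avg_avg_of_le`: `D ≤ D'`, then `avg D' (avg D f) = avg D' f` (translate the `D'`-sum by `d ∈ D`).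
* `mean_mul_avg`: `mean (f * avg D f) = mean ((avg D f)²)`: both are
  `(1/#D) ∑_{d ∈ D} mean (x ↦ f x * avg D f x)`; precisely `mean (f * u) = mean (avg D f * u)` for
  every `u` with `u (x * d) = u x` (`d ∈ D`), by translation.
* `mean_sq_sub`: `D ≤ D'`: with `a = avg D f`, `b = avg D' f` one has `avg D' a = b`, so
  `mean (a b) = mean (b²)` and `mean ((a - b)²) = mean (a²) - mean (b²)`.
* `eq_zero_of_mean_sq`: a sum of squares is zero.
* `mean_sq_le`: `|f| ≤ B` gives `mean (f²) ≤ B²`.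
-/

namespace Pool.Agent.H3.SF

variable {Γ : Type*} [Group Γ] [Fintype Γ]

open Classical in
theorem hil_avg_eq (D : Subgroup Γ) (f : Γ → ℝ) (x : Γ) :
    avg D f x = (∑ d : D, f (x * (d : Γ))) / Nat.card D := by
  unfold avg
  congr 1
  have h1 : ∀ d : Γ, (D : Set Γ).indicator (fun d => f (x * d)) d =
      if d ∈ D then f (x * d) else 0 := by
    intro d
    rw [Set.indicator_apply]
    rfl
  rw [Finset.sum_congr rfl fun d _ => h1 d, ← Finset.sum_filter]
  exact Finset.sum_subtype (Finset.univ.filter fun d => d ∈ D) (by simp) (fun d => f (x * d))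

theorem hil_card_pos (D : Subgroup Γ) : (0 : ℝ) < Nat.card D := by
  exact_mod_cast Nat.card_pos

theorem abs_avg_le (D : Subgroup Γ) {f : Γ → ℝ} {B : ℝ} (hB : ∀ g, |f g| ≤ B) (x : Γ) :
    |avg D f x| ≤ B := by
  classical
  rw [hil_avg_eq, abs_div, abs_of_pos (hil_card_pos D), div_le_iff₀ (hil_card_pos D)]
  calc |∑ d : D, f (x * (d : Γ))| ≤ ∑ d : D, |f (x * (d : Γ))| := Finset.abs_sum_le_sum_abs _ _
    _ ≤ ∑ d : D, B := Finset.sum_le_sum fun d _ => hB _
    _ = B * Nat.card D := by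
        rw [Finset.sum_const, Finset.card_univ, nsmul_eq_mul, Nat.card_eq_fintype_card, mul_comm]

theorem avg_mul_right (D : Subgroup Γ) (f : Γ → ℝ) (x : Γ) {d : Γ} (hd : d ∈ D) :
    avg D f (x * d) = avg D f x := by
  classical
  rw [hil_avg_eq, hil_avg_eq]
  congr 1
  refine Fintype.sum_equiv (Equiv.mulLeft (⟨d, hd⟩ : D)) _ _ fun e => ?_
  show f (x * d * (e : Γ)) = f (x * (d * (e : Γ)))
  rw [mul_assoc]

theorem avg_eq_self (D : Subgroup Γ) (f : Γ → ℝ) (x : Γ) (h : ∀ d ∈ D, f (x * d) = f x) :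
    avg D f x = f x := by
  classical
  rw [hil_avg_eq, Finset.sum_congr rfl fun (d : D) _ => h d d.2, Finset.sum_const,
    Finset.card_univ, nsmul_eq_mul, Nat.card_eq_fintype_card, mul_comm]
  refine mul_div_cancel_right₀ _ ?_
  have := hil_card_pos D
  rw [Nat.card_eq_fintype_card] at this
  exact this.ne'

theorem hil_sum_mul_right (f : Γ → ℝ) (d : Γ) : ∑ x, f (x * d) = ∑ x, f x :=
  Fintype.sum_equiv (Equiv.mulRight d) _ _ fun _ => rfl

theorem avg_avg_of_le {D D' : Subgroup Γ} (h : D ≤ D') (f : Γ → ℝ) :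
    avg D' (avg D f) = avg D' f := by
  classical
  funext x
  have h1 : ∀ d : D, ∑ e : D', f (x * (e : Γ) * (d : Γ)) = ∑ e : D', f (x * (e : Γ)) := by
    intro d
    refine Fintype.sum_equiv (Equiv.mulRight (⟨d, h d.2⟩ : D')) _ _ fun e => ?_
    show f (x * (e : Γ) * (d : Γ)) = f (x * ((e : Γ) * (d : Γ)))
    rw [mul_assoc]
  rw [hil_avg_eq, hil_avg_eq]
  congr 1
  rw [Finset.sum_congr rfl fun (e : D') _ => hil_avg_eq D f (x * (e : Γ)), ← Finset.sum_div,
    Finset.sum_comm, Finset.sum_congr rfl fun (d : D) _ => h1 d, Finset.sum_const,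
    Finset.card_univ, nsmul_eq_mul, Nat.card_eq_fintype_card, mul_comm]
  refine mul_div_cancel_right₀ _ ?_
  have := hil_card_pos D
  rw [Nat.card_eq_fintype_card] at this
  exact this.ne'

theorem hil_mean_mul (D : Subgroup Γ) (f u : Γ → ℝ) (hu : ∀ x, ∀ d ∈ D, u (x * d) = u x) :
    mean (fun x => f x * u x) = mean (fun x => avg D f x * u x) := by
  classical
  unfold mean
  congr 1
  have h1 : ∀ x, avg D f x * u x = (∑ d : D, f (x * (d : Γ)) * u (x * (d : Γ))) / Nat.card D := by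
    intro x
    rw [hil_avg_eq, div_mul_eq_mul_div, Finset.sum_mul]
    congr 1
    refine Finset.sum_congr rfl fun d _ => ?_
    rw [hu x d d.2]
  rw [Finset.sum_congr rfl fun x _ => h1 x, ← Finset.sum_div, Finset.sum_comm,
    Finset.sum_congr rfl fun (d : D) _ => hil_sum_mul_right (fun x => f x * u x) (d : Γ),
    Finset.sum_const, Finset.card_univ, nsmul_eq_mul, Nat.card_eq_fintype_card, mul_comm]
  symm
  refine mul_div_cancel_right₀ _ ?_
  have := hil_card_pos D
  rw [Nat.card_eq_fintype_card] at this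
  exact this.ne'

theorem mean_mul_avg (D : Subgroup Γ) (f : Γ → ℝ) :
    mean (fun x => f x * avg D f x) = mean (fun x => avg D f x ^ 2) := by
  rw [hil_mean_mul D f (avg D f) fun x d hd => avg_mul_right D f x hd]
  simp only [sq]

theorem hil_mean_lin (a b c : Γ → ℝ) :
    mean (fun x => a x - 2 * b x + c x) = mean a - 2 * mean b + mean c := by
  unfold mean
  rw [Finset.sum_add_distrib, Finset.sum_sub_distrib, ← Finset.mul_sum]
  ring

theorem mean_sq_sub {D D' : Subgroup Γ} (h : D ≤ D') (f : Γ → ℝ) :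
    mean (fun x => (avg D f x - avg D' f x) ^ 2) =
      mean (fun x => avg D f x ^ 2) - mean (fun x => avg D' f x ^ 2) := by
  have h1 : (fun x => (avg D f x - avg D' f x) ^ 2) =
      fun x => avg D f x ^ 2 - 2 * (avg D f x * avg D' f x) + avg D' f x ^ 2 := by
    funext x
    ring
  have h2 : mean (fun x => avg D f x * avg D' f x) = mean (fun x => avg D' f x ^ 2) := by
    have h3 := mean_mul_avg D' (avg D f)
    rw [avg_avg_of_le h] at h3
    exact h3
  rw [h1, hil_mean_lin, h2]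
  ring

theorem eq_zero_of_mean_sq {f : Γ → ℝ} (h : mean (fun x => f x ^ 2) = 0) (x : Γ) : f x = 0 := by
  unfold mean at h
  have hc : ((Fintype.card Γ : ℕ) : ℝ) ≠ 0 := by
    exact_mod_cast Fintype.card_ne_zero
  rw [div_eq_zero_iff, or_iff_left hc] at h
  have h1 := (Finset.sum_eq_zero_iff_of_nonneg fun i _ => sq_nonneg (f i)).mp h x
    (Finset.mem_univ x)
  exact pow_eq_zero_iff (two_ne_zero) |>.mp h1

theorem mean_sq_nonneg (f : Γ → ℝ) : 0 ≤ mean (fun x => f x ^ 2) := by
  unfold mean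
  exact div_nonneg (Finset.sum_nonneg fun i _ => sq_nonneg (f i)) (Nat.cast_nonneg _)

theorem mean_sq_le {f : Γ → ℝ} {B : ℝ} (hB : ∀ g, |f g| ≤ B) : mean (fun x => f x ^ 2) ≤ B ^ 2 := by
  unfold mean
  have hc : (0 : ℝ) < Fintype.card Γ := by
    exact_mod_cast Fintype.card_pos
  rw [div_le_iff₀ hc]
  calc ∑ g, f g ^ 2 ≤ ∑ g : Γ, B ^ 2 := by
        refine Finset.sum_le_sum fun g _ => ?_
        rw [← sq_abs (f g)]
        exact pow_le_pow_left₀ (abs_nonneg _) (hB g) 2
    _ = B ^ 2 * Fintype.card Γ := by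
        rw [Finset.sum_const, Finset.card_univ, nsmul_eq_mul, mul_comm]

theorem avg_bot (f : Γ → ℝ) : avg ⊥ f = f := by
  funext x
  refine avg_eq_self ⊥ f x fun d hd => ?_
  rw [Subgroup.mem_bot.mp hd, mul_one]

end Pool.Agent.H3.SF
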