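import Mathlib
import Pool.Agent.H3.SF.Basic

/-!
Project SF (MP_1f4fc7_nt), job SF-02.

* `IsPR.mean_int` (Burnside): for a permutation character `mean` is the number of orbits:
  `∑_g #{i // φ g i = i} = (#orbits) * #Γ`
  (`MulAction.sum_card_fixedBy_eq_card_orbits_mul_card_group`, with `MulAction.compHom _ φ`).
* `IsPR.avg`: for a finite set `X` with an action of `Γ` and a normal subgroup `D`,
  `avg D (fix_X) x` is the number of fixed points of `x` on the set `X / D` of `D`-orbits, on which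
  `Γ` acts because `D` is normal (`g • (D p) = D (g • p)`).  Proof of the count:
  `∑_{d ∈ D} #{p // (x d) p = p} = ∑_p #{d ∈ D // d p = x⁻¹ p}`, and for given `p` the inner number is
  `#Stab_D(p)` if `x⁻¹ p ∈ D p` and `0` otherwise.  Summing over the points `p` of one `D`-orbit
  `O` gives `#O * #Stab_D(p) = #D` if `x⁻¹ O = O` (equivalently `x O = O`) and `0` otherwise.
  For a difference of two permutation characters use linearity of `avg`.
-/

namespace Pool.Agent.H3.SF

variable {Γ : Type*} [Group Γ] [Fintype Γ]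

theorem Mean_burnside {n : ℕ} (φ : Γ →* Equiv.Perm (Fin n)) :
    ∃ k : ℕ, ∑ g, fixc φ g = (k : ℝ) * Fintype.card Γ := by
  classical
  letI : MulAction Γ (Fin n) := MulAction.compHom _ φ
  refine ⟨Fintype.card (Quotient (MulAction.orbitRel Γ (Fin n))), ?_⟩
  have h := MulAction.sum_card_fixedBy_eq_card_orbits_mul_card_group Γ (Fin n)
  rw [← Nat.cast_mul, ← h, Nat.cast_sum]
  refine Finset.sum_congr rfl fun g _ => ?_
  unfold fixc
  rw [Nat.card_eq_fintype_card]
  congr 1

theorem IsPR.mean_int {f : Γ → ℝ} (hf : IsPR f) : ∃ z : ℤ, mean f = z := by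
  obtain ⟨n, m, φ, ψ, h⟩ := hf
  obtain ⟨a, ha⟩ := Mean_burnside φ
  obtain ⟨b, hb⟩ := Mean_burnside ψ
  refine ⟨(a : ℤ) - b, ?_⟩
  have hc : (Fintype.card Γ : ℝ) ≠ 0 := by
    have := Fintype.card_pos (α := Γ)
    positivity
  unfold mean
  rw [div_eq_iff hc]
  simp_rw [h]
  rw [Finset.sum_sub_distrib, ha, hb]
  push_cast
  ring

/-- the orbits of a subgroup -/
def Mean_setoid {n : ℕ} (φ : Γ →* Equiv.Perm (Fin n)) (D : Subgroup Γ) : Setoid (Fin n) where
  r i j := ∃ d ∈ D, φ d i = j
  iseqv :=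
    { refl := fun i => ⟨1, D.one_mem, by simp⟩
      symm := by
        rintro i j ⟨d, hd, rfl⟩
        exact ⟨d⁻¹, D.inv_mem hd, by simp⟩
      trans := by
        rintro i j k ⟨d, hd, rfl⟩ ⟨e, he, rfl⟩
        exact ⟨e * d, D.mul_mem he hd, by simp⟩ }

theorem Mean_setoid_map {n : ℕ} (φ : Γ →* Equiv.Perm (Fin n)) (D : Subgroup Γ) [D.Normal] (g : Γ)
    {i j : Fin n} (h : (Mean_setoid φ D).r i j) : (Mean_setoid φ D).r (φ g i) (φ g j) := by
  obtain ⟨d, hd, rfl⟩ := h
  refine ⟨g * d * g⁻¹, Subgroup.Normal.conj_mem inferInstance d hd g, ?_⟩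
  simp

/-- the action on the orbits of a normal subgroup -/
def Mean_act {n : ℕ} (φ : Γ →* Equiv.Perm (Fin n)) (D : Subgroup Γ) [D.Normal] :
    Γ →* Equiv.Perm (Quotient (Mean_setoid φ D)) where
  toFun g :=
    { toFun := Quotient.map (φ g) fun _ _ h => Mean_setoid_map φ D g h
      invFun := Quotient.map (φ g⁻¹) fun _ _ h => Mean_setoid_map φ D g⁻¹ h
      left_inv := by
        intro q
        induction q using Quotient.inductionOn with
        | _ i => simp
      right_inv := by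
        intro q
        induction q using Quotient.inductionOn with
        | _ i => simp }
  map_one' := by
    ext q
    induction q using Quotient.inductionOn with
    | _ i => simp
  map_mul' g h := by
    ext q
    induction q using Quotient.inductionOn with
    | _ i => simp

theorem Mean_act_mk {n : ℕ} (φ : Γ →* Equiv.Perm (Fin n)) (D : Subgroup Γ) [D.Normal] (g : Γ)
    (i : Fin n) : Mean_act φ D g (Quotient.mk (Mean_setoid φ D) i) =
      Quotient.mk (Mean_setoid φ D) (φ g i) := rfl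

/-- stabiliser count -/
noncomputable def Mean_st {n : ℕ} (φ : Γ →* Equiv.Perm (Fin n)) (D : Subgroup Γ) (p : Fin n) : ℕ :=
  Nat.card {d : D // φ (d : Γ) p = p}

theorem Mean_count_eq {n : ℕ} (φ : Γ →* Equiv.Perm (Fin n)) (D : Subgroup Γ) (p q : Fin n)
    (h : ∃ d ∈ D, φ d p = q) : Nat.card {d : D // φ (d : Γ) p = q} = Mean_st φ D p := by
  obtain ⟨e, he, rfl⟩ := h
  unfold Mean_st
  refine Nat.card_congr ⟨fun d => ⟨(⟨e, he⟩ : D)⁻¹ * d.1, ?_⟩, fun d => ⟨(⟨e, he⟩ : D) * d.1, ?_⟩,
    ?_, ?_⟩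
  · have := d.2
    simp [this]
  · have := d.2
    simp [this]
  · intro d
    ext
    simp
  · intro d
    ext
    simp

theorem Mean_count_zero {n : ℕ} (φ : Γ →* Equiv.Perm (Fin n)) (D : Subgroup Γ) (p q : Fin n)
    (h : ¬ ∃ d ∈ D, φ d p = q) : Nat.card {d : D // φ (d : Γ) p = q} = 0 := by
  have : IsEmpty {d : D // φ (d : Γ) p = q} := ⟨fun d => h ⟨d.1, d.1.2, d.2⟩⟩
  exact Nat.card_of_isEmpty

/-- orbit-stabiliser -/
theorem Mean_orbit {n : ℕ} (φ : Γ →* Equiv.Perm (Fin n)) (D : Subgroup Γ) (p : Fin n) :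
    Nat.card {q : Fin n // ∃ d ∈ D, φ d p = q} * Mean_st φ D p = Nat.card D := by
  classical
  have e : D ≃ Σ q : {q : Fin n // ∃ d ∈ D, φ d p = q}, {d : D // φ (d : Γ) p = q.1} :=
    { toFun := fun d => ⟨⟨φ (d : Γ) p, d.1, d.2, rfl⟩, d, rfl⟩
      invFun := fun x => x.2.1
      left_inv := fun d => rfl
      right_inv := by
        rintro ⟨⟨q, hq⟩, d, hd⟩
        have hd' : φ (d : Γ) p = q := hd
        subst hd'
        rfl }
  rw [Nat.card_congr e, Nat.card_sigma]
  rw [Finset.sum_congr rfl fun q _ => Mean_count_eq φ D p q.1 q.2]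
  rw [Finset.sum_const, Finset.card_univ, smul_eq_mul, Nat.card_eq_fintype_card]

theorem Mean_st_pos {n : ℕ} (φ : Γ →* Equiv.Perm (Fin n)) (D : Subgroup Γ) (p : Fin n) :
    0 < Mean_st φ D p := by
  unfold Mean_st
  haveI : Nonempty {d : D // φ (d : Γ) p = p} := ⟨⟨1, by simp⟩⟩
  exact Nat.card_pos

theorem Mean_fiber {n : ℕ} (φ : Γ →* Equiv.Perm (Fin n)) (D : Subgroup Γ)
    (O : Quotient (Mean_setoid φ D)) [DecidableEq (Quotient (Mean_setoid φ D))] :
    ∑ p : Fin n, (if Quotient.mk (Mean_setoid φ D) p = O then (Mean_st φ D p : ℝ) else 0) =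
      Nat.card D := by
  classical
  induction O using Quotient.inductionOn with
  | _ p0 =>
    have hiff : ∀ p : Fin n, (Quotient.mk (Mean_setoid φ D) p = Quotient.mk (Mean_setoid φ D) p0) ↔
        ∃ d ∈ D, φ d p0 = p := by
      intro p
      rw [eq_comm]
      exact Quotient.eq
    have hcard : ∀ p : Fin n, (∃ d ∈ D, φ d p0 = p) →
        (Mean_st φ D p : ℝ) * Nat.card {q : Fin n // ∃ d ∈ D, φ d p0 = q} = Nat.card D := by
      intro p hp
      have h1 := Mean_orbit φ D p
      have h2 : Nat.card {q : Fin n // ∃ d ∈ D, φ d p = q} =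
          Nat.card {q : Fin n // ∃ d ∈ D, φ d p0 = q} := by
        refine Nat.card_congr (Equiv.subtypeEquivRight fun q => ?_)
        constructor
        · intro hq
          exact (Mean_setoid φ D).iseqv.trans hp hq
        · intro hq
          exact (Mean_setoid φ D).iseqv.trans ((Mean_setoid φ D).iseqv.symm hp) hq
      rw [h2] at h1
      rw [mul_comm]
      exact_mod_cast h1
    have hpos : (0 : ℝ) < Nat.card {q : Fin n // ∃ d ∈ D, φ d p0 = q} := by
      haveI : Nonempty {q : Fin n // ∃ d ∈ D, φ d p0 = q} := ⟨⟨p0, 1, D.one_mem, by simp⟩⟩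
      exact_mod_cast Nat.card_pos
    have h3 : ∀ p : Fin n, (if Quotient.mk (Mean_setoid φ D) p = Quotient.mk (Mean_setoid φ D) p0
        then (Mean_st φ D p : ℝ) else 0) =
        if (∃ d ∈ D, φ d p0 = p) then
          (Nat.card D : ℝ) / Nat.card {q : Fin n // ∃ d ∈ D, φ d p0 = q} else 0 := by
      intro p
      by_cases hp : ∃ d ∈ D, φ d p0 = p
      · rw [if_pos hp, if_pos ((hiff p).2 hp), eq_div_iff hpos.ne']
        exact hcard p hp
      · rw [if_neg hp, if_neg (fun h => hp ((hiff p).1 h))]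
    rw [Finset.sum_congr rfl fun p _ => h3 p, ← Finset.sum_filter, Finset.sum_const, nsmul_eq_mul,
      ← Fintype.card_subtype, ← Nat.card_eq_fintype_card, mul_div_cancel₀ _ hpos.ne']

theorem Mean_avg_fixc {n : ℕ} (φ : Γ →* Equiv.Perm (Fin n)) (D : Subgroup Γ) [D.Normal] (x : Γ) :
    avg D (fixc φ) x =
      (Nat.card {O : Quotient (Mean_setoid φ D) // Mean_act φ D x O = O} : ℝ) := by
  classical
  have hD : (Nat.card D : ℝ) ≠ 0 := by
    have : 0 < Nat.card D := Nat.card_pos
    positivity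
  unfold avg
  rw [div_eq_iff hD]
  have h1 : ∑ d : Γ, (D : Set Γ).indicator (fun d => fixc φ (x * d)) d =
      ∑ d : D, fixc φ (x * d) := by
    simp_rw [Set.indicator_apply, SetLike.mem_coe]
    rw [← Finset.sum_filter]
    exact Finset.sum_subtype _ (by simp) _
  rw [h1]
  have h2 : ∀ d : D, fixc φ (x * d) = ∑ p : Fin n, if φ (d : Γ) p = φ x⁻¹ p then (1 : ℝ) else 0 := by
    intro d
    unfold fixc
    rw [Nat.card_eq_fintype_card, Fintype.card_subtype, Finset.card_filter]
    push_cast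
    refine Finset.sum_congr rfl fun p _ => ?_
    have : (φ (x * d) p = p) ↔ (φ (d : Γ) p = φ x⁻¹ p) := by
      rw [map_mul, map_inv, Equiv.Perm.mul_apply]
      exact (Equiv.Perm.eq_inv_iff_eq).symm
    simp only [this]
  simp_rw [h2]
  rw [Finset.sum_comm]
  have h3 : ∀ p : Fin n, ∑ d : D, (if φ (d : Γ) p = φ x⁻¹ p then (1 : ℝ) else 0) =
      if Mean_act φ D x (Quotient.mk (Mean_setoid φ D) p) = Quotient.mk (Mean_setoid φ D) p then
        (Mean_st φ D p : ℝ) else 0 := by
    intro p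
    have h4 : ∑ d : D, (if φ (d : Γ) p = φ x⁻¹ p then (1 : ℝ) else 0) =
        Nat.card {d : D // φ (d : Γ) p = φ x⁻¹ p} := by
      rw [Nat.card_eq_fintype_card, Fintype.card_subtype, Finset.card_filter]
      push_cast
      rfl
    have h5 : (Mean_act φ D x (Quotient.mk (Mean_setoid φ D) p) = Quotient.mk (Mean_setoid φ D) p) ↔
        ∃ d ∈ D, φ d p = φ x⁻¹ p := by
      constructor
      · intro h
        have h' : Mean_act φ D x⁻¹ (Mean_act φ D x (Quotient.mk (Mean_setoid φ D) p)) =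
            Mean_act φ D x⁻¹ (Quotient.mk (Mean_setoid φ D) p) := by rw [h]
        rw [← Equiv.Perm.mul_apply, ← map_mul, inv_mul_cancel, map_one, Equiv.Perm.one_apply,
          Mean_act_mk] at h'
        exact Quotient.eq.1 h'
      · intro h
        have h' : Quotient.mk (Mean_setoid φ D) p = Mean_act φ D x⁻¹ (Quotient.mk (Mean_setoid φ D) p) := by
          rw [Mean_act_mk]
          exact Quotient.eq.2 h
        conv_lhs => rw [h']
        rw [← Equiv.Perm.mul_apply, ← map_mul, mul_inv_cancel, map_one, Equiv.Perm.one_apply]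
    rw [h4]
    by_cases hp : ∃ d ∈ D, φ d p = φ x⁻¹ p
    · rw [if_pos (h5.2 hp), Mean_count_eq φ D p _ hp]
    · rw [if_neg (fun h => hp (h5.1 h)), Mean_count_zero φ D p _ hp, Nat.cast_zero]
  rw [Finset.sum_congr rfl fun p _ => h3 p]
  have h6 : ∀ p : Fin n, (if Mean_act φ D x (Quotient.mk (Mean_setoid φ D) p) =
      Quotient.mk (Mean_setoid φ D) p then (Mean_st φ D p : ℝ) else 0) =
      ∑ O : Quotient (Mean_setoid φ D), if Mean_act φ D x O = O then
        (if Quotient.mk (Mean_setoid φ D) p = O then (Mean_st φ D p : ℝ) else 0) else 0 := by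
    intro p
    rw [Finset.sum_eq_single (Quotient.mk (Mean_setoid φ D) p)]
    · simp
    · intro O _ hO
      rw [if_neg (Ne.symm hO)]
      simp
    · intro h
      exact absurd (Finset.mem_univ _) h
  rw [Finset.sum_congr rfl fun p _ => h6 p, Finset.sum_comm]
  have h7 : ∀ O : Quotient (Mean_setoid φ D), (∑ p : Fin n, if Mean_act φ D x O = O then
        (if Quotient.mk (Mean_setoid φ D) p = O then (Mean_st φ D p : ℝ) else 0) else 0) =
      if Mean_act φ D x O = O then (Nat.card D : ℝ) else 0 := by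
    intro O
    by_cases hO : Mean_act φ D x O = O
    · simp only [if_pos hO]
      exact Mean_fiber φ D O
    · simp only [if_neg hO, Finset.sum_const_zero]
  rw [Finset.sum_congr rfl fun O _ => h7 O, ← Finset.sum_filter, Finset.sum_const, nsmul_eq_mul,
    ← Fintype.card_subtype, ← Nat.card_eq_fintype_card]

theorem IsPR.avg {f : Γ → ℝ} (hf : IsPR f) (D : Subgroup Γ) [D.Normal] : IsPR (avg D f) := by
  obtain ⟨n, m, φ, ψ, h⟩ := hf
  obtain ⟨a, χ, hχ⟩ := basic_pc (Quotient (Mean_setoid φ D)) (Mean_act φ D)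
  obtain ⟨b, χ', hχ'⟩ := basic_pc (Quotient (Mean_setoid ψ D)) (Mean_act ψ D)
  refine ⟨a, b, χ, χ', fun x => ?_⟩
  rw [← hχ x, ← hχ' x, ← Mean_avg_fixc φ D x, ← Mean_avg_fixc ψ D x]
  unfold SF.avg
  rw [← sub_div, ← Finset.sum_sub_distrib]
  congr 1
  refine Finset.sum_congr rfl fun d _ => ?_
  by_cases hd : d ∈ (D : Set Γ)
  · rw [Set.indicator_of_mem hd, Set.indicator_of_mem hd, Set.indicator_of_mem hd, h]
  · rw [Set.indicator_of_notMem hd, Set.indicator_of_notMem hd, Set.indicator_of_notMem hd,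
      sub_zero]

end Pool.Agent.H3.SF
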