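import Mathlib
import Pool.Agent.H3.SF.Congr

/-!
Project SF (MP_1f4fc7_nt), job SF-11.  Removing large primes from the cycle lengths.

`sm P ℓ` is the `P`-smooth part of `ℓ`.  By `IsPR.eq_pow_prime`, `θ g = θ (g ^ p)` for every prime
`p ≥ P = 2 B + 1`, hence `θ g = θ (g ^ t)` for every product `t` of primes `≥ P` (induction on the
list of primes).  Take `t := (n!).primeFactorsList.filter (P ≤ ·)` product (or the same for the order of
`g`, or for the product of the cycle lengths).  `t` is odd (all its prime factors are at least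
`P ≥ 3`), so `sign (g ^ t) = sign g ^ t = sign g`.  For a point `a` in a cycle of `g` of length `ℓ`
(`ℓ ∈ g.cycleType`; `ℓ ≤ n`), `ℓ = sm P ℓ * (rough part of ℓ)` and the rough part divides `t`, so
`ℓ ∣ sm P ℓ * t` and `((g ^ t) ^ (sm P ℓ)) a = a`, so the cycle of `g ^ t` at `a` has length at most
`sm P ℓ` (it divides it, and `0 < sm P ℓ`).  Every `x ∈ (g ^ t).cycleType` is the length of the
cycle of `g ^ t` at some `a` with `(g ^ t) a ≠ a`, and then `g a ≠ a`.
-/

namespace Pool.Agent.H3.SF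

/-- the part of `ℓ` composed of primes less than `P` -/
def sm (P ℓ : ℕ) : ℕ := (ℓ.primeFactorsList.filter (· < P)).prod

theorem smooth_list {Γ : Type*} [Group Γ] {f : Γ → ℝ} (hf : IsPR f) {B : ℝ} (hB : ∀ g, |f g| ≤ B) :
    ∀ (l : List ℕ), (∀ p ∈ l, p.Prime ∧ 2 * B < p) → ∀ g : Γ, f (g ^ l.prod) = f g := by
  intro l
  induction l with
  | nil => intro _ g; simp
  | cons p l ih =>
    intro h g
    rw [List.prod_cons, pow_mul, ih (fun q hq => h q (List.mem_cons_of_mem _ hq)),
      ← hf.eq_pow_prime hB (h p List.mem_cons_self).1 (h p List.mem_cons_self).2]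

theorem smooth_sm_pos (P ℓ : ℕ) : 0 < sm P ℓ := by
  refine List.prod_pos fun p hp => ?_
  exact (Nat.prime_of_mem_primeFactorsList (List.mem_of_mem_filter hp)).pos

theorem smooth_dvd {P ℓ N : ℕ} (hN : N ≠ 0) (h : ℓ ∣ N) :
    ℓ ∣ sm P ℓ * (N.primeFactorsList.filter (fun p => ¬ p < P)).prod := by
  have hℓ : ℓ ≠ 0 := ne_zero_of_dvd_ne_zero hN h
  have h1 : (ℓ.primeFactorsList.filter (· < P)).prod * (ℓ.primeFactorsList.filter (fun p => ¬ p < P)).prod = ℓ := by
    conv_rhs => rw [← Nat.prod_primeFactorsList hℓ]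
    rw [← List.prod_append]
    refine List.Perm.prod_eq ?_
    have h2 := List.filter_append_perm (fun p => decide (p < P)) ℓ.primeFactorsList
    refine List.Perm.trans (List.Perm.of_eq ?_) h2
    congr 1
    refine List.filter_congr fun p _ => ?_
    by_cases hp : p < P
    · simp [hp]
    · simp [hp]
  conv_lhs => rw [← h1]
  refine mul_dvd_mul (dvd_refl _) ?_
  exact ((Nat.primeFactorsList_sublist_of_dvd h hN).filter _).prod_dvd_prod

theorem smooth_odd {P : ℕ} (hP : 3 ≤ P) : ∀ (l : List ℕ), (∀ p ∈ l, p.Prime ∧ P ≤ p) → Odd l.prod := by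
  intro l
  induction l with
  | nil => intro _; simp
  | cons p l ih =>
    intro h
    rw [List.prod_cons]
    have h1 := h p List.mem_cons_self
    refine Odd.mul (h1.1.odd_of_ne_two ?_) (ih fun q hq => h q (List.mem_cons_of_mem _ hq))
    have := h1.2
    omega

theorem smooth_part {n : ℕ} (θ : Equiv.Perm (Fin n) → ℝ) (hθ : IsPR θ) (B : ℕ) (hB1 : 1 ≤ B)
    (hB : ∀ g, |θ g| ≤ B) (g : Equiv.Perm (Fin n)) :
    ∃ g' : Equiv.Perm (Fin n), θ g' = θ g ∧ Equiv.Perm.sign g' = Equiv.Perm.sign g ∧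
      ∀ x ∈ g'.cycleType, ∃ ℓ ∈ g.cycleType, x ≤ sm (2 * B + 1) ℓ := by
  classical
  set t : ℕ := ((n.factorial).primeFactorsList.filter (fun p => ¬ p < 2 * B + 1)).prod with ht
  have hl : ∀ p ∈ (n.factorial).primeFactorsList.filter (fun p => ¬ p < 2 * B + 1), p.Prime ∧ 2 * B + 1 ≤ p := by
    intro p hp
    rw [List.mem_filter] at hp
    exact ⟨Nat.prime_of_mem_primeFactorsList hp.1, by simpa using hp.2⟩
  refine ⟨g ^ t, ?_, ?_, ?_⟩
  · refine smooth_list hθ (B := (B : ℝ)) hB _ (fun p hp => ⟨(hl p hp).1, ?_⟩) g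
    have h1 := (hl p hp).2
    have h2 : ((2 * B + 1 : ℕ) : ℝ) ≤ (p : ℝ) := by exact_mod_cast h1
    push_cast at h2
    linarith
  · rw [map_pow]
    have hodd : Odd t := smooth_odd (P := 2 * B + 1) (by omega) _ hl
    rcases Int.units_eq_one_or (Equiv.Perm.sign g) with h | h
    · rw [h, one_pow]
    · rw [h, hodd.neg_one_pow]
  · intro x hx
    rw [Equiv.Perm.cycleType_def, Multiset.mem_map] at hx
    obtain ⟨c, hc, hcx⟩ := hx
    rw [Finset.mem_val] at hc
    have hcc := (Equiv.Perm.mem_cycleFactorsFinset_iff.1 hc).1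
    obtain ⟨a, ha⟩ : c.support.Nonempty := hcc.nonempty_support
    have hcyc : c = (g ^ t).cycleOf a := Equiv.Perm.cycle_is_cycleOf ha hc
    have hca : c a ≠ a := Equiv.Perm.mem_support.1 ha
    have hga : g a ≠ a := by
      intro h
      apply hca
      rw [hcyc, Equiv.Perm.cycleOf_apply_self]
      exact Equiv.Perm.pow_apply_eq_self_of_apply_eq_self h t
    have hgc : (g.cycleOf a).IsCycle := Equiv.Perm.isCycle_cycleOf g hga
    refine ⟨(g.cycleOf a).support.card, ?_, ?_⟩
    · rw [Equiv.Perm.cycleType_def, Multiset.mem_map]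
      refine ⟨g.cycleOf a, ?_, rfl⟩
      rw [Finset.mem_val]
      exact Equiv.Perm.cycleOf_mem_cycleFactorsFinset_iff.2 (Equiv.Perm.mem_support.2 hga)
    · set ℓ := (g.cycleOf a).support.card with hℓ
      have hℓn : ℓ ≤ n := by
        have := Finset.card_le_univ (g.cycleOf a).support
        rwa [Fintype.card_fin] at this
      have hℓ0 : 0 < ℓ := by
        have := hgc.two_le_card_support
        omega
      have hdvd : ℓ ∣ sm (2 * B + 1) ℓ * t := smooth_dvd (Nat.factorial_ne_zero n) (Nat.dvd_factorial hℓ0 hℓn)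
      have h1 : (g ^ ℓ) a = a := by
        rw [← Equiv.Perm.cycleOf_pow_apply_self, hℓ, ← hgc.orderOf, pow_orderOf_eq_one]
        rfl
      have h2 : (((g ^ t) ^ (sm (2 * B + 1) ℓ))) a = a := by
        rw [← pow_mul, mul_comm]
        obtain ⟨k, hk⟩ := hdvd
        rw [hk, pow_mul]
        exact Equiv.Perm.pow_apply_eq_self_of_apply_eq_self h1 k
      have h3 : c ^ (sm (2 * B + 1) ℓ) = 1 := by
        rw [hcc.pow_eq_one_iff]
        refine ⟨a, hca, ?_⟩
        rw [hcyc, Equiv.Perm.cycleOf_pow_apply_self]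
        exact h2
      have h4 := orderOf_dvd_of_pow_eq_one h3
      rw [hcc.orderOf] at h4
      rw [← hcx]
      exact Nat.le_of_dvd (smooth_sm_pos _ _) h4

end Pool.Agent.H3.SF
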