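import Mathlib
import Pool.Agent.H3.SF.Smooth

/-!
Project SF (MP_1f4fc7_nt), job SF-13.  A numerical estimate.

Let `P = 2 B + 1`, `N = 16 (B² + 1)`, `1 ≤ B`, `n ≥ 2 ^ (40 (B + 1))`.
1. For `ℓ ≥ 1` write `ℓ = s t`, `s = sm P ℓ` (`P`-smooth), `t ≤ n`; the map `ℓ ↦ (s, t)` is
injective.  Hence, for a real or natural number `S₀ ≥ 1`,
`∑_{ℓ ≤ n, sm P ℓ > S₀} 1/ℓ ≤ (∑_{s smooth, s > S₀} 1/s) (∑_{t ≤ n} 1/t)
  ≤ S₀^(-1/2) (∑_{s smooth} s^(-1/2)) (1 + log n)` (finitely many `s ≤ n` occur; `1/s ≤ S₀^(-1/2) s^(-1/2)`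
for `s > S₀`; `harmonic` sum: `harmonic_le_one_add_log`).
2. `∑_{s smooth} s^(-1/2) = ∏_{p < P} (1 - p^(-1/2))⁻¹ ≤ 4 ^ B`: at most `B` primes are `≤ 2 B`
(even numbers `> 2` and `1` are not prime), and `(1 - 2^(-1/2))⁻¹ < 4`
(`EulerProduct.summable_and_hasSum_smoothNumbers_prod_primesBelow_geometric` with the completely
multiplicative function `s ↦ s^(-1/2)`; or bound the finite sum over smooth `s ≤ n` directly).
3. Take `S₀ = ⌊√(n / N)⌋ - 3` (so `N (S₀ + 3)² ≤ n`).  `N ≤ 2 ^ (B + 5)` (as `B² + 1 ≤ 2 ^ (B + 1)`), so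
`√(n / N) ≥ 8` amply and `S₀ ≥ √(n / N) - 4 ≥ (1/2) √(n / N)`, `S₀^(1/2) ≥ 2^(-1/2) (n / N)^(1/4)`.
With `1 + log n ≤ 8 n^(1/8)` it suffices that `4 B² * 8 n^(1/8) * 4 ^ B * 2^(1/2) * N^(1/4) < n^(1/4)`,
i.e. `n > (32 * 2^(1/2) * B² * 4 ^ B * N^(1/4))^8 = 2^44 B^16 2^(16 B) N²`; with `B ≤ 2 ^ (B - 1)` the
right side is at most `2 ^ (44 + 16 (B - 1) + 16 B + 2 (B + 5)) = 2 ^ (34 B + 38) < 2 ^ (40 B + 40)`.
(Any other choice of `S₀` and of the intermediate bounds is fine.)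
-/

namespace Pool.Agent.H3.SF

/-! #### numeric: helper lemmas -/

theorem num_fn_exists : ∃ f : ℕ →* ℝ, ∀ s : ℕ, f s = (Real.sqrt s)⁻¹ :=
  ⟨{ toFun := fun s => (Real.sqrt s)⁻¹
     map_one' := by simp
     map_mul' := by
      intro a b
      push_cast
      rw [Real.sqrt_mul (Nat.cast_nonneg a), mul_inv] }, fun s => rfl⟩

theorem num_primes_card (B : ℕ) : (Nat.primesBelow (2 * B + 1)).card ≤ B := by
  induction B with
  | zero =>
    have e : Nat.primesBelow (2 * 0 + 1) ⊆ ∅ := by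
      intro p hp
      rw [Nat.primesBelow, Finset.mem_filter, Finset.mem_range] at hp
      have := hp.2.two_le
      omega
    exact (Finset.card_le_card e).trans (by simp)
  | succ B ih =>
    rcases Nat.eq_zero_or_pos B with h0 | h0
    · subst h0
      have e : Nat.primesBelow (2 * (0 + 1) + 1) ⊆ {2} := by
        intro p hp
        rw [Nat.primesBelow, Finset.mem_filter, Finset.mem_range] at hp
        have := hp.2.two_le
        rw [Finset.mem_singleton]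
        omega
      exact (Finset.card_le_card e).trans (by simp)
    · have hsub : Nat.primesBelow (2 * (B + 1) + 1) ⊆
          insert (2 * B + 1) (Nat.primesBelow (2 * B + 1)) := by
        intro p hp
        rw [Nat.primesBelow, Finset.mem_filter, Finset.mem_range] at hp
        obtain ⟨h1, h2⟩ := hp
        rw [Finset.mem_insert]
        rcases Nat.lt_trichotomy p (2 * B + 1) with h | h | h
        · right
          rw [Nat.primesBelow, Finset.mem_filter, Finset.mem_range]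
          exact ⟨h, h2⟩
        · left
          exact h
        · exfalso
          have h3 : p = 2 * (B + 1) := by omega
          rw [h3] at h2
          have h4 := (Nat.Prime.eq_one_or_self_of_dvd h2 2 (Dvd.intro _ rfl))
          omega
      calc (Nat.primesBelow (2 * (B + 1) + 1)).card
          ≤ (insert (2 * B + 1) (Nat.primesBelow (2 * B + 1))).card := Finset.card_le_card hsub
        _ ≤ (Nat.primesBelow (2 * B + 1)).card + 1 := Finset.card_insert_le _ _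
        _ ≤ B + 1 := by omega

theorem num_factor (p : ℕ) (hp : p.Prime) : (Real.sqrt p)⁻¹ ≤ 3 / 4 := by
  have h2 : (2 : ℝ) ≤ p := by exact_mod_cast hp.two_le
  have h43 : (4 / 3 : ℝ) ≤ Real.sqrt p := by
    apply Real.le_sqrt_of_sq_le
    norm_num
    linarith
  have h3 : (0 : ℝ) < 4 / 3 := by norm_num
  calc (Real.sqrt p)⁻¹ ≤ (4 / 3 : ℝ)⁻¹ := by
        apply inv_anti₀ h3 h43
    _ = 3 / 4 := by norm_num

theorem num_smooth_sum (B : ℕ) (F : Finset ℕ) (hF : ∀ s ∈ F, s ∈ Nat.smoothNumbers (2 * B + 1)) :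
    ∑ s ∈ F, (Real.sqrt s)⁻¹ ≤ 4 ^ B := by
  obtain ⟨f, hf⟩ := num_fn_exists
  have hlt : ∀ {p : ℕ}, p.Prime → ‖f p‖ < 1 := by
    intro p hp
    rw [hf, Real.norm_of_nonneg (inv_nonneg.mpr (Real.sqrt_nonneg _))]
    have := num_factor p hp
    linarith
  obtain ⟨hs, hsum⟩ := EulerProduct.summable_and_hasSum_smoothNumbers_prod_primesBelow_geometric
    hlt (2 * B + 1)
  have h1 : ∑ s ∈ F, (Real.sqrt s)⁻¹ ≤ ∏ p ∈ Nat.primesBelow (2 * B + 1), (1 - f p)⁻¹ := by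
    have h2 : ∑ s ∈ F, (Real.sqrt s)⁻¹ =
        ∑ m ∈ F.subtype (fun s => s ∈ Nat.smoothNumbers (2 * B + 1)), f (m : ℕ) := by
      rw [Finset.sum_subtype_of_mem (fun s => f s) hF]
      exact Finset.sum_congr rfl (fun s _ => (hf s).symm)
    rw [h2]
    apply sum_le_hasSum _ _ hsum
    intro m _
    rw [hf]
    exact inv_nonneg.mpr (Real.sqrt_nonneg _)
  refine h1.trans ?_
  calc ∏ p ∈ Nat.primesBelow (2 * B + 1), (1 - f p)⁻¹
      ≤ ∏ p ∈ Nat.primesBelow (2 * B + 1), (4 : ℝ) := by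
        apply Finset.prod_le_prod
        · intro p hp
          have hp' := Nat.prime_of_mem_primesBelow hp
          have := num_factor p hp'
          rw [hf]
          apply inv_nonneg.mpr
          linarith
        · intro p hp
          have hp' := Nat.prime_of_mem_primesBelow hp
          have := num_factor p hp'
          rw [hf]
          have h5 : (1 / 4 : ℝ) ≤ 1 - (Real.sqrt p)⁻¹ := by linarith
          calc (1 - (Real.sqrt p)⁻¹)⁻¹ ≤ (1 / 4 : ℝ)⁻¹ := inv_anti₀ (by norm_num) h5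
            _ = 4 := by norm_num
    _ = 4 ^ (Nat.primesBelow (2 * B + 1)).card := by
        rw [Finset.prod_const]
    _ ≤ 4 ^ B := pow_le_pow_right₀ (by norm_num) (num_primes_card B)

theorem num_sm_dvd (P l : ℕ) (hl : l ≠ 0) : sm P l ∣ l := by
  unfold sm
  have h := Nat.prod_primeFactorsList hl
  conv_rhs => rw [← h]
  exact (List.filter_sublist (p := fun x => decide (x < P)) (l := l.primeFactorsList)).prod_dvd_prod

theorem num_sm_mem (P l : ℕ) : sm P l ∈ Nat.smoothNumbers P := by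
  unfold sm
  exact Nat.prod_mem_smoothNumbers l P

theorem num_sum_le (B n S : ℕ) (hS : 1 ≤ S) :
    ∑ l ∈ (Finset.Icc 2 n).filter (fun l => S < sm (2 * B + 1) l), (1 : ℝ) / l
      ≤ (Real.sqrt S)⁻¹ * 4 ^ B * (1 + Real.log n) := by
  classical
  set F : Finset ℕ := (Finset.Icc 1 n).filter (fun s => s ∈ Nat.smoothNumbers (2 * B + 1) ∧ S < s)
    with hF
  have h1 : ∑ l ∈ (Finset.Icc 2 n).filter (fun l => S < sm (2 * B + 1) l), (1 : ℝ) / l
      ≤ ∑ q ∈ F ×ˢ Finset.Icc 1 n, ((1 : ℝ) / q.1) * (1 / q.2) := by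
    have h2 : ∑ l ∈ (Finset.Icc 2 n).filter (fun l => S < sm (2 * B + 1) l), (1 : ℝ) / l
        = ∑ q ∈ ((Finset.Icc 2 n).filter (fun l => S < sm (2 * B + 1) l)).image
            (fun l => (sm (2 * B + 1) l, l / sm (2 * B + 1) l)), ((1 : ℝ) / q.1) * (1 / q.2) := by
      rw [Finset.sum_image]
      · apply Finset.sum_congr rfl
        intro l hl
        rw [Finset.mem_filter, Finset.mem_Icc] at hl
        have hd := num_sm_dvd (2 * B + 1) l (by omega)
        have he : ((sm (2 * B + 1) l : ℕ) : ℝ) * ((l / sm (2 * B + 1) l : ℕ) : ℝ) = l := by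
          exact_mod_cast Nat.mul_div_cancel' hd
        change (1 : ℝ) / l = (1 : ℝ) / ((sm (2 * B + 1) l : ℕ) : ℝ)
          * (1 / ((l / sm (2 * B + 1) l : ℕ) : ℝ))
        rw [div_mul_div_comm, one_mul, he]
      · intro a ha b hb hab
        rw [Finset.mem_coe, Finset.mem_filter, Finset.mem_Icc] at ha hb
        have hda := num_sm_dvd (2 * B + 1) a (by omega)
        have hdb := num_sm_dvd (2 * B + 1) b (by omega)
        have e1 : sm (2 * B + 1) a = sm (2 * B + 1) b := congrArg Prod.fst hab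
        have e2 : a / sm (2 * B + 1) a = b / sm (2 * B + 1) b := congrArg Prod.snd hab
        rw [← Nat.mul_div_cancel' hda, ← Nat.mul_div_cancel' hdb, e2, e1]
    rw [h2]
    apply Finset.sum_le_sum_of_subset_of_nonneg
    · intro q hq
      rw [Finset.mem_image] at hq
      obtain ⟨l, hl, rfl⟩ := hq
      rw [Finset.mem_filter, Finset.mem_Icc] at hl
      have hd := num_sm_dvd (2 * B + 1) l (by omega)
      have hle := Nat.le_of_dvd (by omega) hd
      have hpos : 0 < sm (2 * B + 1) l := by omega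
      rw [Finset.mem_product, hF, Finset.mem_filter, Finset.mem_Icc, Finset.mem_Icc]
      refine ⟨⟨⟨hpos, by change sm (2 * B + 1) l ≤ n; omega⟩, num_sm_mem _ _, hl.2⟩, ?_, ?_⟩
      · exact Nat.div_pos hle hpos
      · exact (Nat.div_le_self _ _).trans hl.1.2
    · intro q _ _
      positivity
  refine h1.trans ?_
  rw [Finset.sum_product]
  change ∑ x ∈ F, ∑ y ∈ Finset.Icc 1 n, ((1 : ℝ) / (x : ℝ)) * (1 / (y : ℝ)) ≤ _
  rw [← Finset.sum_mul_sum]
  have hS0 : (0 : ℝ) < S := by exact_mod_cast hS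
  have h3 : ∑ i ∈ F, (1 : ℝ) / i ≤ (Real.sqrt S)⁻¹ * 4 ^ B := by
    calc ∑ i ∈ F, (1 : ℝ) / i ≤ ∑ i ∈ F, (Real.sqrt S)⁻¹ * (Real.sqrt i)⁻¹ := by
          apply Finset.sum_le_sum
          intro i hi
          rw [hF, Finset.mem_filter] at hi
          have hSi : (S : ℝ) ≤ i := by exact_mod_cast hi.2.2.le
          have hi0 : (0 : ℝ) < i := lt_of_lt_of_le hS0 hSi
          have hsq : Real.sqrt S ≤ Real.sqrt i := Real.sqrt_le_sqrt hSi
          have hSp : 0 < Real.sqrt S := Real.sqrt_pos.mpr hS0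
          have hip : 0 < Real.sqrt i := Real.sqrt_pos.mpr hi0
          rw [← mul_inv, one_div]
          apply inv_anti₀ (mul_pos hSp hip)
          calc Real.sqrt S * Real.sqrt i ≤ Real.sqrt i * Real.sqrt i :=
                mul_le_mul_of_nonneg_right hsq hip.le
            _ = i := Real.mul_self_sqrt hi0.le
      _ = (Real.sqrt S)⁻¹ * ∑ i ∈ F, (Real.sqrt i)⁻¹ := by rw [Finset.mul_sum]
      _ ≤ (Real.sqrt S)⁻¹ * 4 ^ B := by
          apply mul_le_mul_of_nonneg_left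
          · apply num_smooth_sum
            intro s hs
            rw [hF, Finset.mem_filter] at hs
            exact hs.2.1
          · exact inv_nonneg.mpr (Real.sqrt_nonneg _)
  have h4 : ∑ j ∈ Finset.Icc 1 n, (1 : ℝ) / j ≤ 1 + Real.log n := by
    have := harmonic_le_one_add_log n
    rw [harmonic_eq_sum_Icc] at this
    push_cast at this
    calc ∑ j ∈ Finset.Icc 1 n, (1 : ℝ) / j = ∑ j ∈ Finset.Icc 1 n, ((j : ℝ))⁻¹ := by
          apply Finset.sum_congr rfl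
          intro j _
          rw [one_div]
      _ ≤ _ := this
  have h5 : (0 : ℝ) ≤ ∑ j ∈ Finset.Icc 1 n, (1 : ℝ) / j :=
    Finset.sum_nonneg (fun j _ => by positivity)
  exact mul_le_mul h3 h4 h5 (by positivity)

theorem num_log (n : ℕ) (hn : 1 ≤ n) :
    1 + Real.log n ≤ 8 * Real.sqrt (Real.sqrt (Real.sqrt n)) := by
  have hn0 : (0 : ℝ) < n := by exact_mod_cast hn
  set y := Real.sqrt (Real.sqrt (Real.sqrt n)) with hy
  have hy0 : 0 < y := by
    rw [hy]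
    exact Real.sqrt_pos.mpr (Real.sqrt_pos.mpr (Real.sqrt_pos.mpr hn0))
  have h8 : y ^ 8 = (n : ℝ) := by
    have e1 : y ^ 2 = Real.sqrt (Real.sqrt n) := Real.sq_sqrt (Real.sqrt_nonneg _)
    have e2 : (Real.sqrt (Real.sqrt n)) ^ 2 = Real.sqrt n := Real.sq_sqrt (Real.sqrt_nonneg _)
    have e3 : (Real.sqrt n) ^ 2 = (n : ℝ) := Real.sq_sqrt hn0.le
    calc y ^ 8 = ((y ^ 2) ^ 2) ^ 2 := by ring
      _ = (n : ℝ) := by rw [e1, e2, e3]
  have h1 : Real.log n = 8 * Real.log y := by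
    rw [← h8, Real.log_pow]
    norm_num
  have h2 := Real.log_le_sub_one_of_pos hy0
  rw [h1]
  linarith

theorem num_pow (B : ℕ) (hB : 1 ≤ B) :
    16 * (B ^ 2 + 1) * (289 * B ^ 8 * 256 ^ B * 4096) ≤ 2 ^ (17 * B + 18) := by
  have h1 : 2 * B ≤ 2 ^ B := by
    induction B with
    | zero => omega
    | succ B ih =>
      rcases Nat.eq_zero_or_pos B with h0 | h0
      · subst h0
        norm_num
      · have := ih h0
        have h2 : 2 ≤ 2 ^ B := by
          calc 2 = 2 ^ 1 := by norm_num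
            _ ≤ 2 ^ B := Nat.pow_le_pow_right (by norm_num) h0
        rw [pow_succ]
        omega
  have h2 : B ^ 2 + 1 ≤ 2 ^ (B + 1) := by
    clear h1
    induction B with
    | zero => omega
    | succ B ih =>
      rcases Nat.eq_zero_or_pos B with h0 | h0
      · subst h0
        norm_num
      · have h3 := ih h0
        rcases Nat.lt_or_ge B 3 with h4 | h4
        · interval_cases B <;> norm_num
        · have e : 2 ^ (B + 1 + 1) = 2 * 2 ^ (B + 1) := by rw [pow_succ]; ring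
          rw [e]
          nlinarith
  have h3 : (2 * B) ^ 8 ≤ (2 ^ B) ^ 8 := Nat.pow_le_pow_left h1 8
  have h4 : 256 * B ^ 8 ≤ 2 ^ (8 * B) := by
    calc 256 * B ^ 8 = (2 * B) ^ 8 := by ring
      _ ≤ (2 ^ B) ^ 8 := h3
      _ = 2 ^ (8 * B) := by rw [← pow_mul]; ring_nf
  have h5 : 256 ^ B = 2 ^ (8 * B) := by
    rw [pow_mul]
    norm_num
  have h6 : 256 * (16 * (B ^ 2 + 1) * (289 * B ^ 8 * 256 ^ B * 4096)) ≤
      256 * 2 ^ (17 * B + 18) := by
    calc 256 * (16 * (B ^ 2 + 1) * (289 * B ^ 8 * 256 ^ B * 4096))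
        = (16 * 289 * 4096) * ((B ^ 2 + 1) * (256 * B ^ 8) * 256 ^ B) := by ring
      _ ≤ (16 * 512 * 4096) * (2 ^ (B + 1) * 2 ^ (8 * B) * 2 ^ (8 * B)) := by
          apply Nat.mul_le_mul (by norm_num)
          rw [h5]
          exact Nat.mul_le_mul_right _ (Nat.mul_le_mul h2 h4)
      _ = 256 * 2 ^ (17 * B + 18) := by
          have e1 : (16 * 512 * 4096 : ℕ) = 2 ^ 25 := by norm_num
          have e2 : (256 : ℕ) = 2 ^ 8 := by norm_num
          rw [e1, e2, ← pow_add, ← pow_add, ← pow_add, ← pow_add]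
          congr 1
          ring
  exact Nat.le_of_mul_le_mul_left h6 (by norm_num)

theorem numeric (B n : ℕ) (hB : 1 ≤ B) (hn : 2 ^ (40 * (B + 1)) ≤ n) :
    ∃ S₀ : ℕ, 16 * (B ^ 2 + 1) * (S₀ + 3) ^ 2 ≤ n ∧
      4 * (B : ℝ) ^ 2 * ∑ ℓ ∈ (Finset.Icc 2 n).filter (fun ℓ => S₀ < sm (2 * B + 1) ℓ),
        (1 : ℝ) / ℓ < 1 := by
  have hn1 : 1 ≤ n := le_trans (Nat.one_le_two_pow) hn
  have hn0 : (0 : ℝ) < n := by exact_mod_cast hn1
  have hBr : (1 : ℝ) ≤ B := by exact_mod_cast hB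
  set N : ℕ := 16 * (B ^ 2 + 1) with hN
  have hNpos : 0 < N := by positivity
  set r : ℕ := Nat.sqrt (n / N) with hr
  have hr1 : r ^ 2 ≤ n / N := Nat.sqrt_le' _
  have hr2 : n / N < (r + 1) ^ 2 := Nat.lt_succ_sqrt' _
  have hr3 : N * r ^ 2 ≤ n := by
    calc N * r ^ 2 ≤ N * (n / N) := Nat.mul_le_mul_left _ hr1
      _ ≤ n := Nat.mul_div_le _ _
  have hr4 : n < N * (r + 1) ^ 2 := by
    rw [mul_comm]
    exact (Nat.div_lt_iff_lt_mul hNpos).mp hr2
  set L : ℝ := 1 + Real.log n with hL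
  have hL1 : 1 ≤ L := by
    have : 0 ≤ Real.log n := Real.log_nonneg (by exact_mod_cast hn1)
    linarith
  set y := Real.sqrt (Real.sqrt (Real.sqrt n)) with hy
  have hy0 : 0 < y := by
    rw [hy]
    exact Real.sqrt_pos.mpr (Real.sqrt_pos.mpr (Real.sqrt_pos.mpr hn0))
  have hLy : L ≤ 8 * y := num_log n hn1
  have hy4 : y ^ 4 = Real.sqrt n := by
    have e1 : y ^ 2 = Real.sqrt (Real.sqrt n) := Real.sq_sqrt (Real.sqrt_nonneg _)
    have e2 : (Real.sqrt (Real.sqrt n)) ^ 2 = Real.sqrt n := Real.sq_sqrt (Real.sqrt_nonneg _)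
    calc y ^ 4 = (y ^ 2) ^ 2 := by ring
      _ = Real.sqrt n := by rw [e1, e2]
  have hL4 : L ^ 4 ≤ 4096 * y ^ 4 := by
    calc L ^ 4 ≤ (8 * y) ^ 4 := pow_le_pow_left₀ (by linarith) hLy 4
      _ = 4096 * y ^ 4 := by ring
  have hy4' : (2 : ℝ) ^ (17 * B + 18) ≤ y ^ 4 := by
    rw [hy4]
    apply Real.le_sqrt_of_sq_le
    calc ((2 : ℝ) ^ (17 * B + 18)) ^ 2 = 2 ^ (34 * B + 36) := by rw [← pow_mul]; ring_nf
      _ ≤ 2 ^ (40 * (B + 1)) := pow_le_pow_right₀ (by norm_num) (by omega)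
      _ ≤ n := by exact_mod_cast hn
  have hy8 : y ^ 4 * y ^ 4 = n := by
    rw [hy4]
    exact Real.mul_self_sqrt hn0.le
  have hnp : ((16 * (B ^ 2 + 1) * (289 * B ^ 8 * 256 ^ B * 4096) : ℕ) : ℝ) ≤
      ((2 ^ (17 * B + 18) : ℕ) : ℝ) := by exact_mod_cast num_pow B hB
  push_cast at hnp
  have hNr : (N : ℝ) = 16 * ((B : ℝ) ^ 2 + 1) := by rw [hN]; push_cast; ring
  have hkey : (N : ℝ) * (17 * (B : ℝ) ^ 4 * 16 ^ B * L ^ 2) ^ 2 ≤ n := by
    calc (N : ℝ) * (17 * (B : ℝ) ^ 4 * 16 ^ B * L ^ 2) ^ 2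
        = (16 * ((B : ℝ) ^ 2 + 1)) * (289 * (B : ℝ) ^ 8 * 256 ^ B * L ^ 4) := by
          rw [hNr]
          have e : (256 : ℝ) ^ B = (16 ^ B) ^ 2 := by
            rw [← pow_mul, mul_comm, pow_mul]
            norm_num
          rw [e]
          ring
      _ ≤ (16 * ((B : ℝ) ^ 2 + 1)) * (289 * (B : ℝ) ^ 8 * 256 ^ B * (4096 * y ^ 4)) := by
          apply mul_le_mul_of_nonneg_left _ (by positivity)
          exact mul_le_mul_of_nonneg_left hL4 (by positivity)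
      _ = (16 * ((B : ℝ) ^ 2 + 1) * (289 * (B : ℝ) ^ 8 * 256 ^ B * 4096)) * y ^ 4 := by ring
      _ ≤ 2 ^ (17 * B + 18) * y ^ 4 := mul_le_mul_of_nonneg_right hnp (by positivity)
      _ ≤ y ^ 4 * y ^ 4 := mul_le_mul_of_nonneg_right hy4' (by positivity)
      _ = n := hy8
  set T : ℝ := 17 * (B : ℝ) ^ 4 * 16 ^ B * L ^ 2 with hT
  have hT0 : 0 ≤ T := by positivity
  have hlt : T < (r : ℝ) + 1 := by
    have h1 : (N : ℝ) * T ^ 2 < N * ((r : ℝ) + 1) ^ 2 := by
      refine lt_of_le_of_lt hkey ?_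
      exact_mod_cast hr4
    have h2 : T ^ 2 < ((r : ℝ) + 1) ^ 2 := by
      exact lt_of_mul_lt_mul_left h1 (by positivity)
    exact lt_of_pow_lt_pow_left₀ 2 (by positivity) h2
  have h16 : (16 : ℝ) ≤ 16 ^ B := by
    calc (16 : ℝ) = 16 ^ 1 := by norm_num
      _ ≤ 16 ^ B := pow_le_pow_right₀ (by norm_num) hB
  have hB4 : (1 : ℝ) ≤ (B : ℝ) ^ 4 := one_le_pow₀ hBr
  have hL2 : (1 : ℝ) ≤ L ^ 2 := one_le_pow₀ hL1
  have hU : (16 : ℝ) ≤ (B : ℝ) ^ 4 * 16 ^ B * L ^ 2 := by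
    calc (16 : ℝ) = 1 * 16 * 1 := by ring
      _ ≤ (B : ℝ) ^ 4 * 16 ^ B * L ^ 2 := by
          apply mul_le_mul (mul_le_mul hB4 h16 (by norm_num) (by positivity)) hL2 (by norm_num)
            (by positivity)
  have hTU : T = 17 * ((B : ℝ) ^ 4 * 16 ^ B * L ^ 2) := by rw [hT]; ring
  have hr5 : (4 : ℝ) < r := by linarith
  have hr6 : 4 < r := by exact_mod_cast hr5
  obtain ⟨S, hS⟩ : ∃ S : ℕ, r = S + 3 := ⟨r - 3, by omega⟩
  have hSr : (r : ℝ) = S + 3 := by rw [hS]; push_cast; ring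
  have hS1 : 1 ≤ S := by omega
  have hSbig : 16 * ((B : ℝ) ^ 4 * 16 ^ B * L ^ 2) < S := by linarith
  refine ⟨S, ?_, ?_⟩
  · rw [← hS]
    exact hr3
  · have h1 := num_sum_le B n S hS1
    have hSpos : (0 : ℝ) < S := by exact_mod_cast hS1
    have hsq : 4 * (B : ℝ) ^ 2 * 4 ^ B * L < Real.sqrt S := by
      apply Real.lt_sqrt_of_sq_lt
      calc (4 * (B : ℝ) ^ 2 * 4 ^ B * L) ^ 2 = 16 * ((B : ℝ) ^ 4 * 16 ^ B * L ^ 2) := by
            have e : (16 : ℝ) ^ B = (4 ^ B) ^ 2 := by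
              rw [← pow_mul, mul_comm, pow_mul]
              norm_num
            rw [e]
            ring
        _ < (S : ℝ) := hSbig
    have hsp : 0 < Real.sqrt S := Real.sqrt_pos.mpr hSpos
    calc 4 * (B : ℝ) ^ 2 * ∑ ℓ ∈ (Finset.Icc 2 n).filter (fun ℓ => S < sm (2 * B + 1) ℓ),
          (1 : ℝ) / ℓ
        ≤ 4 * (B : ℝ) ^ 2 * ((Real.sqrt S)⁻¹ * 4 ^ B * L) :=
          mul_le_mul_of_nonneg_left h1 (by positivity)
      _ = (4 * (B : ℝ) ^ 2 * 4 ^ B * L) * (Real.sqrt S)⁻¹ := by ring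
      _ < Real.sqrt S * (Real.sqrt S)⁻¹ :=
          mul_lt_mul_of_pos_right hsq (inv_pos.mpr hsp)
      _ = 1 := mul_inv_cancel₀ hsp.ne'

end Pool.Agent.H3.SF
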