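import Mathlib
import Pool.Agent.H3.SF.Mean
import Pool.Agent.H3.SF.Hilb

/-!
Project SF (MP_1f4fc7_nt), job SF-05.  The key lemma.

`Γ = (ι → H) × C`.  For a finset `S` of `ι` let `D_S` be the subgroup of all `(d, 1)` with
`d i ∈ D` for `i ∈ S` and `d i = 1` for `i ∉ S`; it is normal, and `A_S := avg D_S F` is `IsPR`
(`IsPR.avg`).  Put `m S := mean ((A_S)²) = mean (F * A_S)` (`mean_mul_avg`): an integer
(`IsPR.mul`, `IsPR.mean_int`), nonnegative, and `m ∅ = mean (F²) ≤ B²` (`avg_bot`, `mean_sq_le`).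
For `S ⊆ S'` (`D_S ≤ D_S'`): `m S - m S' = mean ((A_S - A_S')²) ≥ 0` (`mean_sq_sub`).

Step 1.  There is `S` with `#S ≤ B²` and `A_S = A_univ`.  Choose `S` of maximal cardinality among the
finsets with `#S + m S ≤ m ∅` (`S = ∅` is one; finitely many).  Then `#S ≤ m ∅ ≤ B²`.  For `i ∉ S`
put `S' = insert i S`.  By maximality `#S + 1 + m S' > m ∅ ≥ #S + m S`, so `m S' > m S - 1`, and
`m S' ≤ m S`, both integers: `m S' = m S`, so `A_S = A_S'` (`eq_zero_of_mean_sq`), so `A_S` is
invariant under right translation by `D_{i}` (`avg_mul_right` for `D_S'`); for `i ∈ S` this is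
clear.  So `A_S` is invariant under right translation by `D_univ` (a product of elements of the
`D_{i}`: induction, or `Pi.mulSingle` products `Finset.noncommProd`/ `Finset.univ` induction on the
set of `i` with `d i ≠ 1`), so `A_univ = avg D_univ A_S = A_S` (`avg_avg_of_le`, `avg_eq_self`).

Step 2.  Symmetry: for a permutation `σ` of `ι` and every `S`, `A_{σ(S)}(h ∘ σ⁻¹, c) = A_S (h, c)`
(reindex the sum, using `hsym`), hence `m` depends only on `#S`; so for every `S'` with
`#S' = #S` one has `m S' = m S = m univ`, so `A_S' = A_univ`, and the same for all `S'` with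
`#S ≤ #S'` (between a subset of cardinality `#S` and `univ`).

Step 3.  Let `x = (h, c)` and `S' = {i // h i ∈ R}`, and suppose `#S ≤ #S'`.  For `d ∈ D_S'` the
element `x * d` is conjugate to `x` (coordinatewise by `hRD`), so `F (x * d) = F x` (`IsPR.conj`) and
`F x = A_S' x = A_univ x` (`avg_eq_self`).

Step 4.  `G := F - A_univ` is `IsPR`, `|G| ≤ 2 B`, and `G x = 0` unless `#{i // h i ∈ R} < #S ≤ B²`.
The number of `h : ι → H` with `#{i // h i ∈ R} < B²` (or `≤ B²`) is at most
`2 ^ (B²) * ∑_h ∏_i w (h i) = 2 ^ (B²) (∑_{x ∈ H} w x) ^ N`, `w = 1/2` on `R` and `1` elsewhere, and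
`∑ w = #H - #R / 2 ≤ (7/8) #H` (`Finset.prod_univ_sum` / `Fintype.piFinset_univ`).  So
`mean (G²) ≤ 4 B² 2 ^ (B²) (7/8) ^ N < 1` for `N ≥ 16 (B² + 1)`: indeed `(7/8)^16 < 1/8`, so
`2 ^ (B²) (7/8) ^ N ≤ 2 ^ (B²) (1/8) ^ (B² + 1) = (1/8) (1/4) ^ (B²)` and
`4 B² (1/8) (1/4)^(B²) ≤ (1/2) B² / 4 ^ (B²) < 1`.  Since `mean (G²)` is an integer, it is `0`, so
`G = 0`: `F = A_univ` is invariant under `D_univ`.
-/

namespace Pool.Agent.H3.SF

section lemAaux

variable {ι H C : Type*} [Group H] [Group C]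

/-- The subgroup `D_S`. -/
def lemA_DS (C : Type*) [Group C] (D : Subgroup H) (S : Finset ι) : Subgroup ((ι → H) × C) where
  carrier := {x | (∀ i ∈ S, x.1 i ∈ D) ∧ (∀ i, i ∉ S → x.1 i = 1) ∧ x.2 = 1}
  mul_mem' := by
    rintro a b ⟨a1, a2, a3⟩ ⟨b1, b2, b3⟩
    refine ⟨fun i hi => D.mul_mem (a1 i hi) (b1 i hi), fun i hi => ?_, ?_⟩
    · show a.1 i * b.1 i = 1
      rw [a2 i hi, b2 i hi, one_mul]
    · show a.2 * b.2 = 1
      rw [a3, b3, one_mul]
  one_mem' := ⟨fun i _ => D.one_mem, fun i _ => rfl, rfl⟩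
  inv_mem' := by
    rintro a ⟨a1, a2, a3⟩
    refine ⟨fun i hi => D.inv_mem (a1 i hi), fun i hi => ?_, ?_⟩
    · show (a.1 i)⁻¹ = 1
      rw [a2 i hi, inv_one]
    · show a.2⁻¹ = 1
      rw [a3, inv_one]

theorem lemA_mem_DS {D : Subgroup H} {S : Finset ι} {x : (ι → H) × C} :
    x ∈ lemA_DS C D S ↔ (∀ i ∈ S, x.1 i ∈ D) ∧ (∀ i, i ∉ S → x.1 i = 1) ∧ x.2 = 1 := Iff.rfl

instance lemA_DS_normal (D : Subgroup H) [hD : D.Normal] (S : Finset ι) : (lemA_DS C D S).Normal where
  conj_mem := by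
    rintro a ⟨a1, a2, a3⟩ g
    refine ⟨fun i hi => hD.conj_mem _ (a1 i hi) _, fun i hi => ?_, ?_⟩
    · show g.1 i * a.1 i * (g.1 i)⁻¹ = 1
      rw [a2 i hi, mul_one, mul_inv_cancel]
    · show g.2 * a.2 * g.2⁻¹ = 1
      rw [a3, mul_one, mul_inv_cancel]

theorem lemA_DS_mono (D : Subgroup H) {S S' : Finset ι} (h : S ⊆ S') : lemA_DS C D S ≤ lemA_DS C D S' := by
  classical
  rintro x ⟨x1, x2, x3⟩
  refine ⟨fun i hi => ?_, fun i hi => x2 i fun h' => hi (h h'), x3⟩
  by_cases hS : i ∈ S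
  · exact x1 i hS
  · rw [x2 i hS]; exact D.one_mem

/-- Invariance under all `D_{i}` gives invariance under all `D_T`. -/
theorem lemA_inv [DecidableEq ι] (D : Subgroup H) (A : (ι → H) × C → ℝ)
    (h : ∀ i, ∀ d ∈ lemA_DS C D ({i} : Finset ι), ∀ x, A (x * d) = A x) (T : Finset ι) :
    ∀ d ∈ lemA_DS C D T, ∀ x, A (x * d) = A x := by
  induction T using Finset.induction_on with
  | empty =>
    rintro d ⟨_, d2, d3⟩ x
    have h1 : d = 1 := by
      refine Prod.ext (funext fun i => d2 i (Finset.notMem_empty i)) d3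
    rw [h1, mul_one]
  | insert i T hi ih =>
    rintro d ⟨d1, d2, d3⟩ x
    have e : d = ((Function.update d.1 i 1, 1) : (ι → H) × C) * (Pi.mulSingle i (d.1 i), 1) := by
      refine Prod.ext (funext fun j => ?_) ?_
      · show d.1 j = Function.update d.1 i 1 j * (Pi.mulSingle i (d.1 i) : ι → H) j
        by_cases hj : j = i
        · subst hj
          rw [Function.update_self, Pi.mulSingle_eq_same, one_mul]
        · rw [Function.update_of_ne hj, Pi.mulSingle_eq_of_ne hj, mul_one]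
      · show d.2 = 1 * 1
        rw [d3, one_mul]
    have m1 : ((Function.update d.1 i 1, 1) : (ι → H) × C) ∈ lemA_DS C D T := by
      refine ⟨fun j hj => ?_, fun j hj => ?_, rfl⟩
      · show Function.update d.1 i 1 j ∈ D
        by_cases hji : j = i
        · subst hji
          rw [Function.update_self]; exact D.one_mem
        · rw [Function.update_of_ne hji]
          exact d1 j (Finset.mem_insert_of_mem hj)
      · show Function.update d.1 i 1 j = 1
        by_cases hji : j = i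
        · subst hji
          rw [Function.update_self]
        · rw [Function.update_of_ne hji]
          exact d2 j fun h' => (Finset.mem_insert.1 h').elim hji hj
    have m2 : ((Pi.mulSingle i (d.1 i), 1) : (ι → H) × C) ∈ lemA_DS C D ({i} : Finset ι) := by
      refine ⟨fun j hj => ?_, fun j hj => ?_, rfl⟩
      · show (Pi.mulSingle i (d.1 i) : ι → H) j ∈ D
        rw [Finset.mem_singleton] at hj
        subst hj
        rw [Pi.mulSingle_eq_same]
        exact d1 j (Finset.mem_insert_self _ _)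
      · show (Pi.mulSingle i (d.1 i) : ι → H) j = 1
        rw [Finset.mem_singleton] at hj
        rw [Pi.mulSingle_eq_of_ne hj]
    rw [e, ← mul_assoc, h i _ m2, ih _ m1]

variable [Fintype ι] [DecidableEq ι] [Fintype H] [Fintype C]

/-- Symmetry of the averages. -/
theorem lemA_symm (F : (ι → H) × C → ℝ)
    (hsym : ∀ (σ : Equiv.Perm ι) (h : ι → H) (c : C), F (h ∘ σ, c) = F (h, c))
    (D : Subgroup H) (S S' : Finset ι) (σ : Equiv.Perm ι) (hσ : ∀ i, σ i ∈ S' ↔ i ∈ S)
    (x : (ι → H) × C) : avg (lemA_DS C D S) F (x.1 ∘ σ, x.2) = avg (lemA_DS C D S') F x := by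
  classical
  let e : ((ι → H) × C) ≃ ((ι → H) × C) :=
    { toFun := fun y => (y.1 ∘ σ, y.2)
      invFun := fun y => (y.1 ∘ σ.symm, y.2)
      left_inv := fun y => Prod.ext (funext fun i => by simp) rfl
      right_inv := fun y => Prod.ext (funext fun i => by simp) rfl }
  have hmem : ∀ d : (ι → H) × C, e d ∈ lemA_DS C D S ↔ d ∈ lemA_DS C D S' := by
    intro d
    constructor
    · rintro ⟨h1, h2, h3⟩
      refine ⟨fun i hi => ?_, fun i hi => ?_, h3⟩
      · have h4 := h1 (σ.symm i) ((hσ _).1 (by simpa using hi))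
        simpa [e] using h4
      · have h4 := h2 (σ.symm i) (fun h' => hi (by simpa using (hσ _).2 h'))
        simpa [e] using h4
    · rintro ⟨h1, h2, h3⟩
      exact ⟨fun i hi => h1 _ ((hσ i).2 hi), fun i hi => h2 _ (fun h' => hi ((hσ i).1 h')), h3⟩
  have hcard : Nat.card (lemA_DS C D S) = Nat.card (lemA_DS C D S') := by
    refine (Nat.card_congr (Equiv.subtypeEquiv e fun d => ?_)).symm
    exact (hmem d).symm
  unfold avg
  rw [hcard]
  congr 1
  rw [← Equiv.sum_comp e]
  refine Finset.sum_congr rfl fun d _ => ?_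
  by_cases hd : d ∈ lemA_DS C D S'
  · rw [Set.indicator_of_mem (show e d ∈ (lemA_DS C D S : Set ((ι → H) × C)) from (hmem d).2 hd),
      Set.indicator_of_mem (show d ∈ (lemA_DS C D S' : Set ((ι → H) × C)) from hd)]
    exact hsym σ (x.1 * d.1) (x.2 * d.2)
  · rw [Set.indicator_of_notMem (show e d ∉ (lemA_DS C D S : Set ((ι → H) × C)) from
      fun h' => hd ((hmem d).1 h')),
      Set.indicator_of_notMem (show d ∉ (lemA_DS C D S' : Set ((ι → H) × C)) from hd)]

/-- Step 1. -/
theorem lemA_step1 (F : (ι → H) × C → ℝ) (hF : IsPR F) (B : ℕ) (hB : ∀ x, |F x| ≤ B)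
    (D : Subgroup H) [D.Normal] : ∃ S : Finset ι, S.card ≤ B ^ 2 ∧
      ∀ x, avg (lemA_DS C D S) F x = avg (lemA_DS C D Finset.univ) F x := by
  classical
  let m : Finset ι → ℝ := fun S => mean (fun x => avg (lemA_DS C D S) F x ^ 2)
  have hint : ∀ S, ∃ z : ℤ, m S = z := by
    intro S
    have h1 := (hF.avg (lemA_DS C D S)).mul (hF.avg (lemA_DS C D S))
    obtain ⟨z, hz⟩ := h1.mean_int
    refine ⟨z, ?_⟩
    rw [← hz]
    simp only [m, sq]
  have hm0 : m ∅ ≤ (B : ℝ) ^ 2 := mean_sq_le fun g => abs_avg_le _ hB g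
  have hmnn : ∀ S, 0 ≤ m S := fun S => mean_sq_nonneg _
  obtain ⟨S, hS, hmax⟩ := Finset.exists_max_image
    (Finset.univ.filter fun S : Finset ι => (S.card : ℝ) + m S ≤ m ∅) Finset.card
    ⟨∅, by simp⟩
  rw [Finset.mem_filter] at hS
  have hS2 := hS.2
  refine ⟨S, ?_, ?_⟩
  · have h1 : (S.card : ℝ) ≤ (B : ℝ) ^ 2 := by linarith [hmnn S]
    exact_mod_cast h1
  -- invariance
  have hinv1 : ∀ i, ∀ d ∈ lemA_DS C D ({i} : Finset ι), ∀ x,
      avg (lemA_DS C D S) F (x * d) = avg (lemA_DS C D S) F x := by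
    intro i d hd x
    by_cases hi : i ∈ S
    · exact avg_mul_right _ F x (lemA_DS_mono D (Finset.singleton_subset_iff.2 hi) hd)
    · have hle : lemA_DS C D S ≤ lemA_DS C D (insert i S) := lemA_DS_mono D (Finset.subset_insert i S)
      have h1 : m ∅ < ((insert i S).card : ℝ) + m (insert i S) := by
        by_contra hcon
        rw [not_lt] at hcon
        have h2 := hmax (insert i S) (by rw [Finset.mem_filter]; exact ⟨Finset.mem_univ _, hcon⟩)
        rw [Finset.card_insert_of_notMem hi] at h2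
        omega
      rw [Finset.card_insert_of_notMem hi] at h1
      push_cast at h1
      have h3 := mean_sq_sub hle F
      have h4 := mean_sq_nonneg (fun x => avg (lemA_DS C D S) F x - avg (lemA_DS C D (insert i S)) F x)
      rw [h3] at h4
      have h4' : m (insert i S) ≤ m S := by
        show mean _ ≤ mean _
        linarith
      obtain ⟨z, hz⟩ := hint S
      obtain ⟨z', hz'⟩ := hint (insert i S)
      have h5 : (z : ℝ) < z' + 1 := by rw [← hz, ← hz']; linarith
      have h6 : z < z' + 1 := by exact_mod_cast h5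
      have h7 : (z' : ℝ) ≤ z := by rw [← hz, ← hz']; exact h4'
      have h8 : z' ≤ z := by exact_mod_cast h7
      have h9 : z' = z := by omega
      have h10 : m (insert i S) = m S := by rw [hz, hz', h9]
      have h11 : mean (fun x => (avg (lemA_DS C D S) F x - avg (lemA_DS C D (insert i S)) F x) ^ 2) = 0 := by
        rw [h3]
        show m S - m (insert i S) = 0
        rw [h10, sub_self]
      have h12 : ∀ x, avg (lemA_DS C D S) F x = avg (lemA_DS C D (insert i S)) F x := by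
        intro x
        have := eq_zero_of_mean_sq h11 x
        linarith
      rw [h12, h12]
      exact avg_mul_right _ F x (lemA_DS_mono D (Finset.singleton_subset_iff.2 (Finset.mem_insert_self i S)) hd)
  have hinv := lemA_inv D (fun x => avg (lemA_DS C D S) F x) hinv1 Finset.univ
  intro x
  rw [← avg_avg_of_le (lemA_DS_mono D (Finset.subset_univ S)) F]
  exact (avg_eq_self (lemA_DS C D Finset.univ) (avg (lemA_DS C D S) F) x fun d hd => hinv d hd x).symm

/-- The numerical estimate. -/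
theorem lemA_num (b N : ℕ) (hN : 16 * (b + 1) ≤ N) : 4 * (b : ℝ) * 2 ^ b * (7 / 8 : ℝ) ^ N < 1 := by
  have h1 : (7 / 8 : ℝ) ^ N ≤ (1 / 8 : ℝ) ^ (b + 1) := by
    calc (7 / 8 : ℝ) ^ N ≤ (7 / 8 : ℝ) ^ (16 * (b + 1)) :=
          pow_le_pow_of_le_one (by norm_num) (by norm_num) hN
      _ = ((7 / 8 : ℝ) ^ 16) ^ (b + 1) := by rw [pow_mul]
      _ ≤ (1 / 8 : ℝ) ^ (b + 1) := by
          apply pow_le_pow_left₀ (by norm_num)
          norm_num
  have h2 : (b : ℝ) ≤ 4 ^ b := by
    have : b < 4 ^ b := Nat.lt_pow_self (by norm_num)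
    exact_mod_cast this.le
  have h4 : (0 : ℝ) < 4 ^ b := by positivity
  have h3 : 4 * (b : ℝ) * 2 ^ b * (1 / 8 : ℝ) ^ (b + 1) = (1 / 2) * ((b : ℝ) / 4 ^ b) := by
    rw [pow_succ, div_pow, one_pow, show (8 : ℝ) = 2 * 4 by norm_num, mul_pow]
    field_simp
  calc 4 * (b : ℝ) * 2 ^ b * (7 / 8 : ℝ) ^ N ≤ 4 * (b : ℝ) * 2 ^ b * (1 / 8 : ℝ) ^ (b + 1) :=
        mul_le_mul_of_nonneg_left h1 (by positivity)
    _ = (1 / 2) * ((b : ℝ) / 4 ^ b) := h3
    _ ≤ (1 / 2) * 1 := by
        apply mul_le_mul_of_nonneg_left _ (by norm_num)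
        rw [div_le_one h4]
        exact h2
    _ < 1 := by norm_num

/-- The weighted count. -/
theorem lemA_count (R : Set H) (hR : Nat.card H ≤ 4 * Nat.card R) (w : H → ℝ)
    (hw : ∀ y, (y ∈ R → w y = 1 / 2) ∧ (y ∉ R → w y = 1)) :
    ∑ x : (ι → H) × C, ∏ i, w (x.1 i) ≤
      (7 / 8 : ℝ) ^ Fintype.card ι * Fintype.card ((ι → H) × C) := by
  classical
  have h1 : ∑ x : (ι → H) × C, ∏ i, w (x.1 i) = (∑ y, w y) ^ Fintype.card ι * Fintype.card C := by
    rw [Fintype.sum_prod_type]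
    simp only [Finset.sum_const, Finset.card_univ, nsmul_eq_mul]
    rw [← Finset.mul_sum, mul_comm]
    congr 1
    have h2 := Finset.prod_univ_sum (fun _ : ι => (Finset.univ : Finset H)) (fun _ y => w y)
    rw [Fintype.piFinset_univ] at h2
    rw [← h2, Finset.prod_const, Finset.card_univ]
  have h3 : ∑ y, w y ≤ (7 / 8) * (Fintype.card H : ℝ) := by
    have h4 : ∀ y, w y = 1 - (if y ∈ R then 1 / 2 else 0) := by
      intro y
      by_cases hy : y ∈ R
      · rw [(hw y).1 hy, if_pos hy]; norm_num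
      · rw [(hw y).2 hy, if_neg hy]; norm_num
    have h5 : ∑ y, w y = (Fintype.card H : ℝ) - (Nat.card R : ℝ) / 2 := by
      rw [Finset.sum_congr rfl fun y _ => h4 y, Finset.sum_sub_distrib, Finset.sum_const, Finset.card_univ,
        nsmul_eq_mul, mul_one, ← Finset.sum_filter, Finset.sum_const, nsmul_eq_mul]
      have h6 : Nat.card R = (Finset.univ.filter fun y => y ∈ R).card := by
        rw [Nat.card_eq_fintype_card, Fintype.card_subtype]
      rw [h6]
      ring
    have h7 : (Fintype.card H : ℝ) ≤ 4 * (Nat.card R : ℝ) := by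
      rw [Nat.card_eq_fintype_card] at hR
      exact_mod_cast hR
    rw [h5]
    linarith
  have h0 : 0 ≤ ∑ y, w y := by
    apply Finset.sum_nonneg
    intro y _
    by_cases hy : y ∈ R
    · rw [(hw y).1 hy]; norm_num
    · rw [(hw y).2 hy]; norm_num
  rw [h1, Fintype.card_prod, Fintype.card_fun]
  push_cast
  calc (∑ y, w y) ^ Fintype.card ι * (Fintype.card C : ℝ)
      ≤ ((7 / 8) * (Fintype.card H : ℝ)) ^ Fintype.card ι * (Fintype.card C : ℝ) := by
        apply mul_le_mul_of_nonneg_right _ (by positivity)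
        exact pow_le_pow_left₀ h0 h3 _
    _ = (7 / 8 : ℝ) ^ Fintype.card ι * ((Fintype.card H : ℝ) ^ Fintype.card ι * Fintype.card C) := by
        rw [mul_pow]; ring

end lemAaux

theorem lemA {ι H C : Type*} [Fintype ι] [DecidableEq ι] [Group H] [Fintype H] [Group C]
    [Fintype C] (F : (ι → H) × C → ℝ) (hF : IsPR F) (B : ℕ) (hB : ∀ x, |F x| ≤ B)
    (hsym : ∀ (σ : Equiv.Perm ι) (h : ι → H) (c : C), F (h ∘ σ, c) = F (h, c))
    (D : Subgroup H) [D.Normal] (R : Set H) (hR : Nat.card H ≤ 4 * Nat.card R)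
    (hRD : ∀ x ∈ R, ∀ d ∈ D, ∃ u : H, u * x * u⁻¹ = x * d)
    (hN : 16 * (B ^ 2 + 1) ≤ Fintype.card ι) (h d : ι → H) (hd : ∀ i, d i ∈ D) (c : C) :
    F (fun i => h i * d i, c) = F (h, c) := by
  classical
  obtain ⟨S, hScard, hS⟩ := lemA_step1 F hF B hB D
  -- Step 2
  have step2 : ∀ S' : Finset ι, S'.card = S.card → ∀ x,
      avg (lemA_DS C D S') F x = avg (lemA_DS C D Finset.univ) F x := by
    intro S' hS' x
    have e0 : {i // i ∈ S} ≃ {i // i ∈ S'} := by
      apply Fintype.equivOfCardEq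
      simp [hS']
    have hσ : ∀ i, e0.extendSubtype i ∈ S' ↔ i ∈ S := by
      intro i
      constructor
      · intro h1
        by_contra h2
        exact e0.extendSubtype_not_mem i h2 h1
      · intro h1
        exact e0.extendSubtype_mem i h1
    rw [← lemA_symm F hsym D S S' e0.extendSubtype hσ x, hS,
      lemA_symm F hsym D Finset.univ Finset.univ e0.extendSubtype (fun i => by simp) x]
  -- Step 3
  have step3 : ∀ x : (ι → H) × C, S.card ≤ (Finset.univ.filter fun i => x.1 i ∈ R).card →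
      F x = avg (lemA_DS C D Finset.univ) F x := by
    intro x hx
    obtain ⟨S', hS'1, hS'2⟩ := Finset.exists_subset_card_eq hx
    rw [← step2 S' hS'2 x]
    symm
    apply avg_eq_self
    rintro δ ⟨d1, d2, d3⟩
    have hu : ∀ i, ∃ u : H, u * x.1 i * u⁻¹ = x.1 i * δ.1 i := by
      intro i
      by_cases hi : i ∈ S'
      · exact hRD _ (Finset.mem_filter.1 (hS'1 hi)).2 _ (d1 i hi)
      · exact ⟨1, by rw [d2 i hi]; simp⟩
    choose u hu using hu
    have h1 : x * δ = ((u, 1) : (ι → H) × C) * x * ((u, 1) : (ι → H) × C)⁻¹ := by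
      refine Prod.ext (funext fun i => ?_) ?_
      · show x.1 i * δ.1 i = u i * x.1 i * (u i)⁻¹
        rw [hu i]
      · show x.2 * δ.2 = 1 * x.2 * 1⁻¹
        rw [d3]; simp
    rw [h1, hF.conj]
  -- Step 4
  have hG : IsPR (fun x => F x - avg (lemA_DS C D Finset.univ) F x) := hF.sub (hF.avg _)
  obtain ⟨z, hz⟩ := (hG.mul hG).mean_int
  let w : H → ℝ := fun y => if y ∈ R then 1 / 2 else 1
  have hw : ∀ y, (y ∈ R → w y = 1 / 2) ∧ (y ∉ R → w y = 1) :=
    fun y => ⟨fun hy => if_pos hy, fun hy => if_neg hy⟩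
  have hw0 : ∀ y, 0 ≤ w y := by
    intro y
    by_cases hy : y ∈ R
    · rw [(hw y).1 hy]; norm_num
    · rw [(hw y).2 hy]
      norm_num
  have hprod : ∀ x : (ι → H) × C, ∏ i, w (x.1 i) = (1 / 2 : ℝ) ^ (Finset.univ.filter fun i => x.1 i ∈ R).card := by
    intro x
    rw [Finset.prod_ite, Finset.prod_const, Finset.prod_const_one, mul_one]
  have hbd : ∀ x : (ι → H) × C, (F x - avg (lemA_DS C D Finset.univ) F x) *
      (F x - avg (lemA_DS C D Finset.univ) F x) ≤ 4 * (B : ℝ) ^ 2 * 2 ^ (B ^ 2) * ∏ i, w (x.1 i) := by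
    intro x
    by_cases hx : S.card ≤ (Finset.univ.filter fun i => x.1 i ∈ R).card
    · rw [← step3 x hx, sub_self, zero_mul]
      have := Finset.prod_nonneg (s := Finset.univ) (f := fun i => w (x.1 i)) fun i _ => hw0 _
      positivity
    · rw [not_le] at hx
      have h1 : |F x - avg (lemA_DS C D Finset.univ) F x| ≤ 2 * B := by
        calc |F x - avg (lemA_DS C D Finset.univ) F x| ≤ |F x| + |avg (lemA_DS C D Finset.univ) F x| :=
              abs_sub _ _
          _ ≤ B + B := add_le_add (hB x) (abs_avg_le _ hB x)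
          _ = 2 * B := by ring
      have h2 : (F x - avg (lemA_DS C D Finset.univ) F x) * (F x - avg (lemA_DS C D Finset.univ) F x) ≤
          4 * (B : ℝ) ^ 2 := by
        rw [← abs_mul_abs_self]
        calc |F x - avg (lemA_DS C D Finset.univ) F x| * |F x - avg (lemA_DS C D Finset.univ) F x|
            ≤ (2 * B) * (2 * B) := mul_le_mul h1 h1 (abs_nonneg _) (by positivity)
          _ = 4 * (B : ℝ) ^ 2 := by ring
      have h3 : (1 : ℝ) ≤ 2 ^ (B ^ 2) * ∏ i, w (x.1 i) := by
        rw [hprod]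
        have h4 : (1 / 2 : ℝ) ^ (B ^ 2) ≤ (1 / 2 : ℝ) ^ (Finset.univ.filter fun i => x.1 i ∈ R).card :=
          pow_le_pow_of_le_one (by norm_num) (by norm_num) (by omega)
        calc (1 : ℝ) = 2 ^ (B ^ 2) * (1 / 2 : ℝ) ^ (B ^ 2) := by
              rw [← mul_pow]; norm_num
          _ ≤ _ := mul_le_mul_of_nonneg_left h4 (by positivity)
      calc (F x - avg (lemA_DS C D Finset.univ) F x) * (F x - avg (lemA_DS C D Finset.univ) F x)
          ≤ 4 * (B : ℝ) ^ 2 * 1 := by rw [mul_one]; exact h2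
        _ ≤ 4 * (B : ℝ) ^ 2 * (2 ^ (B ^ 2) * ∏ i, w (x.1 i)) :=
            mul_le_mul_of_nonneg_left h3 (by positivity)
        _ = _ := by ring
  have hcardpos : (0 : ℝ) < Fintype.card ((ι → H) × C) := by exact_mod_cast Fintype.card_pos
  have hlt : mean (fun x => (F x - avg (lemA_DS C D Finset.univ) F x) *
      (F x - avg (lemA_DS C D Finset.univ) F x)) < 1 := by
    unfold mean
    rw [div_lt_one hcardpos]
    have h1 := lemA_num (B ^ 2) (Fintype.card ι) hN
    calc ∑ x : (ι → H) × C, (F x - avg (lemA_DS C D Finset.univ) F x) *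
          (F x - avg (lemA_DS C D Finset.univ) F x)
        ≤ ∑ x : (ι → H) × C, 4 * (B : ℝ) ^ 2 * 2 ^ (B ^ 2) * ∏ i, w (x.1 i) :=
          Finset.sum_le_sum fun x _ => hbd x
      _ = 4 * (B : ℝ) ^ 2 * 2 ^ (B ^ 2) * ∑ x : (ι → H) × C, ∏ i, w (x.1 i) := by rw [Finset.mul_sum]
      _ ≤ 4 * (B : ℝ) ^ 2 * 2 ^ (B ^ 2) * ((7 / 8 : ℝ) ^ Fintype.card ι * Fintype.card ((ι → H) × C)) :=
          mul_le_mul_of_nonneg_left (lemA_count R hR w hw) (by positivity)
      _ = (4 * ((B ^ 2 : ℕ) : ℝ) * 2 ^ (B ^ 2) * (7 / 8 : ℝ) ^ Fintype.card ι) *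
            Fintype.card ((ι → H) × C) := by push_cast; ring
      _ < 1 * Fintype.card ((ι → H) × C) := mul_lt_mul_of_pos_right h1 hcardpos
      _ = _ := one_mul _
  have h0le : 0 ≤ mean (fun x => (F x - avg (lemA_DS C D Finset.univ) F x) *
      (F x - avg (lemA_DS C D Finset.univ) F x)) := by
    have := mean_sq_nonneg (fun x => F x - avg (lemA_DS C D Finset.univ) F x)
    simpa only [sq] using this
  have hz0 : z = 0 := by
    rw [hz] at hlt h0le
    have h1 : z < 1 := by exact_mod_cast hlt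
    have h2 : 0 ≤ z := by exact_mod_cast h0le
    omega
  have hmean : mean (fun x => (F x - avg (lemA_DS C D Finset.univ) F x) ^ 2) = 0 := by
    simp only [sq]
    rw [hz, hz0]
    simp
  have hfin : ∀ x, F x = avg (lemA_DS C D Finset.univ) F x := by
    intro x
    have := eq_zero_of_mean_sq hmean x
    linarith
  have hmul : ((fun i => h i * d i, c) : (ι → H) × C) = (h, c) * (d, 1) := by
    refine Prod.ext rfl ?_
    show c = c * 1
    rw [mul_one]
  rw [hmul, hfin, hfin (h, c)]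
  exact avg_mul_right _ F _ ⟨fun i _ => hd i, fun i hi => absurd (Finset.mem_univ i) hi, rfl⟩

end Pool.Agent.H3.SF
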