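import Mathlib

/-!
Project SF (MP_1f4fc7_nt), job SF-06.  The wreath product `G ≀ᵣ ℤˣ` (order `2 #G²`).

`D := {x // x.right = 1 ∧ χ (x.left 1) * χ (x.left (-1)) = 1}` is a normal subgroup (`A` is
commutative).  `R := {x // x.right = -1 ∧ x.left 1 * x.left (-1) ∈ R₀}`.
Cardinalities: `#(G ≀ᵣ ℤˣ) = 2 #G²` (`RegularWreathProduct.card`) and `#R = #G * #R₀` (choose
`x.left 1` freely and `p = x.left 1 * x.left (-1)` in `R₀`), so `4 #R ≥ 2 #G²`.
Conjugation: for `x = ⟨f, -1⟩ ∈ R` and `d = ⟨g, 1⟩ ∈ D`, `x * d = ⟨f', -1⟩` with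
`f' k = f k * g (-k)`, so `p' := f' 1 * f' (-1) = f 1 * g (-1) * f (-1) * g 1` has
`χ p' = χ (f 1 * f (-1))`; by `hconj` there is `v` with `p' = v * (f 1 * f (-1)) * v⁻¹`.  Put
`u := ⟨fun k => if k = 1 then v else (f' 1)⁻¹ * v * f 1, 1⟩`.  Then
`u * x * u⁻¹ = ⟨fun k => u k * f k * (u (-k))⁻¹, -1⟩`, whose value at `1` is
`v * f 1 * (f 1)⁻¹ * v⁻¹ * f' 1 = f' 1`, and at `-1` is
`(f' 1)⁻¹ * v * f 1 * f (-1) * v⁻¹ = (f' 1)⁻¹ * p' = f' (-1)`.
-/

namespace Pool.Agent.H3.SF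

open RegularWreathProduct

/-- The normal subgroup of the base group. -/
def wrD {G A : Type*} [Group G] [CommGroup A] (χ : G →* A) : Subgroup (G ≀ᵣ ℤˣ) where
  carrier := {x | x.right = 1 ∧ χ (x.left 1) * χ (x.left (-1)) = 1}
  one_mem' := by simp
  mul_mem' := by
    rintro x y ⟨hx, hx'⟩ ⟨hy, hy'⟩
    refine ⟨by simp [hx, hy], ?_⟩
    simp only [mul_left, Pi.mul_apply, hx, inv_one, one_mul, map_mul]
    calc χ (x.left 1) * χ (y.left 1) * (χ (x.left (-1)) * χ (y.left (-1)))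
        = (χ (x.left 1) * χ (x.left (-1))) * (χ (y.left 1) * χ (y.left (-1))) := by
          rw [mul_mul_mul_comm]
      _ = 1 := by rw [hx', hy', one_mul]
  inv_mem' := by
    rintro x ⟨hx, hx'⟩
    refine ⟨by simp [hx], ?_⟩
    simp only [inv_left, Pi.inv_apply, hx, one_mul, map_inv]
    rw [← mul_inv, hx', inv_one]

theorem mem_wrD {G A : Type*} [Group G] [CommGroup A] {χ : G →* A} {x : G ≀ᵣ ℤˣ} :
    x ∈ wrD χ ↔ x.right = 1 ∧ χ (x.left 1) * χ (x.left (-1)) = 1 := Iff.rfl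

theorem wr_conj_left {G : Type*} [Group G] (g x : G ≀ᵣ ℤˣ) (hx : x.right = 1) (k : ℤˣ) :
    (g * x * g⁻¹).left k = g.left k * x.left (g.right⁻¹ * k) * (g.left k)⁻¹ := by
  rcases Int.units_eq_one_or g.right with h | h <;> simp [hx, h]

theorem wrD_normal {G A : Type*} [Group G] [CommGroup A] (χ : G →* A) : (wrD χ).Normal := by
  refine ⟨fun x hx g => ?_⟩
  obtain ⟨h1, h2⟩ := mem_wrD.1 hx
  rw [mem_wrD]
  refine ⟨by simp [h1], ?_⟩
  rw [wr_conj_left g x h1, wr_conj_left g x h1]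
  have h3 : ∀ a b : G, χ (a * b * a⁻¹) = χ b := fun a b => by
    rw [map_mul, map_mul, map_inv, mul_comm (χ a), mul_assoc, mul_inv_cancel, mul_one]
  rw [h3, h3]
  rcases Int.units_eq_one_or g.right with h4 | h4
  · simpa [h4] using h2
  · rw [h4]
    have h5 : ((-1 : ℤˣ)⁻¹ * 1) = -1 := by decide
    have h6 : ((-1 : ℤˣ)⁻¹ * -1) = 1 := by decide
    rw [h5, h6, mul_comm]
    exact h2

theorem wr_card {G : Type*} [Group G] [Finite G] (R₀ : Set G) (h2 : Nat.card G ≤ 2 * Nat.card R₀) :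
    Nat.card (G ≀ᵣ ℤˣ) ≤
      4 * Nat.card {x : G ≀ᵣ ℤˣ | x.right = -1 ∧ x.left 1 * x.left (-1) ∈ R₀} := by
  have hinj : Nat.card (G × R₀) ≤
      Nat.card {x : G ≀ᵣ ℤˣ | x.right = -1 ∧ x.left 1 * x.left (-1) ∈ R₀} := by
    refine Nat.card_le_card_of_injective (fun q : G × R₀ =>
      (⟨⟨fun k => if k = 1 then q.1 else q.1⁻¹ * q.2.1, -1⟩, ?_⟩ :
        {x : G ≀ᵣ ℤˣ | x.right = -1 ∧ x.left 1 * x.left (-1) ∈ R₀})) ?_
    · refine ⟨rfl, ?_⟩
      have h1 : ¬ ((-1 : ℤˣ) = 1) := by decide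
      simp only [if_true, if_neg h1, mul_inv_cancel_left]
      exact q.2.2
    · intro q q' hq
      have h1 : ¬ ((-1 : ℤˣ) = 1) := by decide
      have h3 := congrArg (fun z => (Subtype.val z).left) hq
      have h4 : q.1 = q'.1 := by simpa using congrFun h3 1
      have h5 : q.1⁻¹ * q.2.1 = q'.1⁻¹ * q'.2.1 := by simpa [h1] using congrFun h3 (-1)
      rw [h4] at h5
      exact Prod.ext h4 (Subtype.ext (mul_left_cancel h5))
  rw [Nat.card_prod] at hinj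
  have h3 : Nat.card (G ≀ᵣ ℤˣ) = Nat.card G ^ 2 * 2 := by
    rw [RegularWreathProduct.card]
    simp
  rw [h3]
  have h4 := Nat.mul_le_mul_left (Nat.card G) h2
  nlinarith

theorem wreath_data {G A : Type*} [Group G] [Finite G] [CommGroup A] (χ : G →* A) (R₀ : Set G)
    (h2 : Nat.card G ≤ 2 * Nat.card R₀)
    (hconj : ∀ p ∈ R₀, ∀ p', χ p' = χ p → IsConj p p') :
    ∃ (D : Subgroup (G ≀ᵣ ℤˣ)) (_ : D.Normal) (R : Set (G ≀ᵣ ℤˣ)),
      Nat.card (G ≀ᵣ ℤˣ) ≤ 4 * Nat.card R ∧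
      (∀ x ∈ R, ∀ d ∈ D, ∃ u, u * x * u⁻¹ = x * d) ∧
      ∀ x : G ≀ᵣ ℤˣ, x ∈ D ↔ x.right = 1 ∧ χ (x.left 1) * χ (x.left (-1)) = 1 := by
  refine ⟨wrD χ, wrD_normal χ, {x | x.right = -1 ∧ x.left 1 * x.left (-1) ∈ R₀},
    wr_card R₀ h2, ?_, fun x => Iff.rfl⟩
  rintro x ⟨hx1, hx2⟩ d hd
  obtain ⟨hd1, hd2⟩ := mem_wrD.1 hd
  have e1 : ((-1 : ℤˣ)⁻¹ * 1) = -1 := by decide
  have e2 : ((-1 : ℤˣ)⁻¹ * -1) = 1 := by decide
  have hne : ¬ ((-1 : ℤˣ) = 1) := by decide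
  have hl1 : (x * d).left 1 = x.left 1 * d.left (-1) := by
    rw [mul_left, Pi.mul_apply, hx1, e1]
  have hl2 : (x * d).left (-1) = x.left (-1) * d.left 1 := by
    rw [mul_left, Pi.mul_apply, hx1, e2]
  have hχ : χ ((x * d).left 1 * (x * d).left (-1)) = χ (x.left 1 * x.left (-1)) := by
    rw [hl1, hl2, map_mul, map_mul, map_mul, map_mul, mul_mul_mul_comm, mul_comm (χ (d.left (-1))),
      hd2, mul_one]
  obtain ⟨v, hv⟩ := isConj_iff.1 (hconj _ hx2 _ hχ)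
  refine ⟨⟨fun k => if k = 1 then v else ((x * d).left 1)⁻¹ * v * x.left 1, 1⟩, ?_⟩
  have hk : ∀ (u : G ≀ᵣ ℤˣ), u.right = 1 → ∀ k : ℤˣ,
      (u * x * u⁻¹).left k = u.left k * x.left k * (u.left (-1 * k))⁻¹ := by
    intro u hu k
    have h3 : ((-1 : ℤˣ)⁻¹) = -1 := by decide
    simp only [mul_left, Pi.mul_apply, mul_right, inv_left, Pi.inv_apply, hu, hx1, one_mul, inv_one, h3]
  refine RegularWreathProduct.ext ?_ ?_
  · funext k
    rw [hk _ rfl]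
    rcases Int.units_eq_one_or k with rfl | rfl
    · simp only [if_true, mul_one, if_neg hne]
      group
    · have e3 : (-1 : ℤˣ) * -1 = 1 := by decide
      simp only [e3, if_true, if_neg hne]
      have h4 : (x * d).left (-1) = ((x * d).left 1)⁻¹ * (v * (x.left 1 * x.left (-1)) * v⁻¹) := by
        rw [hv]
        group
      rw [h4]
      group
  · simp [hd1]

end Pool.Agent.H3.SF
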