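import Mathlib
import Pool.Agent.H3.SF.LemA
import Pool.Agent.H3.SF.Wreath
import Pool.Agent.H3.SF.Dih
import Pool.Agent.H3.SF.Block

/-!
Project SF (MP_1f4fc7_nt), job SF-09.  The three moves.

Take `G, χ, R₀, ψ` from `dih_data m`, `D, R` from `wreath_data χ R₀`, `N = 16 (B² + 1)`,
`φ` from `block_hom m N n ψ`, and `F := θ ∘ φ` (`IsPR.comp`), which is symmetric because `θ` is a class
function (`IsPR.conj`, first property of `φ`).  `lemA` says: `F (h * d, c) = F (h, c)` for
`d i ∈ D`.  There is a permutation `c` of `Fin (n - 2 m N)` with cycle type `T` because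
`T.sum ≤ n - 2 m N` (`Equiv.Perm.exists_with_cycleType_iff`).  Two permutations of `Fin n` with the
same cycle type are conjugate (`Equiv.Perm.isConj_iff_cycleType_eq`), so `θ g` depends only on the
cycle type.
1. `f i = (g₀, g₀)` (constant in `q`) for the first `j` indices `i` and `1` for the others,
   compared with `1`: `d i = ⟨f i, 1⟩ ∈ D` because `χ g₀ * χ g₀ = 1` in `ℤˣ × ℤˣ`.
   The cycle type is `2 j • {m} + T`.
2. `m` odd: `f i₀ = (g₁, 1)` with `χ g₁ = 1`, `f i = 1` for `i ≠ i₀`, compared with `1`.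
3. `m` even: `f i₀ = (g, 1)` compared with `f' i₀ = (s, s')`; `f'⁻¹ f` is in `D` since
   `χ g = χ s * χ s'`; the second has cycle type
   `replicate (m/2 - 1) 2 + replicate (m/2) 2 + T = replicate (m - 1) 2 + T`.
(`N ≥ 1`.  `ℤˣ = {1, -1}`: `Fintype.sum` over `ℤˣ` by `Int.univ_unit` / `decide`.)
-/

namespace Pool.Agent.H3.SF

theorem moves {n : ℕ} (θ : Equiv.Perm (Fin n) → ℝ) (hθ : IsPR θ) (B : ℕ) (hB : ∀ g, |θ g| ≤ B)
    (m : ℕ) (hm : 2 ≤ m) (T : Multiset ℕ) (hT : ∀ x ∈ T, 2 ≤ x)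
    (hn : 2 * m * (16 * (B ^ 2 + 1)) + T.sum ≤ n) :
    (∀ j ≤ 16 * (B ^ 2 + 1), ∀ g g' : Equiv.Perm (Fin n),
      g.cycleType = T + Multiset.replicate (2 * j) m → g'.cycleType = T → θ g = θ g') ∧
    (Odd m → ∀ g g' : Equiv.Perm (Fin n), g.cycleType = T + {m} → g'.cycleType = T →
      θ g = θ g') ∧
    (Even m → ∀ g g' : Equiv.Perm (Fin n), g.cycleType = T + {m} →
      g'.cycleType = T + Multiset.replicate (m - 1) 2 → θ g = θ g') := by
  classical
  obtain ⟨N, hN⟩ : ∃ N, N = 16 * (B ^ 2 + 1) := ⟨_, rfl⟩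
  rw [← hN] at hn ⊢
  have hNpos : 0 < N := by rw [hN]; positivity
  obtain ⟨G, iG, iF, χ, R₀, ψ, hcard, hconj, ha, hb, hc⟩ := dih_data m hm
  obtain ⟨D, hDn, R, hR4, hRD, hDmem⟩ := wreath_data χ R₀ hcard hconj
  obtain ⟨φ, hφ1, hφ2⟩ := block_hom m N n ψ (by omega)
  have iW : Finite (G ≀ᵣ ℤˣ) := inferInstance
  have iFW : Fintype (G ≀ᵣ ℤˣ) := Fintype.ofFinite _
  have key : ∀ x y : Equiv.Perm (Fin n), IsConj x y → θ x = θ y := by
    intro x y hxy
    obtain ⟨c, hc⟩ := isConj_iff.1 hxy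
    rw [← hc]
    exact (hθ.conj c x).symm
  have key' : ∀ x y : Equiv.Perm (Fin n), x.cycleType = y.cycleType → θ x = θ y := fun x y h =>
    key x y (Equiv.Perm.isConj_iff_cycleType_eq.2 h)
  obtain ⟨c, hcT⟩ : ∃ c : Equiv.Perm (Fin (n - 2 * m * N)), c.cycleType = T := by
    rw [Equiv.Perm.exists_with_cycleType_iff]
    refine ⟨?_, hT⟩
    rw [Fintype.card_fin]
    omega
  have master : ∀ (f f' : Fin N → ℤˣ → G),
      (∀ i, χ (f i 1) * χ (f i (-1)) = χ (f' i 1) * χ (f' i (-1))) →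
      ∀ g g' : Equiv.Perm (Fin n),
      g.cycleType = (∑ i, ∑ q : ℤˣ, (ψ (f i q)).cycleType) + T →
      g'.cycleType = (∑ i, ∑ q : ℤˣ, (ψ (f' i q)).cycleType) + T → θ g = θ g' := by
    intro f f' hff g g' hg hg'
    have h1 := lemA (fun x : (Fin N → G ≀ᵣ ℤˣ) × Equiv.Perm (Fin (n - 2 * m * N)) => θ (φ x))
      (hθ.comp φ) B (fun x => hB _) (fun σ h c => key _ _ (hφ1 σ h c)) D R hR4 hRD
      (by rw [Fintype.card_fin, hN]) (fun i => ⟨f' i, 1⟩)
      (fun i => ⟨fun k => (f' i k)⁻¹ * f i k, 1⟩) (by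
        intro i
        rw [hDmem]
        refine ⟨rfl, ?_⟩
        show χ ((f' i 1)⁻¹ * f i 1) * χ ((f' i (-1))⁻¹ * f i (-1)) = 1
        rw [map_mul, map_mul, map_inv, map_inv, mul_mul_mul_comm, hff i, ← mul_inv, inv_mul_cancel]) c
    have h2 : (fun i => (⟨f' i, 1⟩ : G ≀ᵣ ℤˣ) * ⟨fun k => (f' i k)⁻¹ * f i k, 1⟩) =
        fun i => ⟨f i, 1⟩ := by
      funext i
      refine RegularWreathProduct.ext ?_ ?_
      · funext k
        rw [RegularWreathProduct.mul_left]
        simp
      · rw [RegularWreathProduct.mul_right]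
        simp
    have h1 : θ (φ (fun i => (⟨f' i, 1⟩ : G ≀ᵣ ℤˣ) * ⟨fun k => (f' i k)⁻¹ * f i k, 1⟩, c)) =
      θ (φ (fun i => ⟨f' i, 1⟩, c)) := h1
    rw [h2] at h1
    rw [key' g (φ (fun i => ⟨f i, 1⟩, c)) (by rw [hφ2, hcT, hg]),
      key' g' (φ (fun i => ⟨f' i, 1⟩, c)) (by rw [hφ2, hcT, hg']), h1]
  have hsum : ∀ F : ℤˣ → Multiset ℕ, ∑ q : ℤˣ, F q = F 1 + F (-1) := by
    intro F
    rw [UnitsInt.univ, Finset.sum_pair (by decide)]
  have hsq : ∀ x : ℤˣ × ℤˣ, x * x = 1 := fun x =>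
    Prod.ext (Int.units_mul_self x.1) (Int.units_mul_self x.2)
  have hone : ∀ i : Fin N, ∑ q : ℤˣ, (ψ ((fun _ _ => 1 : Fin N → ℤˣ → G) i q)).cycleType = 0 := by
    intro i
    rw [hsum]
    simp
  refine ⟨?_, ?_, ?_⟩
  · intro j hj g g' hg hg'
    obtain ⟨g₀, hg₀⟩ := ha
    refine master (fun i _ => if i.val < j then g₀ else 1) (fun _ _ => 1) ?_ g g' ?_ ?_
    · intro i
      by_cases hi : i.val < j
      · simp only [hi, if_true, map_one, mul_one]
        exact hsq _
      · simp only [hi, if_false]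
    · rw [hg, add_comm]
      congr 1
      have h1 : ∀ i : Fin N, ∑ q : ℤˣ, (ψ (if i.val < j then g₀ else 1)).cycleType =
          if i.val < j then Multiset.replicate 2 m else 0 := by
        intro i
        rw [hsum]
        by_cases hi : i.val < j
        · simp only [hi, if_true]
          rw [hg₀]
          rfl
        · simp [hi]
      rw [Finset.sum_congr rfl fun i _ => h1 i, ← Finset.sum_filter, Finset.sum_const]
      have h2 : (Finset.univ.filter fun i : Fin N => i.val < j).card = j := by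
        have h3 : (Finset.univ.filter fun i : Fin N => i.val < j) =
            (Finset.univ : Finset (Fin j)).map (Fin.castLEEmb hj) := by
          ext i
          simp only [Finset.mem_filter, Finset.mem_univ, true_and, Finset.mem_map]
          constructor
          · intro h
            exact ⟨⟨i.val, h⟩, Fin.ext rfl⟩
          · rintro ⟨k, rfl⟩
            exact k.2
        rw [h3, Finset.card_map, Finset.card_univ, Fintype.card_fin]
      rw [h2, Multiset.nsmul_replicate, mul_comm]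
    · rw [hg', Finset.sum_congr rfl fun i _ => hone i]
      simp
  · intro hodd g g' hg hg'
    obtain ⟨g₁, hg₁, hg₁'⟩ := hb hodd
    refine master (fun i q => if i = ⟨0, hNpos⟩ ∧ q = 1 then g₁ else 1) (fun _ _ => 1) ?_ g g' ?_ ?_
    · intro i
      by_cases hi : i = ⟨0, hNpos⟩
      · have h1 : ¬ ((-1 : ℤˣ) = 1) := by decide
        simp [hi, h1, hg₁]
      · simp [hi]
    · rw [hg, add_comm]
      congr 1
      rw [Finset.sum_eq_single (⟨0, hNpos⟩ : Fin N)]
      · rw [hsum]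
        have h1 : ¬ ((-1 : ℤˣ) = 1) := by decide
        simp [h1, hg₁']
      · intro i _ hi
        rw [hsum]
        simp [hi]
      · simp
    · rw [hg', Finset.sum_congr rfl fun i _ => hone i]
      simp
  · intro heven g g' hg hg'
    obtain ⟨a, s, s', hχ, ha1, hs, hs'⟩ := hc heven
    refine master (fun i q => if i = ⟨0, hNpos⟩ ∧ q = 1 then a else 1)
      (fun i q => if i = ⟨0, hNpos⟩ then (if q = 1 then s else s') else 1) ?_ g g' ?_ ?_
    · intro i
      by_cases hi : i = ⟨0, hNpos⟩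
      · have h1 : ¬ ((-1 : ℤˣ) = 1) := by decide
        simp [hi, h1, hχ]
      · simp [hi]
    · rw [hg, add_comm]
      congr 1
      rw [Finset.sum_eq_single (⟨0, hNpos⟩ : Fin N)]
      · rw [hsum]
        have h1 : ¬ ((-1 : ℤˣ) = 1) := by decide
        simp [h1, ha1]
      · intro i _ hi
        rw [hsum]
        simp [hi]
      · simp
    · rw [hg', add_comm]
      congr 1
      rw [Finset.sum_eq_single (⟨0, hNpos⟩ : Fin N)]
      · rw [hsum]
        have h1 : ¬ ((-1 : ℤˣ) = 1) := by decide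
        simp only [if_true, h1, if_false]
        rw [hs, hs', ← Multiset.replicate_add]
        congr 1
        obtain ⟨k, hk⟩ := heven
        omega
      · intro i _ hi
        rw [hsum]
        simp [hi]
      · simp

end Pool.Agent.H3.SF
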