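import Mathlib
import Pool.Agent.H3.SF.Moves

/-!
Project SF (MP_1f4fc7_nt), job SF-10.  Reduction of permutations with short cycles.

Write `N = 16 (B² + 1)`.  Claim: for every multiset `T` with parts in `[2, S₀]` and `T.sum ≤ n`,
every `g` with `g.cycleType = T` satisfies the conclusion.  Strong induction on `T.sum`.  The
conclusion for `g` follows from the conclusion for one `g'` with `θ g = θ g'` and
`sign g = sign g'` (`sign` from the cycle type: `Equiv.Perm.sign_of_cycleType`), and permutations
with a given cycle type exist (`Equiv.Perm.exists_with_cycleType_iff`).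
(a) Some `m ∈ T` has multiplicity at least `2 N`: `T = T' + replicate (2 N) m`, and
`2 m N + T'.sum = T.sum ≤ n`: first move with `j = N`, go to `T'`.
(b) Otherwise `T.sum ≤ ∑_{m=2}^{S₀} (2 N - 1) m ≤ N S₀ (S₀ + 1)`
(`T.sum = ∑ m ∈ T.toFinset, count m * m`: `Finset.sum_multiset_count`).  So for `m ≤ S₀`:
`2 m N + T.sum + 2 m ≤ N (S₀ + 3)² ≤ n`.
  - an odd `m ∈ T`: `T = T' + {m}`, second move.
  - an even `m ∈ T`, `m ≥ 4`: third move to `T' + replicate (m - 1) 2`, then the first move with
    `m = 2`, `j = 1`, `(m - 2) / 2` times (an auxiliary induction: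
    `T'' + replicate (2 i) 2 → T''` if `4 N + T''.sum + 4 i ≤ n`), to `T' + {2}`, whose sum is
    smaller than that of `T`.
  - otherwise `T = replicate c 2`: `c ≥ 2`: first move, `m = 2`, `j = 1`; `c = 1`: `g` is a
    swap, conjugate to `τ`, `sign g = -1`; `c = 0`: `g = 1`.
-/

namespace Pool.Agent.H3.SF

/-- The value predicted by the sign, for all permutations with cycle type `T`. -/
def RedP {n : ℕ} (θ : Equiv.Perm (Fin n) → ℝ) (τ : Equiv.Perm (Fin n)) (T : Multiset ℕ) : Prop :=
  ∀ g : Equiv.Perm (Fin n), g.cycleType = T → θ g = if Equiv.Perm.sign g = 1 then θ 1 else θ τ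

theorem red_step {n : ℕ} {θ : Equiv.Perm (Fin n) → ℝ} {τ : Equiv.Perm (Fin n)} {T T' : Multiset ℕ}
    (hT' : ∀ x ∈ T', 2 ≤ x) (hs : T'.sum ≤ n)
    (hpar : (T.sum + T.card) % 2 = (T'.sum + T'.card) % 2)
    (hm : ∀ g g' : Equiv.Perm (Fin n), g.cycleType = T → g'.cycleType = T' → θ g = θ g')
    (hP : RedP θ τ T') : RedP θ τ T := by
  intro g hg
  obtain ⟨g', hg'⟩ := (Equiv.Perm.exists_with_cycleType_iff (Fin n) (m := T')).2
    ⟨by simpa using hs, hT'⟩
  have h1 : Equiv.Perm.sign g = Equiv.Perm.sign g' := by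
    have h2 : (-1 : ℤˣ) ^ 2 = 1 := by decide
    rw [Equiv.Perm.sign_of_cycleType, Equiv.Perm.sign_of_cycleType, hg, hg',
      pow_eq_pow_mod (T.sum + T.card) h2, hpar, ← pow_eq_pow_mod (T'.sum + T'.card) h2]
  rw [hm g g' hg hg', h1]
  exact hP g' hg'

theorem red_aux {n : ℕ} (θ : Equiv.Perm (Fin n) → ℝ) (hθ : IsPR θ) (B : ℕ)
    (hB : ∀ g, |θ g| ≤ B) (τ : Equiv.Perm (Fin n)) {T : Multiset ℕ} (hT : ∀ x ∈ T, 2 ≤ x)
    (hP : RedP θ τ T) : ∀ i : ℕ, 4 * (16 * (B ^ 2 + 1)) + T.sum + 4 * i ≤ n →
      RedP θ τ (T + Multiset.replicate (2 * i) 2) := by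
  intro i
  induction i with
  | zero => intro _; simpa using hP
  | succ i ih =>
    intro h
    have h1 := ih (by omega)
    have h2 : ∀ x ∈ T + Multiset.replicate (2 * i) 2, 2 ≤ x := by
      intro x hx
      rcases Multiset.mem_add.1 hx with hx | hx
      · exact hT x hx
      · rw [Multiset.eq_of_mem_replicate hx]
    have h3 : (T + Multiset.replicate (2 * i) 2).sum = T.sum + 4 * i := by
      rw [Multiset.sum_add, Multiset.sum_replicate, smul_eq_mul]
      ring
    have h4 : T + Multiset.replicate (2 * (i + 1)) 2 =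
        T + Multiset.replicate (2 * i) 2 + Multiset.replicate (2 * 1) 2 := by
      rw [add_assoc, ← Multiset.replicate_add]
      congr 2
    have hmv := moves θ hθ B hB 2 le_rfl _ h2 (by rw [h3]; omega)
    rw [h4]
    refine red_step h2 (by omega) ?_ (fun g g' hg hg' => hmv.1 1 (by omega) g g' hg hg') h1
    rw [Multiset.sum_add, Multiset.card_add]
    simp only [Multiset.sum_replicate, Multiset.card_replicate, smul_eq_mul]
    omega

theorem red_sum {S₀ N : ℕ} {T : Multiset ℕ} (hT : ∀ x ∈ T, x ≤ S₀)
    (hc : ∀ m ∈ T, T.count m < 2 * N) : T.sum ≤ N * (S₀ * (S₀ + 1)) := by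
  have h1 : T.sum = ∑ m ∈ T.toFinset, T.count m * m := by
    rw [Finset.sum_multiset_count]
    simp
  have h2 : ∑ m ∈ T.toFinset, T.count m * m ≤ ∑ m ∈ T.toFinset, 2 * N * m :=
    Finset.sum_le_sum fun m hm => Nat.mul_le_mul_right m (hc m (Multiset.mem_toFinset.1 hm)).le
  have h3 : ∑ m ∈ T.toFinset, 2 * N * m ≤ ∑ m ∈ Finset.range (S₀ + 1), 2 * N * m := by
    refine Finset.sum_le_sum_of_subset fun m hm => ?_
    rw [Finset.mem_range]
    have := hT m (Multiset.mem_toFinset.1 hm)
    omega
  have h4 : ∑ m ∈ Finset.range (S₀ + 1), 2 * N * m = N * (S₀ * (S₀ + 1)) := by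
    rw [← Finset.mul_sum]
    have h5 := Finset.sum_range_id_mul_two (S₀ + 1)
    rw [Nat.add_sub_cancel] at h5
    calc 2 * N * ∑ i ∈ Finset.range (S₀ + 1), i = N * ((∑ i ∈ Finset.range (S₀ + 1), i) * 2) := by ring
      _ = _ := by rw [h5]; ring
  rw [h1]
  exact h2.trans (h3.trans h4.le)

theorem red_main {n : ℕ} (θ : Equiv.Perm (Fin n) → ℝ) (hθ : IsPR θ) (B : ℕ)
    (hB : ∀ g, |θ g| ≤ B) (S₀ : ℕ) (hn : 16 * (B ^ 2 + 1) * (S₀ + 3) ^ 2 ≤ n)
    (τ : Equiv.Perm (Fin n)) (hτ : τ.IsSwap) : ∀ s : ℕ, ∀ T : Multiset ℕ, T.sum = s →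
      (∀ x ∈ T, 2 ≤ x ∧ x ≤ S₀) → T.sum ≤ n → RedP θ τ T := by
  intro s
  induction s using Nat.strong_induction_on with
  | _ s ih =>
  intro T hTs hT hTn
  have hN : 1 ≤ 16 * (B ^ 2 + 1) := by omega
  obtain ⟨N, hNd⟩ : ∃ N, N = 16 * (B ^ 2 + 1) := ⟨_, rfl⟩
  rw [← hNd] at hn hN
  by_cases ha : ∃ m ∈ T, 2 * N ≤ T.count m
  · obtain ⟨m, hm, hc⟩ := ha
    have hm2 := (hT m hm).1
    have h1 : Multiset.replicate (2 * N) m ≤ T := Multiset.le_count_iff_replicate_le.1 hc
    obtain ⟨T', hT'⟩ : ∃ T', T' = T - Multiset.replicate (2 * N) m := ⟨_, rfl⟩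
    have h2 : T = T' + Multiset.replicate (2 * N) m := by
      rw [hT', tsub_add_cancel_of_le h1]
    have h3 : T.sum = T'.sum + 2 * N * m := by
      conv_lhs => rw [h2]
      rw [Multiset.sum_add, Multiset.sum_replicate, smul_eq_mul]
    have h4 : ∀ x ∈ T', x ∈ T := fun x hx => by
      rw [h2]
      exact Multiset.mem_add.2 (Or.inl hx)
    have h5 : 0 < 2 * N * m := by positivity
    have hmv := moves θ hθ B hB m hm2 T' (fun x hx => (hT x (h4 x hx)).1) (by
      rw [← hNd]
      nlinarith)
    rw [h2]
    refine red_step (fun x hx => (hT x (h4 x hx)).1) (by omega) ?_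
      (fun g g' hg hg' => hmv.1 N hNd.le g g' hg hg')
      (ih T'.sum (by omega) T' rfl (fun x hx => hT x (h4 x hx)) (by omega))
    rw [Multiset.sum_add, Multiset.card_add]
    simp only [Multiset.sum_replicate, Multiset.card_replicate, smul_eq_mul]
    have h6 : 2 * N * m = 2 * (N * m) := by ring
    omega
  · push Not at ha
    have hsum := red_sum (fun x hx => (hT x hx).2) ha
    have hbd : ∀ m, m ≤ S₀ → 2 * m * N + T.sum + 2 * m ≤ n := by
      intro m hm
      have h1 : m * N ≤ S₀ * N := Nat.mul_le_mul_right N hm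
      have h2 : S₀ * 1 ≤ S₀ * N := Nat.mul_le_mul_left S₀ hN
      nlinarith
    by_cases hodd : ∃ m ∈ T, Odd m
    · obtain ⟨m, hm, hmo⟩ := hodd
      obtain ⟨T', hT'⟩ := Multiset.exists_cons_of_mem hm
      have hm2 := hT m hm
      have h2 : T = T' + {m} := by
        rw [hT', ← Multiset.singleton_add, add_comm]
      have h3 : T.sum = T'.sum + m := by
        conv_lhs => rw [h2]
        rw [Multiset.sum_add, Multiset.sum_singleton]
      have h4 : ∀ x ∈ T', x ∈ T := fun x hx => by
        rw [h2]
        exact Multiset.mem_add.2 (Or.inl hx)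
      have h5 := hbd m hm2.2
      have hmv := moves θ hθ B hB m hm2.1 T' (fun x hx => (hT x (h4 x hx)).1) (by
        rw [← hNd]
        omega)
      rw [h2]
      refine red_step (fun x hx => (hT x (h4 x hx)).1) (by omega) ?_
        (fun g g' hg hg' => hmv.2.1 hmo g g' hg hg')
        (ih T'.sum (by omega) T' rfl (fun x hx => hT x (h4 x hx)) (by omega))
      rw [Multiset.sum_add, Multiset.card_add]
      simp only [Multiset.sum_singleton, Multiset.card_singleton]
      obtain ⟨k, hk⟩ := hmo
      omega
    · push Not at hodd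
      by_cases hbig : ∃ m ∈ T, 4 ≤ m
      · obtain ⟨m, hm, hm4⟩ := hbig
        obtain ⟨T', hT'⟩ := Multiset.exists_cons_of_mem hm
        have hm2 := hT m hm
        have hme : Even m := Nat.not_odd_iff_even.1 (hodd m hm)
        have h2 : T = T' + {m} := by
          rw [hT', ← Multiset.singleton_add, add_comm]
        have h3 : T.sum = T'.sum + m := by
          conv_lhs => rw [h2]
          rw [Multiset.sum_add, Multiset.sum_singleton]
        have h4 : ∀ x ∈ T', x ∈ T := fun x hx => by
          rw [h2]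
          exact Multiset.mem_add.2 (Or.inl hx)
        have h5 := hbd m hm2.2
        have hmv := moves θ hθ B hB m hm2.1 T' (fun x hx => (hT x (h4 x hx)).1) (by
          rw [← hNd]
          omega)
        obtain ⟨k, hk⟩ := hme
        obtain ⟨i, hi⟩ : ∃ i, m = 2 * i + 2 := ⟨k - 1, by omega⟩
        have h6 : ∀ x ∈ T' + {2}, 2 ≤ x := by
          intro x hx
          rcases Multiset.mem_add.1 hx with hx | hx
          · exact (hT x (h4 x hx)).1
          · rw [Multiset.mem_singleton.1 hx]
        have h7 : (T' + {2}).sum = T'.sum + 2 := by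
          rw [Multiset.sum_add, Multiset.sum_singleton]
        have hP1 : RedP θ τ (T' + {2}) := by
          refine ih (T' + {2}).sum (by omega) _ rfl (fun x hx => ?_) (by omega)
          rcases Multiset.mem_add.1 hx with hx | hx
          · exact hT x (h4 x hx)
          · rw [Multiset.mem_singleton.1 hx]
            exact ⟨le_rfl, by omega⟩
        have h8 : 4 * N ≤ 2 * m * N := Nat.mul_le_mul_right N (by omega)
        have hP2 := red_aux θ hθ B hB τ h6 hP1 i (by
          rw [← hNd, h7]
          omega)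
        have h9 : T' + {2} + Multiset.replicate (2 * i) 2 = T' + Multiset.replicate (m - 1) 2 := by
          have h10 : m - 1 = 1 + 2 * i := by omega
          rw [h10, Multiset.replicate_add, Multiset.replicate_one, add_assoc]
        rw [h9] at hP2
        rw [h2]
        refine red_step (fun x hx => ?_) ?_ ?_ (fun g g' hg hg' => hmv.2.2 ⟨k, hk⟩ g g' hg hg') hP2
        · rcases Multiset.mem_add.1 hx with hx | hx
          · exact (hT x (h4 x hx)).1
          · rw [Multiset.eq_of_mem_replicate hx]
        · rw [Multiset.sum_add, Multiset.sum_replicate, smul_eq_mul]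
          omega
        · rw [Multiset.sum_add, Multiset.card_add, Multiset.sum_add, Multiset.card_add]
          simp only [Multiset.sum_singleton, Multiset.card_singleton, Multiset.sum_replicate,
            Multiset.card_replicate, smul_eq_mul]
          omega
      · push Not at hbig
        have h1 : ∀ x ∈ T, x = 2 := by
          intro x hx
          have h2 := hT x hx
          have h3 := hbig x hx
          have h4 := hodd x hx
          rcases Nat.lt_or_ge x 3 with h5 | h5
          · omega
          · exact absurd (show x = 3 by omega) fun h => h4 (by rw [h]; decide)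
        have h2 : T = Multiset.replicate T.card 2 := Multiset.eq_replicate.2 ⟨rfl, h1⟩
        obtain ⟨c, hc⟩ : ∃ c, c = T.card := ⟨_, rfl⟩
        rw [← hc] at h2
        rcases Nat.lt_or_ge c 2 with hc2 | hc2
        · interval_cases c
          · rw [Multiset.replicate_zero] at h2
            intro g hg
            rw [h2, Equiv.Perm.cycleType_eq_zero] at hg
            rw [hg, map_one, if_pos rfl]
          · rw [Multiset.replicate_one] at h2
            intro g hg
            rw [h2] at hg
            have hsw : g.IsSwap := Equiv.Perm.isSwap_iff_cycleType.2 hg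
            have h3 : IsConj τ g :=
              (Equiv.Perm.isConj_iff_cycleType_eq).2 (by rw [hg, Equiv.Perm.isSwap_iff_cycleType.1 hτ])
            obtain ⟨u, hu⟩ := isConj_iff.1 h3
            rw [hsw.sign_eq, if_neg (by decide), ← hu, hθ.conj]
        · have h3 : T = Multiset.replicate (c - 2) 2 + Multiset.replicate (2 * 1) 2 := by
            rw [← Multiset.replicate_add, h2]
            congr 1
            omega
          have h4 : T.sum = 2 * c := by
            rw [h2, Multiset.sum_replicate, smul_eq_mul]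
            ring
          have h5 : 2 ≤ S₀ := by
            have : 2 ∈ T := by
              rw [h2]
              exact Multiset.mem_replicate.2 ⟨by omega, rfl⟩
            exact (hT 2 this).2
          have h6 := hbd 2 h5
          have h7 : (Multiset.replicate (c - 2) 2).sum = 2 * (c - 2) := by
            rw [Multiset.sum_replicate, smul_eq_mul]
            ring
          have h8 : ∀ x ∈ Multiset.replicate (c - 2) 2, x = 2 := fun x hx =>
            Multiset.eq_of_mem_replicate hx
          have hmv := moves θ hθ B hB 2 le_rfl (Multiset.replicate (c - 2) 2)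
            (fun x hx => (h8 x hx).ge) (by
              rw [← hNd, h7]
              omega)
          rw [h3]
          refine red_step (fun x hx => (h8 x hx).ge) (by rw [h7]; omega) ?_
            (fun g g' hg hg' => hmv.1 1 (by omega) g g' hg hg')
            (ih (2 * (c - 2)) (by omega) _ h7 (fun x hx => by rw [h8 x hx]; exact ⟨le_rfl, h5⟩)
              (by rw [h7]; omega))
          rw [Multiset.sum_add, Multiset.card_add]
          simp only [Multiset.sum_replicate, Multiset.card_replicate, smul_eq_mul]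
          omega

theorem reduce {n : ℕ} (θ : Equiv.Perm (Fin n) → ℝ) (hθ : IsPR θ) (B : ℕ)
    (hB : ∀ g, |θ g| ≤ B) (S₀ : ℕ) (hn : 16 * (B ^ 2 + 1) * (S₀ + 3) ^ 2 ≤ n)
    (τ : Equiv.Perm (Fin n)) (hτ : τ.IsSwap) (g : Equiv.Perm (Fin n))
    (hg : ∀ x ∈ g.cycleType, x ≤ S₀) :
    θ g = if Equiv.Perm.sign g = 1 then θ 1 else θ τ := by
  refine red_main θ hθ B hB S₀ hn τ hτ _ g.cycleType rfl
    (fun x hx => ⟨Equiv.Perm.two_le_of_mem_cycleType hx, hg x hx⟩) ?_ g rfl
  rw [Equiv.Perm.sum_cycleType]
  exact (Finset.card_le_univ _).trans (by simp)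

end Pool.Agent.H3.SF
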