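import Mathlib
import Pool.Agent.H3.SF.Reduce
import Pool.Agent.H3.SF.Smooth
import Pool.Agent.H3.SF.Count
import Pool.Agent.H3.SF.Numeric
import Pool.Agent.H3.SF.Hilb
import Pool.Agent.H3.SF.Mean

/-!
Project SF (MP_1f4fc7_nt), job SF-14.  Bounded virtual permutation characters of `S_n`.

`B = 0`: `θ = 0`.  Let `B ≥ 1`, `τ` a swap (`n ≥ 2`), `S₀` from `numeric`.
`a := (θ 1 + θ τ) / 2`, `b := (θ 1 - θ τ) / 2` are integers (`IsPR.int_val`, `IsPR.parity`).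
`η g := θ g - a - b * sign g` is `IsPR` (`isPR_int`, `isPR_sign`, `mul`, `sub`), and
`η g = θ g - (if sign g = 1 then θ 1 else θ τ)`, so `|η| ≤ 2 B`.
If no cycle length `ℓ` of `g` has `sm (2 B + 1) ℓ > S₀`, then `η g = 0`: take `g'` from
`smooth_part`; all its cycle lengths are `≤ S₀`, so `reduce` gives the value `θ g' = θ g`.
So `mean (η²) ≤ 4 B² * P(∃ ℓ ∈ g.cycleType, sm ℓ > S₀) ≤ 4 B² ∑_{2 ≤ ℓ ≤ n, sm ℓ > S₀} 1/ℓ < 1` by
`card_cycle` and `numeric`; it is an integer (`IsPR.mean_int`), so `η = 0`.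
-/

namespace Pool.Agent.H3.SF

open Classical in
theorem lemS_bad_count {n : ℕ} (B S₀ : ℕ) :
    ((Finset.univ.filter (fun g : Equiv.Perm (Fin n) =>
      ∃ ℓ ∈ g.cycleType, S₀ < sm (2 * B + 1) ℓ)).card : ℝ) ≤
      (n.factorial : ℝ) * ∑ ℓ ∈ (Finset.Icc 2 n).filter (fun ℓ => S₀ < sm (2 * B + 1) ℓ),
        (1 : ℝ) / ℓ := by
  classical
  have hsub : (Finset.univ.filter (fun g : Equiv.Perm (Fin n) =>
      ∃ ℓ ∈ g.cycleType, S₀ < sm (2 * B + 1) ℓ)) ⊆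
      ((Finset.Icc 2 n).filter (fun ℓ => S₀ < sm (2 * B + 1) ℓ)).biUnion
        (fun ℓ => Finset.univ.filter (fun g : Equiv.Perm (Fin n) => ℓ ∈ g.cycleType)) := by
    intro g hg
    rw [Finset.mem_filter] at hg
    obtain ⟨-, ℓ, hℓ, hS⟩ := hg
    rw [Finset.mem_biUnion]
    refine ⟨ℓ, ?_, ?_⟩
    · rw [Finset.mem_filter, Finset.mem_Icc]
      refine ⟨⟨Equiv.Perm.two_le_of_mem_cycleType hℓ, ?_⟩, hS⟩
      have h1 := Equiv.Perm.le_card_support_of_mem_cycleType hℓ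
      exact h1.trans (by simpa using Finset.card_le_univ g.support)
    · rw [Finset.mem_filter]
      exact ⟨Finset.mem_univ _, hℓ⟩
  have h1 : ((Finset.univ.filter (fun g : Equiv.Perm (Fin n) =>
      ∃ ℓ ∈ g.cycleType, S₀ < sm (2 * B + 1) ℓ)).card : ℝ) ≤
      ∑ ℓ ∈ (Finset.Icc 2 n).filter (fun ℓ => S₀ < sm (2 * B + 1) ℓ),
        ((Finset.univ.filter (fun g : Equiv.Perm (Fin n) => ℓ ∈ g.cycleType)).card : ℝ) := by
    have h2 := (Finset.card_le_card hsub).trans Finset.card_biUnion_le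
    exact_mod_cast h2
  refine h1.trans ?_
  rw [Finset.mul_sum]
  refine Finset.sum_le_sum fun ℓ hℓ => ?_
  rw [Finset.mem_filter, Finset.mem_Icc] at hℓ
  have hℓ2 : 2 ≤ ℓ := hℓ.1.1
  have h3 := card_cycle n ℓ hℓ2
  rw [Nat.card_eq_fintype_card, Fintype.card_subtype] at h3
  have h4 : (ℓ : ℝ) * ((Finset.univ.filter (fun g : Equiv.Perm (Fin n) =>
      ℓ ∈ g.cycleType)).card : ℝ) ≤ n.factorial := by exact_mod_cast h3
  have hℓ0 : (0 : ℝ) < ℓ := by exact_mod_cast (by omega : 0 < ℓ)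
  rw [mul_one_div, le_div_iff₀ hℓ0]
  linarith

theorem lemS {n : ℕ} (θ : Equiv.Perm (Fin n) → ℝ) (hθ : IsPR θ) (B : ℕ) (hB : ∀ g, |θ g| ≤ B)
    (hn : 2 ^ (40 * (B + 1)) ≤ n) :
    ∃ a b : ℤ, ∀ g, θ g = a + b * ((Equiv.Perm.sign g : ℤˣ) : ℤ) := by
  classical
  rcases Nat.eq_zero_or_pos B with h0 | hB1
  · refine ⟨0, 0, fun g => ?_⟩
    have := hB g
    rw [h0] at this
    simpa using this
  obtain ⟨S₀, hS1, hS2⟩ := numeric B n hB1 hn
  have hn2 : 2 ≤ n := by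
    refine le_trans ?_ hn
    calc 2 = 2 ^ 1 := (pow_one 2).symm
      _ ≤ 2 ^ (40 * (B + 1)) := Nat.pow_le_pow_right (by norm_num) (by omega)
  set τ : Equiv.Perm (Fin n) := Equiv.swap ⟨0, by omega⟩ ⟨1, by omega⟩ with hτdef
  have hne : (⟨0, by omega⟩ : Fin n) ≠ ⟨1, by omega⟩ := by
    intro h
    have := congrArg Fin.val h
    simp at this
  have hτ : τ.IsSwap := ⟨_, _, hne, rfl⟩
  have hττ : τ * τ = 1 := Equiv.swap_mul_self _ _
  obtain ⟨z1, hz1⟩ := hθ.int_val 1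
  obtain ⟨z, hz⟩ := hθ.parity τ hττ
  refine ⟨z1 - z, z, ?_⟩
  have hηPR : IsPR (fun g : Equiv.Perm (Fin n) =>
      θ g - (((z1 - z : ℤ) : ℝ) + (z : ℝ) * (((Equiv.Perm.sign g : ℤˣ) : ℤ) : ℝ))) :=
    hθ.sub ((isPR_int (z1 - z)).add ((isPR_int z).mul (isPR_sign Equiv.Perm.sign)))
  have hsign : ∀ g : Equiv.Perm (Fin n),
      ((z1 - z : ℤ) : ℝ) + (z : ℝ) * (((Equiv.Perm.sign g : ℤˣ) : ℤ) : ℝ) =
        if Equiv.Perm.sign g = 1 then θ 1 else θ τ := by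
    intro g
    rcases Int.units_eq_one_or (Equiv.Perm.sign g) with h | h
    · rw [h, if_pos rfl, hz1]
      push_cast
      ring
    · rw [h, if_neg (by decide)]
      have : θ τ = z1 - 2 * z := by linarith
      rw [this]
      push_cast
      ring
  set η : Equiv.Perm (Fin n) → ℝ := fun g =>
    θ g - (((z1 - z : ℤ) : ℝ) + (z : ℝ) * (((Equiv.Perm.sign g : ℤˣ) : ℤ) : ℝ)) with hη
  have hη2 : ∀ g, |η g| ≤ 2 * B := by
    intro g
    have h1 : η g = θ g - (if Equiv.Perm.sign g = 1 then θ 1 else θ τ) := by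
      rw [hη]
      simp only
      rw [hsign g]
    rw [h1]
    have h2 : |(if Equiv.Perm.sign g = 1 then θ 1 else θ τ)| ≤ B := by
      split_ifs
      · exact hB 1
      · exact hB τ
    calc |θ g - (if Equiv.Perm.sign g = 1 then θ 1 else θ τ)|
        ≤ |θ g| + |(if Equiv.Perm.sign g = 1 then θ 1 else θ τ)| := abs_sub _ _
      _ ≤ B + B := add_le_add (hB g) h2
      _ = 2 * B := by ring
  have hη0 : ∀ g, ¬ (∃ ℓ ∈ g.cycleType, S₀ < sm (2 * B + 1) ℓ) → η g = 0 := by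
    intro g hg
    obtain ⟨g', hg1, hg2, hg3⟩ := smooth_part θ hθ B hB1 hB g
    have h1 : ∀ x ∈ g'.cycleType, x ≤ S₀ := by
      intro x hx
      obtain ⟨ℓ, hℓ, hxℓ⟩ := hg3 x hx
      refine hxℓ.trans ?_
      by_contra hlt
      exact hg ⟨ℓ, hℓ, by omega⟩
    have h2 := reduce θ hθ B hB S₀ hS1 τ hτ g' h1
    rw [hη]
    simp only
    rw [hsign g, ← hg1, h2, hg2, sub_self]
  have hmean : mean (fun g => η g ^ 2) < 1 := by
    unfold mean
    rw [Fintype.card_perm, Fintype.card_fin, div_lt_one (by exact_mod_cast n.factorial_pos)]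
    have h1 : ∑ g, η g ^ 2 ≤ ∑ g ∈ (Finset.univ.filter (fun g : Equiv.Perm (Fin n) =>
        ∃ ℓ ∈ g.cycleType, S₀ < sm (2 * B + 1) ℓ)), (4 * (B : ℝ) ^ 2) := by
      rw [Finset.sum_filter]
      refine Finset.sum_le_sum fun g _ => ?_
      split_ifs with h
      · have := sq_le_sq' (abs_le.mp (hη2 g)).1 (abs_le.mp (hη2 g)).2
        calc η g ^ 2 ≤ (2 * (B : ℝ)) ^ 2 := this
          _ = 4 * (B : ℝ) ^ 2 := by ring
      · rw [hη0 g h]
        norm_num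
    rw [Finset.sum_const, nsmul_eq_mul] at h1
    have h2 := lemS_bad_count (n := n) B S₀
    have h3 : (0 : ℝ) ≤ 4 * (B : ℝ) ^ 2 := by positivity
    have hf : (0 : ℝ) < n.factorial := by exact_mod_cast n.factorial_pos
    calc ∑ g, η g ^ 2 ≤ _ := h1
      _ ≤ ((n.factorial : ℝ) * ∑ ℓ ∈ (Finset.Icc 2 n).filter (fun ℓ => S₀ < sm (2 * B + 1) ℓ),
        (1 : ℝ) / ℓ) * (4 * (B : ℝ) ^ 2) := mul_le_mul_of_nonneg_right h2 h3
      _ = (n.factorial : ℝ) * (4 * (B : ℝ) ^ 2 *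
          ∑ ℓ ∈ (Finset.Icc 2 n).filter (fun ℓ => S₀ < sm (2 * B + 1) ℓ), (1 : ℝ) / ℓ) := by ring
      _ < (n.factorial : ℝ) * 1 := mul_lt_mul_of_pos_left hS2 hf
      _ = n.factorial := mul_one _
  have hsqPR : IsPR (fun g => η g ^ 2) := by
    have := hηPR.mul hηPR
    refine (congrArg IsPR ?_).mp this
    funext g
    rw [sq]
  obtain ⟨w, hw⟩ := hsqPR.mean_int
  have hw0 : 0 ≤ mean (fun g => η g ^ 2) := mean_sq_nonneg η
  have hw1 : w = 0 := by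
    rw [hw] at hmean hw0
    have h1 : w < 1 := by exact_mod_cast hmean
    have h2 : 0 ≤ w := by exact_mod_cast hw0
    omega
  rw [hw1, Int.cast_zero] at hw
  intro g
  have := eq_zero_of_mean_sq hw g
  rw [hη] at this
  simp only at this
  linarith

end Pool.Agent.H3.SF
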