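import Mathlib

/-!
Project SF (MP_1f4fc7_nt), job SF-17.  Partitions of `n` as nonincreasing functions.

`rr μ i` is the number of parts of `μ` larger than `i` (the conjugate partition).
* antitone: clear.  Sum: `∑_{i < n} #{p ∈ parts, i < p} = ∑_{p ∈ parts} p = n` (every part is `≤ n`).
* injective: the numbers `#{p ∈ parts, i < p}` for `i = 0, ..., n - 1` (and `0` for `i ≥ n`) determine the
  multiplicities `#{p = i + 1} = #{i < p} - #{i + 1 < p}` of all positive parts.
* `conj`: take for `κ` the partition with parts the nonzero values `rr μ j`, `j : Fin n`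
  (`Nat.Partition.ofSums`/`ofMultiset`); its parts larger than `i` correspond to the `j` with
  `i < rr μ j`.
-/

namespace Pool.Agent.H3.SF

/-- number of parts larger than `i` -/
def rr {n : ℕ} (μ : n.Partition) (i : Fin n) : ℕ := μ.parts.countP (fun p => (i : ℕ) < p)

theorem rr_antitone {n : ℕ} (μ : n.Partition) : Antitone (rr μ) := by
  intro i j hij
  unfold rr
  rw [Multiset.countP_eq_card_filter, Multiset.countP_eq_card_filter]
  apply Multiset.card_le_card
  apply Multiset.monotone_filter_right
  intro p hp
  have : (i : ℕ) ≤ j := hij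
  omega

theorem part_mem_le {n : ℕ} (μ : n.Partition) {p : ℕ} (hp : p ∈ μ.parts) : p ≤ n := by
  have h := Multiset.single_le_sum (fun x _ => Nat.zero_le x) p hp
  rwa [μ.parts_sum] at h

theorem sum_countP_lt (n : ℕ) (s : Multiset ℕ) (hs : ∀ p ∈ s, p ≤ n) :
    ∑ i : Fin n, s.countP (fun p => (i : ℕ) < p) = s.sum := by
  induction s using Multiset.induction_on with
  | empty => simp
  | cons a s ih =>
    have h1 : ∀ i : Fin n, (a ::ₘ s).countP (fun p => (i : ℕ) < p) =
        s.countP (fun p => (i : ℕ) < p) + if (i : ℕ) < a then 1 else 0 := by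
      intro i
      rw [Multiset.countP_cons]
    rw [Finset.sum_congr rfl fun i _ => h1 i, Finset.sum_add_distrib,
      ih fun p hp => hs p (Multiset.mem_cons_of_mem hp), Multiset.sum_cons]
    have ha : a ≤ n := hs a (Multiset.mem_cons_self a s)
    have h2 : ∑ i : Fin n, (if (i : ℕ) < a then 1 else 0) = a := by
      rw [Fin.sum_univ_eq_sum_range (fun i => if i < a then 1 else 0) n, ← Finset.sum_filter]
      have : (Finset.range n).filter (fun i => i < a) = Finset.range a := by
        ext i
        simp only [Finset.mem_filter, Finset.mem_range]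
        omega
      rw [this]
      simp
    rw [h2, Nat.add_comm]

theorem rr_sum {n : ℕ} (μ : n.Partition) : ∑ i, rr μ i = n := by
  unfold rr
  rw [sum_countP_lt n μ.parts fun p hp => part_mem_le μ hp, μ.parts_sum]

theorem countP_lt_succ (s : Multiset ℕ) (i : ℕ) :
    s.countP (fun p => i < p) = s.countP (fun p => i + 1 < p) + s.count (i + 1) := by
  induction s using Multiset.induction_on with
  | empty => simp
  | cons a s ih =>
    rw [Multiset.countP_cons, Multiset.countP_cons, Multiset.count_cons, ih]
    split_ifs <;> omega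

theorem rr_injective {n : ℕ} : Function.Injective (rr (n := n)) := by
  intro μ κ h
  have h0 : ∀ (ν : n.Partition) (i : ℕ), n ≤ i → ν.parts.countP (fun p => i < p) = 0 := by
    intro ν i hi
    rw [Multiset.countP_eq_zero]
    intro p hp hlt
    have := part_mem_le ν hp
    omega
  have h1 : ∀ i : ℕ, μ.parts.countP (fun p => i < p) = κ.parts.countP (fun p => i < p) := by
    intro i
    by_cases hi : i < n
    · exact congrFun h ⟨i, hi⟩
    · rw [h0 μ i (by omega), h0 κ i (by omega)]
  apply Nat.Partition.ext
  apply Multiset.ext.2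
  intro p
  rcases p with _ | i
  · rw [Multiset.count_eq_zero_of_notMem, Multiset.count_eq_zero_of_notMem]
    · intro hp
      exact absurd (κ.parts_pos hp) (lt_irrefl 0)
    · intro hp
      exact absurd (μ.parts_pos hp) (lt_irrefl 0)
  · have e1 := countP_lt_succ μ.parts i
    have e2 := countP_lt_succ κ.parts i
    have e3 := h1 i
    have e4 := h1 (i + 1)
    omega

theorem exists_rr_conj {n : ℕ} (μ : n.Partition) :
    ∃ κ : n.Partition, rr κ = fun i : Fin n => Nat.card {j : Fin n // (i : ℕ) < rr μ j} := by
  have hsum : ((Finset.univ : Finset (Fin n)).val.map (rr μ)).sum = n := rr_sum μ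
  refine ⟨Nat.Partition.ofSums n _ hsum, ?_⟩
  funext i
  unfold rr
  rw [Nat.Partition.ofSums_parts, Multiset.countP_filter, Multiset.countP_map, Nat.card_eq_fintype_card,
    Fintype.card_subtype]
  unfold Finset.filter
  rw [Finset.card_mk]
  congr 1
  apply Multiset.filter_congr
  intro j _
  constructor
  · intro h
    exact h.1
  · intro h
    exact ⟨h, by omega⟩

end Pool.Agent.H3.SF
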