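import Mathlib
import Pool.Agent.H3.SF.Basic

/-!
Project SF (MP_1f4fc7_nt), job SF-15.  Young permutation characters and their signed pairing.

`pc a g` is the number of maps `f : Fin n → Fin n` with fibre cardinalities `a` such that
`f ∘ g = f`: the permutation character of `S_n` on the set of maps with fibre cardinalities `a`
(`g • f = f ∘ g⁻¹`).

`pair_count`: `∑_g sign g * pc a g * pc b g = ∑_{(f, h)} ∑_{g : f ∘ g = f, h ∘ g = h} sign g`.
For `u = (f, h) : Fin n → Fin n × Fin n`, the inner sum is over the `g` with `u ∘ g = u`; if `u` is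
injective only `g = 1` contributes; if `u x = u y` with `x ≠ y`, the involution `g ↦ swap x y * g`
(or `g * swap x y`) changes the sign and preserves the condition, so the sum is zero
(`Finset.sum_involution`).  So the sum is the number of injective `u` with fibre cardinalities of
`f` and `h` given by `a` and `b`.  Such a `u` has image a set `M ⊆ Fin n × Fin n` with row sums `a` and
column sums `b`, with `n` elements (`∑ a = n`), and every such `M` is the image of exactly `n!`
injective `u` (bijections `Fin n ≃ M`).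
-/

namespace Pool.Agent.H3.SF

/-- the permutation character of `S_n` on maps with fibre cardinalities `a` -/
noncomputable def pc {n : ℕ} (a : Fin n → ℕ) (g : Equiv.Perm (Fin n)) : ℝ :=
  (Nat.card {f : Fin n → Fin n // (∀ i, Nat.card {x // f x = i} = a i) ∧ ∀ x, f (g x) = f x} : ℝ)

/-- number of zero-one matrices with row sums `a` and column sums `b` -/
noncomputable def MM {n : ℕ} (a b : Fin n → ℕ) : ℕ :=
  Nat.card {M : Finset (Fin n × Fin n) // (∀ i, (M.filter (fun p => p.1 = i)).card = a i) ∧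
    ∀ j, (M.filter (fun p => p.2 = j)).card = b j}

/-- maps with fibre cardinalities `a` -/
def FX {n : ℕ} (a : Fin n → ℕ) : Type := {f : Fin n → Fin n // ∀ i, Nat.card {x // f x = i} = a i}

instance instFiniteFX {n : ℕ} (a : Fin n → ℕ) : Finite (FX a) :=
  inferInstanceAs (Finite {f : Fin n → Fin n // ∀ i, Nat.card {x // f x = i} = a i})

instance instMulActionFX {n : ℕ} (a : Fin n → ℕ) : MulAction (Equiv.Perm (Fin n)) (FX a) where
  smul g f := ⟨fun x => f.1 (g⁻¹ x), by
    intro i
    rw [← f.2 i]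
    exact Nat.card_congr ((g⁻¹).subtypeEquiv (fun x => Iff.rfl))⟩
  one_smul f := by
    apply Subtype.ext
    funext x
    show f.1 ((1 : Equiv.Perm (Fin n))⁻¹ x) = f.1 x
    simp
  mul_smul g h f := by
    apply Subtype.ext
    funext x
    show f.1 ((g * h)⁻¹ x) = f.1 (h⁻¹ (g⁻¹ x))
    simp [mul_inv_rev]

theorem FX_smul_apply {n : ℕ} (a : Fin n → ℕ) (g : Equiv.Perm (Fin n)) (f : FX a) (x : Fin n) :
    (g • f).1 x = f.1 (g⁻¹ x) := rfl

theorem isPR_pc {n : ℕ} (a : Fin n → ℕ) : IsPR (pc a) := by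
  have h := isPR_of_action (Γ := Equiv.Perm (Fin n)) (FX a)
  have e : pc a = (fun g : Equiv.Perm (Fin n) => (Nat.card {x : FX a // g • x = x} : ℝ)) := by
    funext g
    unfold pc
    congr 1
    refine Nat.card_congr ?_
    refine Equiv.trans (Equiv.subtypeSubtypeEquivSubtypeInter
      (fun f : Fin n → Fin n => ∀ i, Nat.card {x // f x = i} = a i)
      (fun f => ∀ x, f (g x) = f x)).symm ?_
    refine Equiv.subtypeEquivRight ?_
    intro f
    constructor
    · intro hf
      apply Subtype.ext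
      funext x
      have h1 : f.1 ((g⁻¹) x) = f.1 x := by
        have := hf (g⁻¹ x)
        rw [← this]; simp
      exact h1
    · intro hf x
      have h1 := congrFun (congrArg Subtype.val hf) (g x)
      have h2 : f.1 (g⁻¹ (g x)) = f.1 (g x) := h1
      rw [← h2]; simp
  rw [e]; exact h

open Classical in
theorem inner_sum {n : ℕ} (f h : Fin n → Fin n) :
    ∑ g : Equiv.Perm (Fin n), (((Equiv.Perm.sign g : ℤˣ) : ℤ) : ℝ) *
      (if (∀ x, f (g x) = f x) ∧ (∀ x, h (g x) = h x) then (1 : ℝ) else 0) =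
    if Function.Injective (fun x => (f x, h x)) then (1 : ℝ) else 0 := by
  by_cases hu : Function.Injective (fun x => (f x, h x))
  · rw [if_pos hu]
    rw [Finset.sum_eq_single 1]
    · simp
    · intro g _ hg
      rw [if_neg, mul_zero]
      rintro ⟨h1, h2⟩
      apply hg
      ext x
      have : g x = x := hu (by simp [h1 x, h2 x])
      simp [this]
    · intro h0
      exact absurd (Finset.mem_univ _) h0
  · rw [if_neg hu]
    unfold Function.Injective at hu
    push Not at hu
    obtain ⟨x, y, hxy, hne⟩ := hu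
    have hfx : f x = f y := (Prod.ext_iff.1 hxy).1
    have hhx : h x = h y := (Prod.ext_iff.1 hxy).2
    have key : ∀ (k : Fin n → Fin n), k x = k y → ∀ z, k (Equiv.swap x y z) = k z := by
      intro k hk z
      by_cases hzx : z = x
      · rw [hzx, Equiv.swap_apply_left, hk]
      · by_cases hzy : z = y
        · rw [hzy, Equiv.swap_apply_right, hk]
        · rw [Equiv.swap_apply_of_ne_of_ne hzx hzy]
    have hs := Equiv.sum_comp (Equiv.mulLeft (Equiv.swap x y))
      (fun g : Equiv.Perm (Fin n) => (((Equiv.Perm.sign g : ℤˣ) : ℤ) : ℝ) *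
      (if (∀ x, f (g x) = f x) ∧ (∀ x, h (g x) = h x) then (1 : ℝ) else 0))
    have ht : ∀ g : Equiv.Perm (Fin n),
        (((Equiv.Perm.sign ((Equiv.mulLeft (Equiv.swap x y)) g) : ℤˣ) : ℤ) : ℝ) *
        (if (∀ z, f (((Equiv.mulLeft (Equiv.swap x y)) g) z) = f z) ∧
          (∀ z, h (((Equiv.mulLeft (Equiv.swap x y)) g) z) = h z) then (1 : ℝ) else 0) =
        - ((((Equiv.Perm.sign g : ℤˣ) : ℤ) : ℝ) *
      (if (∀ x, f (g x) = f x) ∧ (∀ x, h (g x) = h x) then (1 : ℝ) else 0)) := by
      intro g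
      have hc : ((∀ z, f (((Equiv.mulLeft (Equiv.swap x y)) g) z) = f z) ∧
          (∀ z, h (((Equiv.mulLeft (Equiv.swap x y)) g) z) = h z)) ↔
          ((∀ x, f (g x) = f x) ∧ (∀ x, h (g x) = h x)) := by
        have e1 : ∀ z, f (((Equiv.mulLeft (Equiv.swap x y)) g) z) = f (g z) := by
          intro z
          show f (Equiv.swap x y (g z)) = f (g z)
          exact key f hfx _
        have e2 : ∀ z, h (((Equiv.mulLeft (Equiv.swap x y)) g) z) = h (g z) := by
          intro z
          show h (Equiv.swap x y (g z)) = h (g z)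
          exact key h hhx _
        constructor
        · rintro ⟨h1, h2⟩
          exact ⟨fun z => by rw [← e1]; exact h1 z, fun z => by rw [← e2]; exact h2 z⟩
        · rintro ⟨h1, h2⟩
          exact ⟨fun z => by rw [e1]; exact h1 z, fun z => by rw [e2]; exact h2 z⟩
      have hsg : Equiv.Perm.sign ((Equiv.mulLeft (Equiv.swap x y)) g) = - Equiv.Perm.sign g := by
        show Equiv.Perm.sign (Equiv.swap x y * g) = _
        rw [Equiv.Perm.sign_mul, Equiv.Perm.sign_swap hne]
        simp
      rw [if_congr hc rfl rfl, hsg]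
      push_cast
      ring
    rw [Finset.sum_congr rfl (fun g _ => ht g), Finset.sum_neg_distrib] at hs
    linarith

/-- fibre condition -/
def Cd {n : ℕ} (a : Fin n → ℕ) (f : Fin n → Fin n) : Prop := ∀ i, Nat.card {x // f x = i} = a i

/-- row and column conditions -/
def Rc {n : ℕ} (a b : Fin n → ℕ) (M : Finset (Fin n × Fin n)) : Prop :=
  (∀ i, (M.filter (fun p => p.1 = i)).card = a i) ∧
    ∀ j, (M.filter (fun p => p.2 = j)).card = b j

theorem card_fib {n : ℕ} (M : Finset (Fin n × Fin n)) (e : Fin n ≃ {p // p ∈ M})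
    (q : Fin n × Fin n → Prop) [DecidablePred q] :
    Nat.card {x : Fin n // q (e x).1} = (M.filter q).card := by
  have h1 : Nat.card {x : Fin n // q (e x).1} = Nat.card {p : {p // p ∈ M} // q p.1} :=
    Nat.card_congr (e.subtypeEquiv (fun x => Iff.rfl))
  rw [h1, Nat.card_congr (Equiv.subtypeSubtypeEquivSubtypeInter (fun p => p ∈ M) q)]
  exact Nat.subtype_card _ (fun x => by simp)

theorem card_M {n : ℕ} (a b : Fin n → ℕ) (ha : ∑ i, a i = n) (M : Finset (Fin n × Fin n))
    (hM : Rc a b M) : M.card = n := by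
  rw [Finset.card_eq_sum_card_fiberwise (f := fun p => p.1) (t := Finset.univ)
    (fun _ _ => Finset.mem_coe.2 (Finset.mem_univ _))]
  exact (Finset.sum_congr rfl (fun i _ => hM.1 i)).trans ha

theorem count_inj {n : ℕ} (a b : Fin n → ℕ) (ha : ∑ i, a i = n) :
    Nat.card {p : (Fin n → Fin n) × (Fin n → Fin n) // (Cd a p.1 ∧ Cd b p.2) ∧
      Function.Injective (fun x => (p.1 x, p.2 x))} = n.factorial * MM a b := by
  classical
  let T := Σ M : {M : Finset (Fin n × Fin n) // Rc a b M}, (Fin n ≃ {p // p ∈ M.1})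
  have hT : Nat.card T = n.factorial * MM a b := by
    show Nat.card (Σ M : {M : Finset (Fin n × Fin n) // Rc a b M}, (Fin n ≃ {p // p ∈ M.1})) = _
    have _ : Fintype {M : Finset (Fin n × Fin n) // Rc a b M} := Fintype.ofFinite _
    rw [Nat.card_sigma]
    have h1 : ∀ M : {M : Finset (Fin n × Fin n) // Rc a b M},
        Nat.card (Fin n ≃ {p // p ∈ M.1}) = n.factorial := by
      intro M
      have hc := card_M a b ha M.1 M.2
      have e : Fin n ≃ {p // p ∈ M.1} := by
        apply Fintype.equivOfCardEq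
        rw [Fintype.card_fin, Fintype.card_coe, hc]
      rw [Nat.card_eq_fintype_card, Fintype.card_equiv e, Fintype.card_fin]
    rw [Finset.sum_congr rfl (fun M _ => h1 M), Finset.sum_const, smul_eq_mul, mul_comm]
    congr 1
    unfold MM
    rw [Finset.card_univ, ← Nat.card_eq_fintype_card]
    rfl
  rw [← hT]
  symm
  let F : T → {p : (Fin n → Fin n) × (Fin n → Fin n) // (Cd a p.1 ∧ Cd b p.2) ∧
      Function.Injective (fun x => (p.1 x, p.2 x))} := fun t =>
    ⟨(fun x => (t.2 x).1.1, fun x => (t.2 x).1.2), ⟨⟨fun i => by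
        have h := card_fib t.1.1 t.2 (fun p => p.1 = i)
        rw [t.1.2.1 i] at h
        exact h, fun j => by
        have h := card_fib t.1.1 t.2 (fun p => p.2 = j)
        rw [t.1.2.2 j] at h
        exact h⟩, fun x y hxy => t.2.injective (Subtype.ext (Prod.ext
          (Prod.ext_iff.1 hxy).1 (Prod.ext_iff.1 hxy).2))⟩⟩
  refine Nat.card_congr (Equiv.ofBijective F ⟨?_, ?_⟩)
  · rintro ⟨⟨M, hM⟩, e⟩ ⟨⟨M', hM'⟩, e'⟩ h
    have h0 := congrArg Subtype.val h
    have hf : ∀ x, (e x).1.1 = (e' x).1.1 := fun x => congrFun (Prod.ext_iff.1 h0).1 x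
    have hg : ∀ x, (e x).1.2 = (e' x).1.2 := fun x => congrFun (Prod.ext_iff.1 h0).2 x
    have hp : ∀ x, (e x).1 = (e' x).1 := fun x => Prod.ext (hf x) (hg x)
    have hMM : M = M' := by
      ext p
      constructor
      · intro hpM
        have h2 := hp (e.symm ⟨p, hpM⟩)
        rw [e.apply_symm_apply] at h2
        rw [show p = (e' (e.symm ⟨p, hpM⟩)).1 from h2]
        exact (e' _).2
      · intro hpM
        have h2 := hp (e'.symm ⟨p, hpM⟩)
        rw [e'.apply_symm_apply] at h2
        rw [show p = (e (e'.symm ⟨p, hpM⟩)).1 from h2.symm]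
        exact (e _).2
    subst hMM
    have hee : e = e' := Equiv.ext (fun x => Subtype.ext (hp x))
    subst hee
    rfl
  · rintro ⟨⟨f, h⟩, ⟨hf, hh⟩, hinj⟩
    let M : Finset (Fin n × Fin n) := Finset.univ.image (fun x => (f x, h x))
    let e : Fin n ≃ {p // p ∈ M} := Equiv.ofBijective
      (fun x => ⟨(f x, h x), Finset.mem_image_of_mem _ (Finset.mem_univ x)⟩)
      ⟨fun x y hxy => hinj (congrArg Subtype.val hxy), fun p => by
        obtain ⟨x, _, hx⟩ := Finset.mem_image.1 p.2
        exact ⟨x, Subtype.ext hx⟩⟩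
    have hM : Rc a b M := by
      constructor
      · intro i
        rw [← card_fib M e (fun p => p.1 = i)]
        exact hf i
      · intro j
        rw [← card_fib M e (fun p => p.2 = j)]
        exact hh j
    refine ⟨⟨⟨M, hM⟩, e⟩, ?_⟩
    rfl

open Classical in
theorem pc_eq {n : ℕ} (a : Fin n → ℕ) (g : Equiv.Perm (Fin n)) :
    pc a g = ∑ f : Fin n → Fin n, (if Cd a f ∧ ∀ x, f (g x) = f x then (1 : ℝ) else 0) := by
  unfold pc
  rw [Finset.sum_boole]
  congr 1
  exact Nat.subtype_card _ (fun f => by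
    simp only [Finset.mem_filter, Finset.mem_univ, true_and]
    rfl)

theorem pair_count {n : ℕ} (a b : Fin n → ℕ) (ha : ∑ i, a i = n) :
    ∑ g : Equiv.Perm (Fin n), (((Equiv.Perm.sign g : ℤˣ) : ℤ) : ℝ) * pc a g * pc b g =
      (n.factorial : ℝ) * MM a b := by
  classical
  have h1 : ∀ g : Equiv.Perm (Fin n), (((Equiv.Perm.sign g : ℤˣ) : ℤ) : ℝ) * pc a g * pc b g =
      ∑ f : Fin n → Fin n, ∑ h : Fin n → Fin n, (if Cd a f ∧ Cd b h then (1 : ℝ) else 0) *
        ((((Equiv.Perm.sign g : ℤˣ) : ℤ) : ℝ) *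
      (if (∀ x, f (g x) = f x) ∧ (∀ x, h (g x) = h x) then (1 : ℝ) else 0)) := by
    intro g
    rw [pc_eq, pc_eq, mul_assoc, Finset.sum_mul_sum, Finset.mul_sum]
    refine Finset.sum_congr rfl (fun f _ => ?_)
    rw [Finset.mul_sum]
    refine Finset.sum_congr rfl (fun h _ => ?_)
    by_cases c1 : Cd a f <;> by_cases c2 : Cd b h <;> by_cases c3 : ∀ x, f (g x) = f x <;>
      by_cases c4 : ∀ x, h (g x) = h x <;> simp [c1, c2, c3, c4]
  rw [Finset.sum_congr rfl (fun g _ => h1 g), Finset.sum_comm]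
  have h2 : ∀ f : Fin n → Fin n, ∑ g : Equiv.Perm (Fin n), ∑ h : Fin n → Fin n,
      (if Cd a f ∧ Cd b h then (1 : ℝ) else 0) *
        ((((Equiv.Perm.sign g : ℤˣ) : ℤ) : ℝ) *
      (if (∀ x, f (g x) = f x) ∧ (∀ x, h (g x) = h x) then (1 : ℝ) else 0)) =
      ∑ h : Fin n → Fin n, (if (Cd a f ∧ Cd b h) ∧
        Function.Injective (fun x => (f x, h x)) then (1 : ℝ) else 0) := by
    intro f
    rw [Finset.sum_comm]
    refine Finset.sum_congr rfl (fun h _ => ?_)
    rw [← Finset.mul_sum, inner_sum]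
    by_cases c1 : Cd a f ∧ Cd b h <;>
      by_cases c2 : Function.Injective (fun x => (f x, h x)) <;> simp [c1, c2]
  rw [Finset.sum_congr rfl (fun f _ => h2 f)]
  have h3 := count_inj a b ha
  have h4 : Nat.card {p : (Fin n → Fin n) × (Fin n → Fin n) // (Cd a p.1 ∧ Cd b p.2) ∧
      Function.Injective (fun x => (p.1 x, p.2 x))} =
      (Finset.univ.filter (fun p : (Fin n → Fin n) × (Fin n → Fin n) =>
        (Cd a p.1 ∧ Cd b p.2) ∧ Function.Injective (fun x => (p.1 x, p.2 x)))).card :=
    Nat.subtype_card _ (fun f => by simp)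
  rw [← Fintype.sum_prod_type' (f := fun (f h : Fin n → Fin n) => (if (Cd a f ∧ Cd b h) ∧
        Function.Injective (fun x => (f x, h x)) then (1 : ℝ) else 0)), Finset.sum_boole, ← h4, h3]
  push_cast
  ring

end Pool.Agent.H3.SF
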