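import Mathlib
import Pool.Agent.H3.SF.Pair

/-!
Project SF (MP_1f4fc7_nt), job SF-16.  Half of the Gale-Ryser theorem.

`a : Fin n → ℕ` is nonincreasing with sum `n` (so `a j ≤ n`), `a' i = #{j // i < a j}` its conjugate.
Since `a` is nonincreasing, `j < a' i ↔ i < a j` (for `i j : Fin n`).
For a set `M` with row sums `a'` and column sums `b`:
`∑_{j < k} b j = ∑_i #{j < k // (i, j) ∈ M} ≤ ∑_i min k (a' i) = ∑_i #{j // j < k ∧ j < a' i}
 = ∑_i #{j < k // i < a j} = ∑_{j < k} min (a j) n = ∑_{j < k} a j`.
If `b = a`, equality holds for all `k`, so `#{j < k // (i, j) ∈ M} = min k (a' i)` for all `i` and `k`,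
so `M = {(i, j) // j < a' i} = {(i, j) // i < a j}`, and this set does have row sums `a'` and column
sums `a`.  So `MM a' a = 1`.
-/

namespace Pool.Agent.H3.SF

/-- number of the elements smaller than `k` -/
def cnt {n : ℕ} (R : Finset (Fin n)) (k : ℕ) : ℕ := (R.filter (fun j : Fin n => (j : ℕ) < k)).card

/-- the `i`-th row of `M` -/
def row {n : ℕ} (M : Finset (Fin n × Fin n)) (i : Fin n) : Finset (Fin n) :=
  Finset.univ.filter (fun j => (i, j) ∈ M)

theorem card_row {n : ℕ} (M : Finset (Fin n × Fin n)) (i : Fin n) :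
    (row M i).card = (M.filter (fun p => p.1 = i)).card := by
  apply Finset.card_bij (fun j _ => (i, j))
  · intro j hj
    simp only [row, Finset.mem_filter, Finset.mem_univ, true_and] at hj
    simp [hj]
  · intro j _ l _ h
    exact (Prod.ext_iff.1 h).2
  · intro p hp
    simp only [Finset.mem_filter] at hp
    refine ⟨p.2, ?_, ?_⟩
    · simp only [row, Finset.mem_filter, Finset.mem_univ, true_and]
      rw [← hp.2]
      exact hp.1
    · rw [← hp.2]

theorem sum_cols {n : ℕ} (M : Finset (Fin n × Fin n)) (k : ℕ) :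
    ∑ j ∈ Finset.univ.filter (fun j : Fin n => (j : ℕ) < k), (M.filter (fun p => p.2 = j)).card =
      ∑ i, cnt (row M i) k := by
  have h1 : (M.filter (fun p => (p.2 : ℕ) < k)).card =
      ∑ j ∈ Finset.univ.filter (fun j : Fin n => (j : ℕ) < k), (M.filter (fun p => p.2 = j)).card := by
    rw [Finset.card_eq_sum_card_fiberwise (f := Prod.snd)
      (t := Finset.univ.filter (fun j : Fin n => (j : ℕ) < k))]
    · apply Finset.sum_congr rfl
      intro j hj
      simp only [Finset.mem_filter, Finset.mem_univ, true_and] at hj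
      congr 1
      ext p
      simp only [Finset.mem_filter]
      constructor
      · rintro ⟨⟨h1, _⟩, h3⟩
        exact ⟨h1, h3⟩
      · rintro ⟨h1, h3⟩
        refine ⟨⟨h1, ?_⟩, h3⟩
        rw [h3]
        exact hj
    · intro p hp
      simp only [Finset.coe_filter, Set.mem_ofPred_eq] at hp
      simp [hp.2]
  have h2 : (M.filter (fun p => (p.2 : ℕ) < k)).card = ∑ i, cnt (row M i) k := by
    rw [Finset.card_eq_sum_card_fiberwise (f := Prod.fst) (t := Finset.univ)]
    · apply Finset.sum_congr rfl
      intro i _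
      symm
      unfold cnt
      apply Finset.card_bij (fun j _ => (i, j))
      · intro j hj
        simp only [row, Finset.mem_filter, Finset.mem_univ, true_and] at hj
        simp [hj.1, hj.2]
      · intro j _ l _ h
        exact (Prod.ext_iff.1 h).2
      · intro p hp
        simp only [Finset.mem_filter] at hp
        refine ⟨p.2, ?_, ?_⟩
        · simp only [row, Finset.mem_filter, Finset.mem_univ, true_and]
          rw [← hp.2]
          exact hp.1
        · rw [← hp.2]
    · intro p _
      simp
  rw [← h1, h2]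

/-- an initial segment `A` has at least as many elements below `k` as any set with the same number of
elements -/
theorem cnt_le {n : ℕ} (A R : Finset (Fin n)) (hA : ∀ j l : Fin n, l ≤ j → j ∈ A → l ∈ A)
    (hc : R.card = A.card) (k : ℕ) : cnt R k ≤ cnt A k := by
  unfold cnt
  by_cases h : ∀ j : Fin n, (j : ℕ) < k → j ∈ A
  · apply Finset.card_le_card
    intro j hj
    simp only [Finset.mem_filter] at hj ⊢
    exact ⟨h j hj.2, hj.2⟩
  · push Not at h
    obtain ⟨j, hj, hjA⟩ := h
    have h1 : A.filter (fun j : Fin n => (j : ℕ) < k) = A := by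
      apply Finset.filter_true_of_mem
      intro l hl
      by_contra hlk
      apply hjA
      apply hA l j _ hl
      rw [Fin.le_def]
      omega
    rw [h1, ← hc]
    exact Finset.card_le_card (Finset.filter_subset _ _)

theorem cnt_succ {n : ℕ} (R : Finset (Fin n)) (j : Fin n) :
    cnt R ((j : ℕ) + 1) = cnt R j + if j ∈ R then 1 else 0 := by
  unfold cnt
  have h : R.filter (fun l : Fin n => (l : ℕ) < (j : ℕ) + 1) =
      R.filter (fun l : Fin n => (l : ℕ) < (j : ℕ)) ∪ R.filter (fun l => l = j) := by
    ext l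
    simp only [Finset.mem_filter, Finset.mem_union]
    constructor
    · rintro ⟨h1, h2⟩
      rcases Nat.lt_succ_iff_lt_or_eq.1 h2 with h3 | h3
      · exact Or.inl ⟨h1, h3⟩
      · exact Or.inr ⟨h1, Fin.ext h3⟩
    · rintro (⟨h1, h2⟩ | ⟨h1, h2⟩)
      · exact ⟨h1, by omega⟩
      · subst h2
        exact ⟨h1, by omega⟩
  rw [h, Finset.card_union_of_disjoint]
  · congr 1
    rw [Finset.filter_eq']
    split_ifs <;> simp
  · rw [Finset.disjoint_left]
    intro l hl hl2
    simp only [Finset.mem_filter] at hl hl2
    rw [hl2.2] at hl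
    omega

theorem ryser {n : ℕ} (a : Fin n → ℕ) (ha : Antitone a) (hs : ∑ i, a i = n) :
    MM (fun i : Fin n => Nat.card {j : Fin n // (i : ℕ) < a j}) a = 1 ∧
    ∀ b : Fin n → ℕ, MM (fun i : Fin n => Nat.card {j : Fin n // (i : ℕ) < a j}) b ≠ 0 →
      ∀ k : ℕ, ∑ j ∈ Finset.univ.filter (fun j : Fin n => (j : ℕ) < k), b j ≤
        ∑ j ∈ Finset.univ.filter (fun j : Fin n => (j : ℕ) < k), a j := by
  classical
  have han : ∀ j, a j ≤ n := by
    intro j
    calc a j ≤ ∑ i, a i := Finset.single_le_sum (fun i _ => Nat.zero_le (a i)) (Finset.mem_univ j)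
      _ = n := hs
  set A : Finset (Fin n × Fin n) := Finset.univ.filter (fun p => (p.1 : ℕ) < a p.2) with hA
  have hrowA : ∀ i, row A i = Finset.univ.filter (fun j => (i : ℕ) < a j) := by
    intro i
    simp [row, hA]
  have hrow : ∀ i : Fin n, Nat.card {j : Fin n // (i : ℕ) < a j} = (row A i).card := by
    intro i
    rw [hrowA, Nat.card_eq_fintype_card, Fintype.card_subtype]
  have hcolA : ∀ j, (A.filter (fun p => p.2 = j)).card = a j := by
    intro j
    have h1 : (A.filter (fun p => p.2 = j)).card =
        (Finset.univ.filter (fun i : Fin n => (i : ℕ) < a j)).card := by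
      symm
      apply Finset.card_bij (fun i _ => (i, j))
      · intro i hi
        simp only [Finset.mem_filter, Finset.mem_univ, true_and] at hi
        simp [hA, hi]
      · intro i _ l _ h
        exact (Prod.ext_iff.1 h).1
      · intro p hp
        simp only [hA, Finset.mem_filter, Finset.mem_univ, true_and] at hp
        refine ⟨p.1, ?_, ?_⟩
        · simp only [Finset.mem_filter, Finset.mem_univ, true_and]
          rw [← hp.2]
          exact hp.1
        · rw [← hp.2]
    rw [h1, Fin.card_filter_val_lt]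
    exact min_eq_right (han j)
  have hdown : ∀ i, ∀ j l : Fin n, l ≤ j → j ∈ row A i → l ∈ row A i := by
    intro i j l hlj hj
    rw [hrowA] at hj ⊢
    simp only [Finset.mem_filter, Finset.mem_univ, true_and] at hj ⊢
    exact lt_of_lt_of_le hj (ha hlj)
  have hsumA : ∀ k : ℕ, ∑ j ∈ Finset.univ.filter (fun j : Fin n => (j : ℕ) < k), a j =
      ∑ i, cnt (row A i) k := by
    intro k
    rw [← sum_cols A k]
    exact Finset.sum_congr rfl fun j _ => (hcolA j).symm
  have hle : ∀ (M : Finset (Fin n × Fin n)),
      (∀ i, (M.filter (fun p => p.1 = i)).card = Nat.card {j : Fin n // (i : ℕ) < a j}) →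
      ∀ i k, cnt (row M i) k ≤ cnt (row A i) k := by
    intro M hM i k
    apply cnt_le (row A i) (row M i) (hdown i)
    rw [card_row, hM i, hrow i]
  constructor
  · unfold MM
    rw [Nat.card_eq_one_iff_unique]
    refine ⟨⟨?_⟩, ⟨⟨A, fun i => ?_, hcolA⟩⟩⟩
    · have key : ∀ M : Finset (Fin n × Fin n),
          (∀ i, (M.filter (fun p => p.1 = i)).card = Nat.card {j : Fin n // (i : ℕ) < a j}) →
          (∀ j, (M.filter (fun p => p.2 = j)).card = a j) → M = A := by
        intro M h1 h2
        have heq : ∀ i k, cnt (row M i) k = cnt (row A i) k := by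
          intro i k
          have hsum : ∑ i, cnt (row M i) k = ∑ i, cnt (row A i) k := by
            rw [← hsumA k, ← sum_cols M k]
            exact Finset.sum_congr rfl fun j _ => h2 j
          exact (Finset.sum_eq_sum_iff_of_le fun i _ => hle M h1 i k).1 hsum i (Finset.mem_univ i)
        ext ⟨i, j⟩
        have e1 := cnt_succ (row M i) j
        have e2 := cnt_succ (row A i) j
        rw [heq i, heq i] at e1
        have e3 : (if j ∈ row M i then 1 else 0) = (if j ∈ row A i then 1 else 0) := by omega
        have m1 : j ∈ row M i ↔ (i, j) ∈ M := by simp [row]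
        have m2 : j ∈ row A i ↔ (i, j) ∈ A := by simp [row]
        rw [← m1, ← m2]
        by_cases c1 : j ∈ row M i <;> by_cases c2 : j ∈ row A i <;> simp_all
      rintro ⟨M, hM1, hM2⟩ ⟨M', hM1', hM2'⟩
      apply Subtype.ext
      exact (key M hM1 hM2).trans (key M' hM1' hM2').symm
    · rw [← card_row]
      exact (hrow i).symm
  · intro b hb k
    unfold MM at hb
    have hne : Nonempty {M : Finset (Fin n × Fin n) // (∀ i, (M.filter (fun p => p.1 = i)).card =
        Nat.card {j : Fin n // (i : ℕ) < a j}) ∧ ∀ j, (M.filter (fun p => p.2 = j)).card = b j} := by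
      by_contra hemp
      rw [not_nonempty_iff] at hemp
      exact hb Nat.card_of_isEmpty
    obtain ⟨M, hM1, hM2⟩ := hne
    rw [hsumA k]
    calc ∑ j ∈ Finset.univ.filter (fun j : Fin n => (j : ℕ) < k), b j
        = ∑ j ∈ Finset.univ.filter (fun j : Fin n => (j : ℕ) < k),
          (M.filter (fun p => p.2 = j)).card := Finset.sum_congr rfl fun j _ => (hM2 j).symm
      _ = ∑ i, cnt (row M i) k := sum_cols M k
      _ ≤ ∑ i, cnt (row A i) k := Finset.sum_le_sum fun i _ => hle M hM1 i k

end Pool.Agent.H3.SF
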