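import Mathlib
import Pool.Agent.H3.SF.Ryser
import Pool.Agent.H3.SF.Part

/-!
Project SF (MP_1f4fc7_nt), job SF-18.  Class functions of `S_n` with integral signed pairings are
integral combinations of the Young permutation characters.

For a partition `μ` put `π μ := pc (rr μ)`.  For partitions `κ, ν`:
`mean (sign * π κ * π ν) = MM (rr κ) (rr ν)` (`pair_count`, `rr_sum`, `Fintype.card_perm`).
(T) (triangularity) For a partition `μ` let `μ'` be a partition with `rr μ'` the conjugate of
`rr μ` (`exists_rr_conj`).  By `ryser`: `MM (rr μ') (rr μ) = 1`, and `MM (rr μ') (rr ν) ≠ 0` implies that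
all the partial sums of `rr ν` are `≤` those of `rr μ`.  Put `Φ μ := ∑_{k ≤ n} ∑_{j < k} rr μ j`.  So if
`MM (rr μ') (rr ν) ≠ 0` then `Φ ν ≤ Φ μ`, with equality only if all the partial sums agree, i.e.
`rr ν = rr μ`, i.e. `ν = μ` (`rr_injective`).
(I) Let `c : Partition → ℝ`, and suppose `∑_ν c ν * MM (rr κ) (rr ν)` is an integer for all `κ` (resp.
is `0` for all `κ`).  Then all `c μ` are integers (resp. `0`): strong induction on `Φ μ`, with
`κ = μ'`: `c μ = (∑_ν c ν MM (rr μ') (rr ν)) - ∑_{ν, Φ ν < Φ μ} c ν MM (rr μ') (rr ν)`.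
(S) The linear map `L : (Partition → ℝ) → (Partition → ℝ)`,
`L c κ := ∑_μ c μ * π μ (g_κ)`, `g_κ` a permutation of `Fin n` with partition `κ`, is injective: if
`L c = 0` then the class function `∑ c μ * π μ` (`isPR_pc`, `IsPR.conj`) vanishes on all of `S_n` (every `g` is
conjugate to `g_κ`, `κ = g.partition`: `Equiv.Perm.partition_eq_of_isConj`,
`Equiv.Perm.isConj_iff_cycleType_eq`, existence: `Equiv.Perm.exists_with_cycleType_iff` for
`κ.parts.filter (2 ≤ ·)`), so its signed pairings with all `π κ` vanish and `c = 0` by (I).  So `L` is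
surjective (`LinearMap.injective_iff_surjective`, finite dimension), so `θ = ∑_μ c μ * π μ` for real
`c μ`.  Pair with `sign * π κ`: by `hint` and (I), all `c μ` are integers, so `θ` is `IsPR`
(`isPR_int`, `IsPR.mul`, `IsPR.add` over a finite sum).
-/

namespace Pool.Agent.H3.SF

/-- partial sums -/
noncomputable def span_ps {n : ℕ} (μ : n.Partition) (k : ℕ) : ℕ :=
  ∑ j ∈ Finset.univ.filter (fun j : Fin n => (j : ℕ) < k), rr μ j

theorem span_ps_succ {n : ℕ} (μ : n.Partition) (i : Fin n) :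
    span_ps μ ((i : ℕ) + 1) = span_ps μ i + rr μ i := by
  classical
  unfold span_ps
  have h : Finset.univ.filter (fun j : Fin n => (j : ℕ) < (i : ℕ) + 1) =
      insert i (Finset.univ.filter (fun j : Fin n => (j : ℕ) < (i : ℕ))) := by
    ext j
    simp only [Finset.mem_filter, Finset.mem_univ, true_and, Finset.mem_insert]
    constructor
    · intro h
      rcases Nat.lt_succ_iff_lt_or_eq.1 h with h | h
      · exact Or.inr h
      · exact Or.inl (Fin.ext h)
    · rintro (h | h)
      · rw [h]; omega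
      · omega
  rw [h, Finset.sum_insert (by simp), add_comm]

/-- the potential -/
noncomputable def span_pot {n : ℕ} (μ : n.Partition) : ℕ := ∑ k ∈ Finset.range (n + 1), span_ps μ k

theorem span_pot_lt {n : ℕ} {μ ν : n.Partition} (h : ∀ k, span_ps ν k ≤ span_ps μ k) (hne : ν ≠ μ) :
    span_pot ν < span_pot μ := by
  classical
  unfold span_pot
  by_contra hcon
  have h1 : ∑ k ∈ Finset.range (n + 1), span_ps ν k = ∑ k ∈ Finset.range (n + 1), span_ps μ k :=
    le_antisymm (Finset.sum_le_sum fun k _ => h k) (not_lt.1 hcon)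
  have h2 := (Finset.sum_eq_sum_iff_of_le (fun k _ => h k)).1 h1
  apply hne
  apply rr_injective
  funext i
  have e1 := span_ps_succ μ i
  have e2 := span_ps_succ ν i
  have e3 := h2 i (Finset.mem_range.2 (by have := i.2; omega))
  have e4 := h2 (i + 1) (Finset.mem_range.2 (by have := i.2; omega))
  omega

/-- triangularity -/
theorem span_tri {n : ℕ} (S : AddSubgroup ℝ) (c : n.Partition → ℝ)
    (h : ∀ κ : n.Partition, ∑ ν, c ν * (MM (rr κ) (rr ν) : ℝ) ∈ S) : ∀ μ, c μ ∈ S := by
  classical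
  have key : ∀ m : ℕ, ∀ μ : n.Partition, span_pot μ = m → c μ ∈ S := by
    intro m
    induction m using Nat.strong_induction_on with
    | _ m ih =>
      intro μ hμ
      obtain ⟨κ, hκ⟩ := exists_rr_conj μ
      obtain ⟨hr1, hr2⟩ := ryser (rr μ) (rr_antitone μ) (rr_sum μ)
      rw [← hκ] at hr1 hr2
      have h1 := h κ
      rw [← Finset.add_sum_erase Finset.univ _ (Finset.mem_univ μ), hr1] at h1
      have h2 : ∑ ν ∈ Finset.univ.erase μ, c ν * (MM (rr κ) (rr ν) : ℝ) ∈ S := by
        apply AddSubgroup.sum_mem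
        intro ν hν
        by_cases h0 : MM (rr κ) (rr ν) = 0
        · rw [h0]
          simp
        · have h3 : span_pot ν < span_pot μ :=
            span_pot_lt (fun k => hr2 (rr ν) h0 k) (Finset.ne_of_mem_erase hν)
          have h4 := ih (span_pot ν) (hμ ▸ h3) ν rfl
          have h5 := S.nsmul_mem h4 (MM (rr κ) (rr ν))
          rwa [nsmul_eq_mul, mul_comm] at h5
      have h3 := S.sub_mem h1 h2
      simpa using h3
  exact fun μ => key _ μ rfl

/-- the class of a permutation -/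
def span_cls {n : ℕ} (g : Equiv.Perm (Fin n)) : n.Partition where
  parts := (Equiv.Perm.partition g).parts
  parts_pos := (Equiv.Perm.partition g).parts_pos
  parts_sum := by rw [(Equiv.Perm.partition g).parts_sum, Fintype.card_fin]

theorem span_cls_conj {n : ℕ} {g h : Equiv.Perm (Fin n)} (hgh : span_cls g = span_cls h) : IsConj g h := by
  rw [Equiv.Perm.partition_eq_of_isConj]
  apply Nat.Partition.ext
  exact congrArg (fun x : n.Partition => x.parts) hgh

theorem span_pairing {n : ℕ} (c : n.Partition → ℝ) (κ : n.Partition) :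
    mean (fun g => (∑ μ, c μ * pc (rr μ) g) * (((Equiv.Perm.sign g : ℤˣ) : ℤ) : ℝ) * pc (rr κ) g) =
      ∑ μ, c μ * (MM (rr κ) (rr μ) : ℝ) := by
  unfold mean
  have h1 : ∑ g : Equiv.Perm (Fin n), (∑ μ, c μ * pc (rr μ) g) * (((Equiv.Perm.sign g : ℤˣ) : ℤ) : ℝ) *
      pc (rr κ) g = ∑ μ, c μ * ((n.factorial : ℝ) * MM (rr κ) (rr μ)) := by
    have h2 : ∀ g : Equiv.Perm (Fin n), (∑ μ, c μ * pc (rr μ) g) * (((Equiv.Perm.sign g : ℤˣ) : ℤ) : ℝ) *
        pc (rr κ) g = ∑ μ, c μ * ((((Equiv.Perm.sign g : ℤˣ) : ℤ) : ℝ) * pc (rr κ) g * pc (rr μ) g) := by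
      intro g
      rw [Finset.sum_mul, Finset.sum_mul]
      refine Finset.sum_congr rfl fun μ _ => ?_
      ring
    rw [Finset.sum_congr rfl fun g _ => h2 g, Finset.sum_comm]
    refine Finset.sum_congr rfl fun μ _ => ?_
    rw [← Finset.mul_sum, pair_count _ _ (rr_sum κ)]
  rw [h1, Fintype.card_perm, Fintype.card_fin]
  have h3 : (n.factorial : ℝ) ≠ 0 := by exact_mod_cast n.factorial_ne_zero
  rw [div_eq_iff h3, Finset.sum_mul]
  refine Finset.sum_congr rfl fun μ _ => ?_
  ring

theorem span_isPR_sum {n : ℕ} (c : n.Partition → ℝ) (hc : ∀ μ, ∃ z : ℤ, c μ = z) (s : Finset n.Partition) :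
    IsPR (fun g : Equiv.Perm (Fin n) => ∑ μ ∈ s, c μ * pc (rr μ) g) := by
  classical
  induction s using Finset.induction_on with
  | empty =>
    have h := isPR_int (Γ := Equiv.Perm (Fin n)) 0
    simpa using h
  | insert μ s hμ ih =>
    obtain ⟨z, hz⟩ := hc μ
    have h1 : IsPR (fun g : Equiv.Perm (Fin n) => c μ * pc (rr μ) g) := by
      rw [hz]
      exact (isPR_int z).mul (isPR_pc (rr μ))
    have h2 := h1.add ih
    have h3 : (fun g : Equiv.Perm (Fin n) => ∑ μ ∈ insert μ s, c μ * pc (rr μ) g) =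
        fun g => c μ * pc (rr μ) g + ∑ μ ∈ s, c μ * pc (rr μ) g := by
      funext g
      rw [Finset.sum_insert hμ]
    rw [h3]
    exact h2

theorem span {n : ℕ} (θ : Equiv.Perm (Fin n) → ℝ) (hc : ∀ h g, θ (h * g * h⁻¹) = θ g)
    (hint : ∀ a : Fin n → ℕ, ∑ i, a i = n → ∃ z : ℤ,
      mean (fun g => θ g * (((Equiv.Perm.sign g : ℤˣ) : ℤ) : ℝ) * pc a g) = z) : IsPR θ := by
  classical
  -- representatives of the classes
  let rep : n.Partition → Equiv.Perm (Fin n) := fun κ =>
    if h : ∃ g : Equiv.Perm (Fin n), span_cls g = κ then h.choose else 1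
  have hrep : ∀ g : Equiv.Perm (Fin n), IsConj (rep (span_cls g)) g := by
    intro g
    have h : ∃ g' : Equiv.Perm (Fin n), span_cls g' = span_cls g := ⟨g, rfl⟩
    have h1 : rep (span_cls g) = h.choose := dif_pos h
    rw [h1]
    exact span_cls_conj h.choose_spec
  have hcl : ∀ f : Equiv.Perm (Fin n) → ℝ, (∀ h g, f (h * g * h⁻¹) = f g) →
      ∀ g, f g = f (rep (span_cls g)) := by
    intro f hf g
    obtain ⟨u, hu⟩ := isConj_iff.1 (hrep g)
    calc f g = f (u * rep (span_cls g) * u⁻¹) := by rw [hu]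
      _ = f (rep (span_cls g)) := hf _ _
  have hcs : ∀ c : n.Partition → ℝ, ∀ h g : Equiv.Perm (Fin n),
      ∑ μ, c μ * pc (rr μ) (h * g * h⁻¹) = ∑ μ, c μ * pc (rr μ) g := by
    intro c h g
    refine Finset.sum_congr rfl fun μ _ => ?_
    rw [(isPR_pc (rr μ)).conj h g]
  let L : (n.Partition → ℝ) →ₗ[ℝ] (n.Partition → ℝ) :=
    { toFun := fun c κ => ∑ μ, c μ * pc (rr μ) (rep κ)
      map_add' := by
        intro c d
        funext κ
        simp only [Pi.add_apply, add_mul, Finset.sum_add_distrib]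
      map_smul' := by
        intro r c
        funext κ
        simp only [Pi.smul_apply, smul_eq_mul, RingHom.id_apply, Finset.mul_sum, mul_assoc] }
  have hLinj : Function.Injective L := by
    rw [injective_iff_map_eq_zero]
    intro c h0
    have h1 : ∀ g, ∑ μ, c μ * pc (rr μ) g = 0 := by
      intro g
      rw [hcl (fun g => ∑ μ, c μ * pc (rr μ) g) (hcs c) g]
      exact congrFun h0 (span_cls g)
    have h2 : ∀ κ : n.Partition, ∑ ν, c ν * (MM (rr κ) (rr ν) : ℝ) ∈ (⊥ : AddSubgroup ℝ) := by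
      intro κ
      rw [← span_pairing c κ, AddSubgroup.mem_bot]
      unfold mean
      rw [Finset.sum_eq_zero, zero_div]
      intro g _
      rw [h1 g]
      ring
    funext μ
    exact AddSubgroup.mem_bot.1 (span_tri ⊥ c h2 μ)
  have hLsurj : Function.Surjective L := LinearMap.injective_iff_surjective.1 hLinj
  obtain ⟨c, hLc⟩ := hLsurj (fun κ => θ (rep κ))
  have hθ : ∀ g, θ g = ∑ μ, c μ * pc (rr μ) g := by
    intro g
    rw [hcl θ hc g, hcl (fun g => ∑ μ, c μ * pc (rr μ) g) (hcs c) g]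
    exact (congrFun hLc (span_cls g)).symm
  have hint' : ∀ μ, c μ ∈ (Int.castAddHom ℝ).range := by
    apply span_tri
    intro κ
    obtain ⟨z, hz⟩ := hint (rr κ) (rr_sum κ)
    refine ⟨z, ?_⟩
    rw [← span_pairing c κ]
    have h3 : (fun g => (∑ μ, c μ * pc (rr μ) g) * (((Equiv.Perm.sign g : ℤˣ) : ℤ) : ℝ) * pc (rr κ) g) =
        fun g => θ g * (((Equiv.Perm.sign g : ℤˣ) : ℤ) : ℝ) * pc (rr κ) g := by
      funext g
      rw [hθ g]
    rw [h3, hz]
    rfl
  have h4 := span_isPR_sum c (fun μ => by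
    obtain ⟨z, hz⟩ := hint' μ
    exact ⟨z, hz.symm⟩) Finset.univ
  have h5 : θ = fun g => ∑ μ, c μ * pc (rr μ) g := funext hθ
  rw [h5]
  exact h4

end Pool.Agent.H3.SF
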