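import Mathlib
import Pool.Agent.H3.TatePole.Orbits
import Pool.Agent.H3.TatePole.Stab
import Pool.Agent.H3.SF.Basic

/-!
Project SF (MP_1f4fc7_nt), job SF-20.  Galois theory inside a finite normal extension `M / k`.

`HK M K` is the image of `Gal(Ω/K)` in `Gal(M/k)`.

* `PP_eq_fix`: `PP K 𝔭 = degOne k K 𝔭` (`PP_eq`) is, for all but finitely many `𝔭`
  (`degOne_eq_fix`, `splits_intermediate`), the number of `τ : K →ₐ[k] Ω` with `φ ∘ τ = τ`,
  `φ = (frobeniusAt Ω 𝔭).φ`.  The map `Gal(Ω/k) → (K →ₐ[k] Ω)`, `γ ↦ resHom K γ` is surjective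
  (`resHom_surjective`) with fibres the cosets of `K.fixingSubgroup` (`resHom_eq_iff`), and the kernel of
  `Gal(Ω/k) → Gal(M/k)` is `M.fixingSubgroup ≤ K.fixingSubgroup` as `K ≤ M`
  (`IntermediateField.restrictNormalHom_ker`), so `K →ₐ[k] Ω` is in bijection with
  `Gal(M/k) ⧸ HK M K`, compatibly with the action of `φ` (`resHom_mul`).
* `exists_HK`: for a subgroup `H` of `Gal(M/k)` let `K` be the fixed field in `Ω` of the preimage of
  `H` in `Gal(Ω/k)`; the preimage contains `M.fixingSubgroup`, so it is open, hence closed, and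
  `K.fixingSubgroup` is the preimage of `H` (see `fixingSubgroup_ptField` in
  `TatePole/Orbits.lean` for the same argument), `K ≤ M`, `K` is finite over `k`, and
  `HK M K = H` by surjectivity (`AlgEquiv.restrictNormalHom_surjective`).
* `HK_le_iff`: `E ≤ K ↔ K.fixingSubgroup ≤ E.fixingSubgroup ↔ HK M K ≤ HK M E` (both contain
  `M.fixingSubgroup`, the kernel of the restriction).
* `HK_index`: `(HK M E).index = [E : k]` (`index` of the preimage `E.fixingSubgroup`;
  `IntermediateField.finrank_eq_fixingSubgroup_index`-like lemma, or through `Gal(M/k) ⧸ HK M E ≃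
  (E →ₐ[k] Ω)` and `AlgHom.card`).
-/

open NumberField IsDedekindDomain Filter Topology Module

namespace Pool.Agent.H3.SF

open TatePole

variable {k : Type*} [Field k] [NumberField k] {Ω : Type*} [Field Ω] [Algebra k Ω] [IsGalois k Ω]

/-- the subgroup of `Gal(M/k)` attached to an intermediate field `K` -/
noncomputable def HK (M : IntermediateField k Ω) [Normal k M] (K : IntermediateField k Ω) :
    Subgroup Gal(M/k) := K.fixingSubgroup.map (AlgEquiv.restrictNormalHom (F := k) (K₁ := Ω) M)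

omit [NumberField k] in
theorem gal_surj (M : IntermediateField k Ω) [Normal k M] :
    Function.Surjective (AlgEquiv.restrictNormalHom (F := k) (K₁ := Ω) M) :=
  AlgEquiv.restrictNormalHom_surjective (F := k) (K₁ := M) Ω

omit [NumberField k] [IsGalois k Ω] in
theorem gal_comap (M : IntermediateField k Ω) [Normal k M] {K : IntermediateField k Ω} (hK : K ≤ M) :
    (HK M K).comap (AlgEquiv.restrictNormalHom (F := k) (K₁ := Ω) M) = K.fixingSubgroup := by
  unfold HK
  rw [Subgroup.comap_map_eq, IntermediateField.restrictNormalHom_ker]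
  exact sup_eq_left.2 (IntermediateField.fixingSubgroup_le hK)

theorem gal_mk_eq (M : IntermediateField k Ω) [Normal k M] {K : IntermediateField k Ω} (hK : K ≤ M)
    (γ γ' : Gal(Ω/k)) :
    ((AlgEquiv.restrictNormalHom (F := k) (K₁ := Ω) M γ : Gal(M/k)) : Gal(M/k) ⧸ HK M K) =
      (AlgEquiv.restrictNormalHom (F := k) (K₁ := Ω) M γ' : Gal(M/k)) ↔ resHom K γ = resHom K γ' := by
  rw [QuotientGroup.eq, resHom_eq_iff, ← map_inv, ← map_mul, ← Subgroup.mem_comap, gal_comap M hK]

theorem gal_card_fix (M : IntermediateField k Ω) [Normal k M] (K : IntermediateField k Ω)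
    (hK : K ≤ M) (φ : Gal(Ω/k)) :
    Nat.card {τ : K →ₐ[k] Ω // (φ : Ω →ₐ[k] Ω).comp τ = τ} =
      Nat.card {x : Gal(M/k) ⧸ HK M K // (AlgEquiv.restrictNormalHom (F := k) (K₁ := Ω) M φ) • x = x} := by
  classical
  set ρ := AlgEquiv.restrictNormalHom (F := k) (K₁ := Ω) M with hρ
  have hsurj := resHom_surjective (k := k) (Ω := Ω) K
  let g : (K →ₐ[k] Ω) → Gal(Ω/k) := fun τ => (hsurj τ).choose
  have hg : ∀ τ, resHom K (g τ) = τ := fun τ => (hsurj τ).choose_spec
  have key : ∀ γ : Gal(Ω/k), (φ : Ω →ₐ[k] Ω).comp (resHom K γ) = resHom K γ ↔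
      ρ φ • ((ρ γ : Gal(M/k)) : Gal(M/k) ⧸ HK M K) = ((ρ γ : Gal(M/k)) : Gal(M/k) ⧸ HK M K) := by
    intro γ
    rw [← resHom_mul, ← gal_mk_eq M hK, map_mul]
    rfl
  refine Nat.card_congr (Equiv.ofBijective (fun τ => ⟨((ρ (g τ.1) : Gal(M/k)) : Gal(M/k) ⧸ HK M K), ?_⟩)
    ⟨?_, ?_⟩)
  · rw [← key, hg]
    exact τ.2
  · rintro ⟨τ, hτ⟩ ⟨τ', hτ'⟩ h
    have h1 : ((ρ (g τ) : Gal(M/k)) : Gal(M/k) ⧸ HK M K) = ((ρ (g τ') : Gal(M/k)) : Gal(M/k) ⧸ HK M K) :=
      congrArg Subtype.val h
    rw [gal_mk_eq M hK, hg, hg] at h1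
    exact Subtype.ext h1
  · rintro ⟨x, hx⟩
    induction x using QuotientGroup.induction_on with
    | H y =>
      obtain ⟨γ, rfl⟩ := gal_surj M y
      refine ⟨⟨resHom K γ, (key γ).2 hx⟩, ?_⟩
      apply Subtype.ext
      show ((ρ (g (resHom K γ)) : Gal(M/k)) : Gal(M/k) ⧸ HK M K) = ((ρ γ : Gal(M/k)) : Gal(M/k) ⧸ HK M K)
      rw [gal_mk_eq M hK, hg]

theorem PP_eq_fix (M : IntermediateField k Ω) [FiniteDimensional k M] [Normal k M]
    (K : IntermediateField k Ω) [FiniteDimensional k K] (hK : K ≤ M) :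
    {𝔭 : HeightOneSpectrum (𝓞 k) | PP K 𝔭 ≠ (Nat.card {x : Gal(M/k) ⧸ HK M K //
      (AlgEquiv.restrictNormalHom (F := k) (K₁ := Ω) M (frobeniusAt Ω 𝔭).φ) • x = x} : ℝ)}.Finite := by
  refine (degOne_eq_fix (Ω := Ω) (k := k) K (splits_intermediate K)).subset fun 𝔭 h𝔭 => ?_
  intro h1
  apply h𝔭
  rw [PP_eq]
  beta_reduce
  rw [h1, gal_card_fix M K hK]

theorem exists_HK (M : IntermediateField k Ω) [FiniteDimensional k M] [Normal k M]
    (H : Subgroup Gal(M/k)) :
    ∃ K : IntermediateField k Ω, K ≤ M ∧ FiniteDimensional k K ∧ HK M K = H := by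
  set ρ := AlgEquiv.restrictNormalHom (F := k) (K₁ := Ω) M with hρ
  have h1 : M.fixingSubgroup ≤ H.comap ρ := by
    rw [← IntermediateField.restrictNormalHom_ker M]
    exact Subgroup.ker_le_comap ρ H
  have h2 : IsOpen ((H.comap ρ : Subgroup Gal(Ω/k)) : Set Gal(Ω/k)) :=
    Subgroup.isOpen_mono h1 M.fixingSubgroup_isOpen
  have h3 := Subgroup.isClosed_of_isOpen _ h2
  have h4 : (IntermediateField.fixedField (H.comap ρ)).fixingSubgroup = H.comap ρ :=
    InfiniteGalois.fixingSubgroup_fixedField ⟨_, h3⟩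
  have h5 : IntermediateField.fixedField (H.comap ρ) ≤ M := by
    have h6 := IntermediateField.fixedField_antitone h1
    rw [InfiniteGalois.fixedField_fixingSubgroup] at h6
    exact h6
  refine ⟨IntermediateField.fixedField (H.comap ρ), h5, finiteDimensional_of_le' h5, ?_⟩
  unfold HK
  rw [h4]
  exact Subgroup.map_comap_eq_self_of_surjective (gal_surj M) H

theorem HK_le_iff (M : IntermediateField k Ω) [FiniteDimensional k M] [Normal k M]
    {K E : IntermediateField k Ω} (hK : K ≤ M) (hE : E ≤ M) : HK M K ≤ HK M E ↔ E ≤ K := by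
  constructor
  · intro h
    have h1 := Subgroup.comap_mono (f := AlgEquiv.restrictNormalHom (F := k) (K₁ := Ω) M) h
    rw [gal_comap M hK, gal_comap M hE] at h1
    have h2 := IntermediateField.fixedField_antitone h1
    rw [InfiniteGalois.fixedField_fixingSubgroup, InfiniteGalois.fixedField_fixingSubgroup] at h2
    exact h2
  · intro h
    exact Subgroup.map_mono (IntermediateField.fixingSubgroup_le h)

theorem HK_index (M : IntermediateField k Ω) [FiniteDimensional k M] [Normal k M]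
    {E : IntermediateField k Ω} (hE : E ≤ M) : (HK M E).index = finrank k E := by
  rw [← Subgroup.index_comap_of_surjective (HK M E) (gal_surj M), gal_comap M hE,
    IntermediateField.finrank_eq_fixingSubgroup_index]

end Pool.Agent.H3.SF
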