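import Mathlib
import Pool.Agent.H3.SF.Basic

/-!
Project SF (MP_1f4fc7_nt), job SF-19.  Class functions with integral means over all subgroups.

* `mean_fix_coset`: `∑_g θ g #{x ∈ Γ/H // g x = x} = ∑_{xH} ∑_{g ∈ x H x⁻¹} θ g = [Γ : H] ∑_{h ∈ H} θ h` for a
  class function `θ` (the stabilizer of the coset `x H` is `x H x⁻¹`), divide by `#Γ`.
* `mean_mul_int`: for a permutation character `f` of a finite `Γ`-set `X`,
  `mean (θ f) = (1/#Γ) ∑_{x ∈ X} ∑_{g ∈ Stab x} θ g = ∑_x (#Stab x / #Γ) meanH (Stab x) θ`, and the sum of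
  `#Stab x / #Γ = 1 / #(orbit x)` over one orbit is `1`, on which `meanH (Stab x) θ` is constant
  (conjugate stabilizers).  So `mean (θ f) = ∑_{orbits} meanH (Stab x) θ` is an integer.  (Or
  decompose `X` into orbits `≃ Γ / Stab x` and use `mean_fix_coset`.)
* `meanH_sign_int`: `s : Γ →* ℤˣ`, `K = ker s`: if `H ≤ K` then `meanH H (s θ) = meanH H θ`.  Otherwise
  `H ∩ K` has index `2` in `H` and `∑_H s θ = 2 ∑_{H ∩ K} θ - ∑_H θ`, so
  `meanH H (s θ) = meanH (H ⊓ K) θ - meanH H θ`.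
* `meanH_sign`: `meanH H s = 1` if `H ≤ ker s`, else `0`.
-/

namespace Pool.Agent.H3.SF

variable {Γ : Type*} [Group Γ] [Fintype Γ]

lemma submean_card (H : Subgroup Γ) :
    (Nat.card H : ℝ) = ∑ g, (H : Set Γ).indicator (fun _ => (1 : ℝ)) g := by
  classical
  have h1 : ∑ g, (H : Set Γ).indicator (fun _ => (1 : ℝ)) g
      = ∑ g, if g ∈ H then (1 : ℝ) else 0 := by
    refine Finset.sum_congr rfl fun g _ => ?_
    by_cases h : g ∈ H
    · rw [if_pos h, Set.indicator_of_mem (show g ∈ (H : Set Γ) from h)]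
    · rw [if_neg h, Set.indicator_of_notMem (show g ∉ (H : Set Γ) from h)]
  rw [h1, Finset.sum_boole, Nat.card_eq_fintype_card, ← Fintype.card_subtype]

lemma submean_fix_sum {X : Type*} [Fintype X] [MulAction Γ X] (θ : Γ → ℝ) :
    ∑ g, θ g * (Nat.card {x : X // g • x = x} : ℝ) =
      ∑ x : X, ∑ g, ((MulAction.stabilizer Γ x : Subgroup Γ) : Set Γ).indicator θ g := by
  classical
  rw [Finset.sum_comm]
  refine Finset.sum_congr rfl fun g _ => ?_
  have h1 : (Nat.card {x : X // g • x = x} : ℝ) = ∑ x : X, if g • x = x then (1:ℝ) else 0 := by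
    rw [Finset.sum_boole, Nat.card_eq_fintype_card, Fintype.card_subtype]
  rw [h1, Finset.mul_sum]
  refine Finset.sum_congr rfl fun x _ => ?_
  by_cases h : g • x = x
  · rw [if_pos h, mul_one, Set.indicator_of_mem
      (show g ∈ ((MulAction.stabilizer Γ x : Subgroup Γ) : Set Γ) from h)]
  · rw [if_neg h, mul_zero, Set.indicator_of_notMem
      (show g ∉ ((MulAction.stabilizer Γ x : Subgroup Γ) : Set Γ) from h)]

lemma submean_stab_conj {X : Type*} [MulAction Γ X] (θ : Γ → ℝ)
    (hc : ∀ h g, θ (h * g * h⁻¹) = θ g) (h : Γ) (x : X) :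
    ∑ g, ((MulAction.stabilizer Γ (h • x) : Subgroup Γ) : Set Γ).indicator θ g =
      ∑ g, ((MulAction.stabilizer Γ x : Subgroup Γ) : Set Γ).indicator θ g := by
  rw [← Equiv.sum_comp (MulAut.conj h).toEquiv]
  refine Finset.sum_congr rfl fun g _ => ?_
  have e : (MulAut.conj h).toEquiv g = h * g * h⁻¹ := rfl
  rw [e]
  by_cases hg : g • x = x
  · have hg' : (h * g * h⁻¹) • (h • x) = h • x := by
      rw [mul_smul, inv_smul_smul, mul_smul, hg]
    rw [Set.indicator_of_mem (show g ∈ ((MulAction.stabilizer Γ x : Subgroup Γ) : Set Γ) from hg),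
      Set.indicator_of_mem
        (show h * g * h⁻¹ ∈ ((MulAction.stabilizer Γ (h • x) : Subgroup Γ) : Set Γ) from hg'), hc]
  · have hg' : ¬ (h * g * h⁻¹) • (h • x) = h • x := by
      intro h2
      rw [mul_smul, inv_smul_smul, mul_smul] at h2
      exact hg (smul_left_cancel h h2)
    rw [Set.indicator_of_notMem
        (show g ∉ ((MulAction.stabilizer Γ x : Subgroup Γ) : Set Γ) from hg),
      Set.indicator_of_notMem
        (show h * g * h⁻¹ ∉ ((MulAction.stabilizer Γ (h • x) : Subgroup Γ) : Set Γ) from hg')]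

lemma submean_const_card {X : Type*} [MulAction Γ X] (h : Γ) (x : X) :
    (Nat.card (MulAction.stabilizer Γ (h • x)) : ℝ) = Nat.card (MulAction.stabilizer Γ x) := by
  rw [submean_card, submean_card]
  exact submean_stab_conj (fun _ => (1 : ℝ)) (fun _ _ => rfl) h x

lemma submean_orbit_sum {X : Type*} [Fintype X] [MulAction Γ X] (m : X → ℝ)
    (hm : ∀ (h : Γ) (x : X), m (h • x) = m x) (hz : ∀ x, ∃ z : ℤ, m x = z) :
    ∃ z : ℤ, ∑ x, m x / ((MulAction.orbit Γ x).ncard : ℝ) = z := by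
  classical
  have key : ∀ q : MulAction.orbitRel.Quotient Γ X, ∃ z : ℤ,
      ∑ x ∈ Finset.univ.filter (fun x : X => (Quotient.mk _ x : MulAction.orbitRel.Quotient Γ X) = q),
        m x / ((MulAction.orbit Γ x).ncard : ℝ) = z := by
    intro q
    induction q using Quotient.inductionOn with
    | h x0 =>
      obtain ⟨z, hz0⟩ := hz x0
      refine ⟨z, ?_⟩
      have h1 : ∀ x : X, ((Quotient.mk _ x : MulAction.orbitRel.Quotient Γ X) = Quotient.mk _ x0) ↔
          x ∈ MulAction.orbit Γ x0 := by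
        intro x
        rw [Quotient.eq]
        exact MulAction.orbitRel_apply
      have h2 : ∀ x ∈ Finset.univ.filter
          (fun x : X => (Quotient.mk _ x : MulAction.orbitRel.Quotient Γ X) = Quotient.mk _ x0),
          m x / ((MulAction.orbit Γ x).ncard : ℝ) = z / ((MulAction.orbit Γ x0).ncard : ℝ) := by
        intro x hx
        rw [Finset.mem_filter, h1] at hx
        obtain ⟨_, h, rfl⟩ := hx
        have e1 : MulAction.orbit Γ ((fun g : Γ => g • x0) h) = MulAction.orbit Γ x0 :=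
          MulAction.orbit_smul h x0
        rw [e1]
        have e2 : m ((fun g : Γ => g • x0) h) = m x0 := hm h x0
        rw [e2, hz0]
      rw [Finset.sum_congr rfl h2, Finset.sum_const, nsmul_eq_mul]
      have h3 : ((Finset.univ.filter
          (fun x : X => (Quotient.mk _ x : MulAction.orbitRel.Quotient Γ X) =
            Quotient.mk _ x0)).card : ℝ) = ((MulAction.orbit Γ x0).ncard : ℝ) := by
        norm_cast
        rw [← Set.ncard_coe_finset]
        congr 1
        ext x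
        rw [Finset.mem_coe, Finset.mem_filter, h1]
        simp
      rw [h3]
      have h4 : ((MulAction.orbit Γ x0).ncard : ℝ) ≠ 0 := by
        have : 0 < (MulAction.orbit Γ x0).ncard :=
          (Set.ncard_pos (Set.toFinite _)).mpr (MulAction.nonempty_orbit x0)
        exact_mod_cast this.ne'
      field_simp
  choose z hz1 using key
  refine ⟨∑ q, z q, ?_⟩
  push_cast
  rw [← Finset.sum_fiberwise Finset.univ
    (fun x : X => (Quotient.mk _ x : MulAction.orbitRel.Quotient Γ X))]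
  exact Finset.sum_congr rfl fun q _ => hz1 q

lemma submean_index {X : Type*} [MulAction Γ X] (x : X) :
    ((MulAction.orbit Γ x).ncard : ℝ) * (Nat.card (MulAction.stabilizer Γ x) : ℝ)
      = Fintype.card Γ := by
  rw [← MulAction.index_stabilizer]
  have := (MulAction.stabilizer Γ x).index_mul_card
  rw [Nat.card_eq_fintype_card (α := Γ)] at this
  exact_mod_cast this

theorem mean_fix_coset (θ : Γ → ℝ) (hc : ∀ h g, θ (h * g * h⁻¹) = θ g) (H : Subgroup Γ) :
    mean (fun g => θ g * (Nat.card {x : Γ ⧸ H // g • x = x} : ℝ)) = meanH H θ := by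
  classical
  unfold mean meanH
  rw [submean_fix_sum (X := Γ ⧸ H) θ]
  have h1 : ∀ x : Γ ⧸ H, ∑ g, ((MulAction.stabilizer Γ x : Subgroup Γ) : Set Γ).indicator θ g
      = ∑ g, (H : Set Γ).indicator θ g := by
    intro x
    induction x using QuotientGroup.induction_on with
    | H a =>
      have e : ((a : Γ) : Γ ⧸ H) = a • ((1 : Γ) : Γ ⧸ H) := by
        rw [MulAction.Quotient.smul_coe, smul_eq_mul, mul_one]
      rw [e, submean_stab_conj θ hc a, MulAction.stabilizer_quotient]
  rw [Finset.sum_congr rfl fun x _ => h1 x, Finset.sum_const, nsmul_eq_mul, Finset.card_univ]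
  have h2 := H.index_mul_card
  rw [Subgroup.index, Nat.card_eq_fintype_card (α := Γ), Nat.card_eq_fintype_card (α := Γ ⧸ H)] at h2
  have h3 : (Fintype.card (Γ ⧸ H) : ℝ) * (Nat.card H : ℝ) = Fintype.card Γ := by exact_mod_cast h2
  have h4 : (Fintype.card Γ : ℝ) ≠ 0 := by
    exact_mod_cast Fintype.card_ne_zero
  have h5 : (Nat.card H : ℝ) ≠ 0 := by
    intro h; rw [h, mul_zero] at h3; exact h4 h3.symm
  rw [div_eq_div_iff h4 h5, ← h3]
  ring

theorem submean_pc_int (θ : Γ → ℝ) (hc : ∀ h g, θ (h * g * h⁻¹) = θ g)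
    (hint : ∀ H : Subgroup Γ, ∃ z : ℤ, meanH H θ = z) {n : ℕ} (φ : Γ →* Equiv.Perm (Fin n)) :
    ∃ z : ℤ, mean (fun g => θ g * fixc φ g) = z := by
  classical
  let _ : MulAction Γ (Fin n) := MulAction.compHom (Fin n) φ
  obtain ⟨z, hz⟩ := submean_orbit_sum (Γ := Γ) (X := Fin n)
    (fun x => meanH (MulAction.stabilizer Γ x) θ)
    (fun h x => by
      unfold meanH
      rw [submean_const_card, submean_stab_conj θ hc])
    (fun x => hint _)
  refine ⟨z, ?_⟩
  rw [← hz]
  unfold mean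
  have h1 := submean_fix_sum (Γ := Γ) (X := Fin n) θ
  have h2 : ∑ g, θ g * fixc φ g = ∑ g, θ g * (Nat.card {x : Fin n // g • x = x} : ℝ) := rfl
  rw [h2, h1, Finset.sum_div]
  refine Finset.sum_congr rfl fun x _ => ?_
  unfold meanH
  rw [div_div]
  congr 1
  rw [← submean_index (Γ := Γ) x]
  ring

theorem mean_mul_int (θ : Γ → ℝ) (hc : ∀ h g, θ (h * g * h⁻¹) = θ g)
    (hint : ∀ H : Subgroup Γ, ∃ z : ℤ, meanH H θ = z) {f : Γ → ℝ} (hf : IsPR f) :
    ∃ z : ℤ, mean (fun g => θ g * f g) = z := by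
  obtain ⟨n, m, φ, ψ, h⟩ := hf
  obtain ⟨z1, h1⟩ := submean_pc_int θ hc hint φ
  obtain ⟨z2, h2⟩ := submean_pc_int θ hc hint ψ
  refine ⟨z1 - z2, ?_⟩
  push_cast
  rw [← h1, ← h2]
  unfold mean
  rw [← sub_div, ← Finset.sum_sub_distrib]
  congr 1
  refine Finset.sum_congr rfl fun g _ => ?_
  beta_reduce
  rw [h, mul_sub]

lemma submean_sign_ker (s : Γ →* ℤˣ) (θ : Γ → ℝ) (H : Subgroup Γ) (h : H ≤ s.ker) :
    ∑ g, (H : Set Γ).indicator (fun g => θ g * (((s g : ℤˣ) : ℤ) : ℝ)) g =
      ∑ g, (H : Set Γ).indicator θ g := by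
  refine Finset.sum_congr rfl fun g _ => ?_
  by_cases hg : g ∈ H
  · have h1 : s g = 1 := h hg
    rw [Set.indicator_of_mem (show g ∈ (H : Set Γ) from hg),
      Set.indicator_of_mem (show g ∈ (H : Set Γ) from hg), h1]
    simp
  · rw [Set.indicator_of_notMem (show g ∉ (H : Set Γ) from hg),
      Set.indicator_of_notMem (show g ∉ (H : Set Γ) from hg)]

lemma submean_sign_nker (s : Γ →* ℤˣ) (H : Subgroup Γ) (h : ¬ H ≤ s.ker) :
    ∑ g, (H : Set Γ).indicator (fun g => (((s g : ℤˣ) : ℤ) : ℝ)) g = 0 := by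
  obtain ⟨a, haH, ha⟩ : ∃ a ∈ H, a ∉ s.ker := by
    by_contra hcon
    push Not at hcon
    exact h fun a ha => hcon a ha
  have ha1 : s a = -1 := by
    rcases Int.units_eq_one_or (s a) with h1 | h1
    · exact absurd h1 ha
    · exact h1
  have h2 : ∑ g, (H : Set Γ).indicator (fun g => (((s g : ℤˣ) : ℤ) : ℝ)) g =
      ∑ g, -(H : Set Γ).indicator (fun g => (((s g : ℤˣ) : ℤ) : ℝ)) g := by
    rw [← Equiv.sum_comp (Equiv.mulLeft a)]
    refine Finset.sum_congr rfl fun g _ => ?_
    have e : (Equiv.mulLeft a) g = a * g := rfl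
    rw [e]
    by_cases hg : g ∈ H
    · rw [Set.indicator_of_mem (show a * g ∈ (H : Set Γ) from H.mul_mem haH hg),
        Set.indicator_of_mem (show g ∈ (H : Set Γ) from hg), map_mul, ha1]
      simp
    · have hg' : a * g ∉ H := fun h3 => hg ((H.mul_mem_cancel_left haH).mp h3)
      rw [Set.indicator_of_notMem (show a * g ∉ (H : Set Γ) from hg'),
        Set.indicator_of_notMem (show g ∉ (H : Set Γ) from hg)]
      simp
  rw [Finset.sum_neg_distrib] at h2
  linarith

lemma submean_split (s : Γ →* ℤˣ) (θ : Γ → ℝ) (H : Subgroup Γ) :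
    ∑ g, (H : Set Γ).indicator (fun g => θ g * (((s g : ℤˣ) : ℤ) : ℝ)) g =
      2 * ∑ g, ((H ⊓ s.ker : Subgroup Γ) : Set Γ).indicator θ g -
        ∑ g, (H : Set Γ).indicator θ g := by
  rw [Finset.mul_sum, ← Finset.sum_sub_distrib]
  refine Finset.sum_congr rfl fun g _ => ?_
  by_cases hg : g ∈ H
  · rw [Set.indicator_of_mem (show g ∈ (H : Set Γ) from hg),
      Set.indicator_of_mem (show g ∈ (H : Set Γ) from hg)]
    rcases Int.units_eq_one_or (s g) with h1 | h1
    · have h2 : g ∈ ((H ⊓ s.ker : Subgroup Γ) : Set Γ) := ⟨hg, h1⟩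
      rw [Set.indicator_of_mem h2, h1]
      push_cast
      ring
    · have h2 : g ∉ ((H ⊓ s.ker : Subgroup Γ) : Set Γ) := by
        rintro ⟨_, h3⟩
        have h4 : s g = 1 := h3
        rw [h1] at h4
        exact absurd h4 (by decide)
      rw [Set.indicator_of_notMem h2, h1]
      push_cast
      ring
  · have h2 : g ∉ ((H ⊓ s.ker : Subgroup Γ) : Set Γ) := fun h3 => hg h3.1
    rw [Set.indicator_of_notMem (show g ∉ (H : Set Γ) from hg),
      Set.indicator_of_notMem (show g ∉ (H : Set Γ) from hg), Set.indicator_of_notMem h2]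
    ring

theorem meanH_sign_int (s : Γ →* ℤˣ) (θ : Γ → ℝ)
    (hint : ∀ H : Subgroup Γ, ∃ z : ℤ, meanH H θ = z) (H : Subgroup Γ) :
    ∃ z : ℤ, meanH H (fun g => θ g * (((s g : ℤˣ) : ℤ) : ℝ)) = z := by
  by_cases h : H ≤ s.ker
  · obtain ⟨z, hz⟩ := hint H
    refine ⟨z, ?_⟩
    rw [← hz]
    unfold meanH
    rw [submean_sign_ker s θ H h]
  · obtain ⟨z, hz⟩ := hint H
    obtain ⟨w, hw⟩ := hint (H ⊓ s.ker)
    refine ⟨w - z, ?_⟩
    push_cast
    rw [← hz, ← hw]
    have h1 := submean_split s (fun _ => (1 : ℝ)) H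
    simp only [one_mul] at h1
    rw [submean_sign_nker s H h, ← submean_card, ← submean_card] at h1
    unfold meanH
    rw [submean_split s θ H]
    have h2 : (Nat.card H : ℝ) = 2 * Nat.card (H ⊓ s.ker : Subgroup Γ) := by linarith
    have h3 : (Nat.card (H ⊓ s.ker : Subgroup Γ) : ℝ) ≠ 0 := by
      have : Nat.card (H ⊓ s.ker : Subgroup Γ) ≠ 0 := Nat.card_pos.ne'
      exact_mod_cast this
    rw [h2]
    field_simp

theorem meanH_sign (s : Γ →* ℤˣ) (a b : ℝ) (H : Subgroup Γ) [Decidable (H ≤ s.ker)] :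
    meanH H (fun g => a + b * (((s g : ℤˣ) : ℤ) : ℝ)) = if H ≤ s.ker then a + b else a := by
  have h3 : (Nat.card H : ℝ) ≠ 0 := by
    have : Nat.card H ≠ 0 := Nat.card_pos.ne'
    exact_mod_cast this
  have h0 : ∑ g, (H : Set Γ).indicator (fun g => a + b * (((s g : ℤˣ) : ℤ) : ℝ)) g =
      a * Nat.card H + b * ∑ g, (H : Set Γ).indicator (fun g => (((s g : ℤˣ) : ℤ) : ℝ)) g := by
    rw [submean_card, Finset.mul_sum, Finset.mul_sum, ← Finset.sum_add_distrib]
    refine Finset.sum_congr rfl fun g _ => ?_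
    by_cases hg : g ∈ H
    · simp [Set.indicator_of_mem (show g ∈ (H : Set Γ) from hg)]
    · simp [Set.indicator_of_notMem (show g ∉ (H : Set Γ) from hg)]
  unfold meanH
  rw [h0]
  split_ifs with h
  · have h1 := submean_sign_ker s (fun _ => (1 : ℝ)) H h
    simp only [one_mul] at h1
    rw [h1, ← submean_card]
    field_simp
  · rw [submean_sign_nker s H h]
    field_simp
    ring

end Pool.Agent.H3.SF
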