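import Mathlib
import Pool.Agent.H3.SF.Gal
import Pool.Agent.H3.SF.SubMean
import Pool.Agent.H3.Artin.Continuity

/-!
Project SF (MP_1f4fc7_nt), job SF-21.  The defect as a class function on `Gal(M/k)`.

Fix an ultrafilter `𝒰 ≤ 𝓝[>] 1` (`Ultrafilter.of`), `mu 𝒰` as in `Cheb/Mu.lean`.  `G = Gal(M/k)`,
`Frob 𝔭 := restrictNormalHom M (frobeniusAt Ω 𝔭).φ`.  For `g ∈ G` let `C_g := {x // IsConj x g ∨
IsConj x g⁻¹}`, `u_g 𝔭 := 1` if `Frob 𝔭 ∈ C_g`, `0` otherwise.  By `chebotarev_sym` (the indicator of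
`C_g` is a class function invariant under inversion) `mu u_g = #C_g / #G`.
`θ g := mu (dfun * u_g) * #G / #C_g`.  It is a class function and `|θ g| ≤ B` since
`|dfun| ≤ B := dim V - dim A` (`abs_dfun_le`), `mu_mono`.
For a function `f` on `G` constant on all the sets `C_g`: `f (Frob 𝔭) = ∑_g f g * u_g 𝔭 / #C_g`, so
`mu (dfun * f (Frob)) = ∑_g f g θ g / #G = mean (θ f)` (`mu_sum`, `mu_const_mul`).
Apply this to `f g := #{x ∈ G / HK M K // g x = x}` (a class function, and invariant under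
inversion): by `PP_eq_fix` and `mu_congr_finite`, `mu (dfun * PP K) = mean (θ f) = meanH (HK M K) θ`
(`mean_fix_coset`).  Finally `HasGrowth (LFunction ... (resRep ρ K)) x` implies that
`dfun * PP K` has mean `x - finrank (resRep α K).invariants` along `𝓝[>] 1`: this is `hpass` in the proof
of `defect_continuity` in `Artin/Continuity.lean` (copy that argument: `growth_iff`,
`mean_chfun_PP`, `cfun_eq_dfun`, `hasMean_congr_finite`); then `mu_eq_of_mean`.
-/

open NumberField IsDedekindDomain Filter Topology Module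

namespace Pool.Agent.H3.SF

open TatePole Artin Cheb

section Conj

variable {G : Type*} [Group G]

/-- conjugate to `g` or to its inverse -/
def SConj (x g : G) : Prop := IsConj x g ∨ IsConj x g⁻¹

lemma isConj_inv' {x g : G} (h : IsConj x g) : IsConj x⁻¹ g⁻¹ := by
  rw [isConj_iff] at h ⊢
  obtain ⟨c, hc⟩ := h
  refine ⟨c, ?_⟩
  rw [← hc]
  group

lemma SConj.refl (x : G) : SConj x x := Or.inl (IsConj.refl x)

lemma SConj.symm {x g : G} (h : SConj x g) : SConj g x := by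
  rcases h with h | h
  · exact Or.inl h.symm
  · right
    have := isConj_inv' h.symm
    rw [inv_inv] at this
    exact this

lemma SConj.trans {x y z : G} (h : SConj x y) (h' : SConj y z) : SConj x z := by
  rcases h with h | h <;> rcases h' with h' | h'
  · exact Or.inl (h.trans h')
  · exact Or.inr (h.trans h')
  · exact Or.inr (h.trans (isConj_inv' h'))
  · left
    have := isConj_inv' h'
    rw [inv_inv] at this
    exact h.trans this

lemma SConj.iff_right {x y z : G} (h : SConj y z) : SConj x y ↔ SConj x z :=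
  ⟨fun h' => h'.trans h, fun h' => h'.trans h.symm⟩

end Conj

section Ultra

variable {k : Type*} [Field k] [NumberField k] {Ω : Type*} [Field Ω] [Algebra k Ω] [IsGalois k Ω]
  [IsAlgClosed Ω]

theorem exists_theta_ultra {𝒰 : Ultrafilter ℝ} (h𝒰 : (𝒰 : Filter ℝ) ≤ 𝓝[>] 1)
    (u : HeightOneSpectrum (𝓞 k) → ℝ) (B : ℝ) (hB : ∀ v, |u v| ≤ B)
    (M : IntermediateField k Ω) [FiniteDimensional k M] [Normal k M] [Fintype Gal(M/k)] :
    ∃ θ : Gal(M/k) → ℝ, (∀ h g, θ (h * g * h⁻¹) = θ g) ∧ (∀ g, |θ g| ≤ B) ∧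
      ∀ f : Gal(M/k) → ℝ, (∀ x g, SConj x g → f x = f g) →
        mu 𝒰 (fun 𝔭 => u 𝔭 * f (AlgEquiv.restrictNormalHom (F := k) (K₁ := Ω) M
          (frobeniusAt Ω 𝔭).φ)) = mean (fun g => θ g * f g) := by
  classical
  set Fr : HeightOneSpectrum (𝓞 k) → Gal(M/k) := fun 𝔭 =>
    AlgEquiv.restrictNormalHom (F := k) (K₁ := Ω) M (frobeniusAt Ω 𝔭).φ with hFr
  have hbu : Bdd u := ⟨B, hB⟩
  let C : Gal(M/k) → Finset Gal(M/k) := fun g => Finset.univ.filter (fun x => SConj x g)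
  let ind : Gal(M/k) → Gal(M/k) → ℝ := fun g x => if SConj x g then 1 else 0
  have hCpos : ∀ g, (0 : ℝ) < (C g).card := fun g => by
    have : g ∈ C g := by
      rw [Finset.mem_filter]
      exact ⟨Finset.mem_univ _, SConj.refl g⟩
    exact_mod_cast Finset.card_pos.mpr ⟨g, this⟩
  have hGpos : (0 : ℝ) < Fintype.card Gal(M/k) := by exact_mod_cast Fintype.card_pos
  have hCeq : ∀ g g', SConj g g' → C g = C g' := by
    intro g g' h
    ext x
    rw [Finset.mem_filter, Finset.mem_filter, h.iff_right]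
  have hindeq : ∀ g g', SConj g g' → ind g = ind g' := by
    intro g g' h
    funext x
    change (if SConj x g then (1 : ℝ) else 0) = if SConj x g' then 1 else 0
    rw [if_congr h.iff_right rfl rfl]
  have hbi : ∀ g, Bdd (fun 𝔭 => ind g (Fr 𝔭)) := fun g => bdd_comp (ind g) Fr
  have hmi : ∀ g, mu 𝒰 (fun 𝔭 => ind g (Fr 𝔭)) = (C g).card / Fintype.card Gal(M/k) := by
    intro g
    have h1 := chebotarev_sym (Ω := Ω) M (ind g) (fun y x => by
      change (if SConj _ g then (1 : ℝ) else 0) = if SConj x g then 1 else 0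
      refine if_congr ?_ rfl rfl
      have h2 : SConj (y⁻¹ * x * y) x := by
        left
        rw [isConj_iff]
        exact ⟨y, by group⟩
      exact ⟨fun h => h2.symm.trans h, fun h => h2.trans h⟩) (fun x => by
      change (if SConj _ g then (1 : ℝ) else 0) = if SConj x g then 1 else 0
      refine if_congr ?_ rfl rfl
      have h2 : SConj x⁻¹ x := Or.inr (IsConj.refl _)
      exact ⟨fun h => h2.symm.trans h, fun h => h2.trans h⟩)
    have h2 := mu_eq_of_mean h𝒰 h1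
    rw [h2]
    congr 1
    · rw [Finset.card_filter]
      push_cast
      exact Finset.sum_congr (by ext; simp) fun x _ => rfl
    · simp only [Fintype.card_eq_nat_card]
  refine ⟨fun g => mu 𝒰 (fun 𝔭 => u 𝔭 * ind g (Fr 𝔭)) * Fintype.card Gal(M/k) / (C g).card, ?_, ?_, ?_⟩
  · intro h g
    have h1 : SConj (h * g * h⁻¹) g := by
      left
      rw [isConj_iff]
      exact ⟨h⁻¹, by group⟩
    change mu 𝒰 (fun 𝔭 => u 𝔭 * ind (h * g * h⁻¹) (Fr 𝔭)) * _ / _ = _
    rw [hindeq _ _ h1, hCeq _ _ h1]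
  · intro g
    have hB0 : 0 ≤ B := by
      have hv : Nonempty (HeightOneSpectrum (𝓞 k)) := by
        by_contra hne
        have hE : IsEmpty (HeightOneSpectrum (𝓞 k)) := not_nonempty_iff.mp hne
        have h0 := mu_one (k := k) h𝒰
        have h1 := mu_const (k := k) h𝒰 0
        have h2 : (fun _ : HeightOneSpectrum (𝓞 k) => (1 : ℝ)) = fun _ => 0 := by
          funext v
          exact (hE.false v).elim
        rw [h2, h1] at h0
        norm_num at h0
      obtain ⟨v⟩ := hv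
      exact (abs_nonneg _).trans (hB v)
    have hi0 : ∀ 𝔭, 0 ≤ ind g (Fr 𝔭) := fun 𝔭 => by
      change 0 ≤ if _ then (1 : ℝ) else 0
      split_ifs <;> norm_num
    have h1 : mu 𝒰 (fun 𝔭 => u 𝔭 * ind g (Fr 𝔭)) ≤ B * ((C g).card / Fintype.card Gal(M/k)) := by
      rw [← hmi g, ← mu_const_mul h𝒰 B (hbi g)]
      refine mu_mono h𝒰 (hbu.mul (hbi g)) ((Bdd.const B).mul (hbi g)) fun v => ?_
      exact mul_le_mul_of_nonneg_right (le_of_abs_le (hB v)) (hi0 v)
    have h2 : (-B) * ((C g).card / Fintype.card Gal(M/k)) ≤ mu 𝒰 (fun 𝔭 => u 𝔭 * ind g (Fr 𝔭)) := by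
      rw [← hmi g, ← mu_const_mul h𝒰 (-B) (hbi g)]
      refine mu_mono h𝒰 ((Bdd.const (-B)).mul (hbi g)) (hbu.mul (hbi g)) fun v => ?_
      exact mul_le_mul_of_nonneg_right (neg_le_of_abs_le (hB v)) (hi0 v)
    have hc := hCpos g
    rw [abs_le]
    constructor
    · rw [le_div_iff₀ hc]
      have h3 := mul_le_mul_of_nonneg_right h2 hGpos.le
      calc -B * ((C g).card : ℝ) = -B * ((C g).card / Fintype.card Gal(M/k)) * Fintype.card Gal(M/k) := by
            field_simp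
        _ ≤ _ := h3
    · rw [div_le_iff₀ hc]
      have h3 := mul_le_mul_of_nonneg_right h1 hGpos.le
      calc _ ≤ B * ((C g).card / Fintype.card Gal(M/k)) * Fintype.card Gal(M/k) := h3
        _ = B * ((C g).card : ℝ) := by field_simp
  · intro f hf
    have h1 : ∀ x, f x = ∑ g, f g / (C g).card * ind g x := by
      intro x
      have h2 : ∀ g, f g / (C g).card * ind g x = if g ∈ C x then f x / (C x).card else 0 := by
        intro g
        by_cases h : SConj x g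
        · rw [if_pos (by rw [Finset.mem_filter]; exact ⟨Finset.mem_univ _, h.symm⟩)]
          change _ * (if SConj x g then (1 : ℝ) else 0) = _
          rw [if_pos h, mul_one, hCeq x g h, hf x g h]
        · rw [if_neg (by rw [Finset.mem_filter]; exact fun h' => h h'.2.symm)]
          change _ * (if SConj x g then (1 : ℝ) else 0) = _
          rw [if_neg h, mul_zero]
      rw [Finset.sum_congr rfl fun g _ => h2 g, Finset.sum_ite_mem, Finset.univ_inter,
        Finset.sum_const, nsmul_eq_mul]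
      have := hCpos x
      field_simp
    have h3 : (fun 𝔭 => u 𝔭 * f (Fr 𝔭)) =
        fun 𝔭 => ∑ g, f g / (C g).card * (u 𝔭 * ind g (Fr 𝔭)) := by
      funext 𝔭
      rw [h1 (Fr 𝔭), Finset.mul_sum]
      refine Finset.sum_congr rfl fun g _ => ?_
      ring
    rw [h3, mu_sum h𝒰 _ fun g _ => (Bdd.const _).mul (hbu.mul (hbi g))]
    unfold mean
    rw [Finset.sum_div]
    refine Finset.sum_congr rfl fun g _ => ?_
    rw [mu_const_mul h𝒰 _ (hbu.mul (hbi g))]
    have h5 := (hCpos g).ne'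
    have h6 := hGpos.ne'
    change f g / (C g).card * mu 𝒰 (fun 𝔭 => u 𝔭 * ind g (Fr 𝔭)) =
      mu 𝒰 (fun 𝔭 => u 𝔭 * ind g (Fr 𝔭)) * Fintype.card Gal(M/k) / (C g).card * f g /
        Fintype.card Gal(M/k)
    generalize mu 𝒰 (fun 𝔭 => u 𝔭 * ind g (Fr 𝔭)) = X
    generalize ((C g).card : ℝ) = Y at h5 ⊢
    generalize (Fintype.card Gal(M/k) : ℝ) = Z at h6 ⊢
    field_simp

/-- passing from the growth of the `L`-function over `K` to the mean of the defect function -/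
theorem growth_mean {V A : Type*} [AddCommGroup V] [Module ℂ V] [FiniteDimensional ℂ V]
    [AddCommGroup A] [Module ℂ A] [FiniteDimensional ℂ A]
    (ρ : Representation ℂ Gal(Ω/k) V) (hρ : WeightsLeTwo (RingHom.id ℂ) ρ)
    (α : Representation ℂ Gal(Ω/k) A) (L : IntermediateField k Ω) [FiniteDimensional k L]
    (hα : ∀ σ ∈ L.fixingSubgroup, α σ = 1)
    (ω : Gal(Ω/k) →* ℂ) (hω : {𝔭 : HeightOneSpectrum (𝓞 k) |
      ω (frobeniusAt Ω 𝔭).φ⁻¹ ≠ Ideal.absNorm 𝔭.asIdeal}.Finite)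
    (cl : A →ₗ[ℂ] V) (hcl : Function.Injective cl)
    (hclω : ∀ σ a, ρ σ (cl a) = ω σ • cl (α σ a))
    (K : IntermediateField k Ω) [FiniteDimensional k K] (x : ℝ)
    (h : HasGrowth (LFunction (RingHom.id ℂ) (resRep ρ K)) x) :
    HasMean (𝓝[>] 1) (fun 𝔭 : HeightOneSpectrum (𝓞 k) => dfun ρ α ω 𝔭 * PP K 𝔭)
      (x - finrank ℂ (resRep α K).invariants) := by
  set L' : IntermediateField k Ω := IntermediateField.normalClosure k L Ω with hL'
  have hα' : ∀ σ ∈ L'.fixingSubgroup, α σ = 1 := fun σ hσ =>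
    hα σ (IntermediateField.fixingSubgroup_antitone (IntermediateField.le_normalClosure L) hσ)
  haveI : FiniteDimensional k L' := inferInstance
  haveI : Normal k L' := inferInstance
  have hfin := cfun_eq_dfun (α := α) hρ hω
  have hbd : Bdd (dfun ρ α ω) := ⟨_, abs_dfun_le hρ cl hcl hclω⟩
  have hbc : Bdd (cfun (RingHom.id ℂ) ρ) := ⟨_, abs_cfun_le (RingHom.id ℂ) ρ⟩
  have hba : Bdd (chfun α) := chfun_bdd L' α hα'
  have h' := (growth_iff hρ K x).mp h
  have hm := mean_chfun_PP L' α hα' K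
  have hfin1 : {𝔭 : HeightOneSpectrum (𝓞 k) | cfun (RingHom.id ℂ) ρ 𝔭 * PP K 𝔭 ≠
      dfun ρ α ω 𝔭 * PP K 𝔭 + chfun α 𝔭 * PP K 𝔭}.Finite := by
    refine hfin.subset fun 𝔭 h𝔭 h => h𝔭 ?_
    rw [h, add_mul]
  have h1 := hasMean_congr_finite le_rfl (hbc.mul (PP_bdd K))
    ((hbd.mul (PP_bdd K)).add (hba.mul (PP_bdd K))) hfin1 h'
  have h2 := h1.add le_rfl ((hbd.mul (PP_bdd K)).add (hba.mul (PP_bdd K)))
    ((Bdd.const (-1)).mul (hba.mul (PP_bdd K))) (hm.const_mul (-1))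
  rw [sub_eq_add_neg, neg_eq_neg_one_mul]
  convert h2 using 2
  ring

/-- the defect as a class function, along an ultrafilter -/
theorem exists_theta_full {𝒰 : Ultrafilter ℝ} (h𝒰 : (𝒰 : Filter ℝ) ≤ 𝓝[>] 1)
    {V A : Type*} [AddCommGroup V] [Module ℂ V] [FiniteDimensional ℂ V]
    [AddCommGroup A] [Module ℂ A] [FiniteDimensional ℂ A]
    (ρ : Representation ℂ Gal(Ω/k) V) (hρ : WeightsLeTwo (RingHom.id ℂ) ρ)
    (α : Representation ℂ Gal(Ω/k) A) (L : IntermediateField k Ω) [FiniteDimensional k L]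
    (hα : ∀ σ ∈ L.fixingSubgroup, α σ = 1)
    (ω : Gal(Ω/k) →* ℂ) (hω : {𝔭 : HeightOneSpectrum (𝓞 k) |
      ω (frobeniusAt Ω 𝔭).φ⁻¹ ≠ Ideal.absNorm 𝔭.asIdeal}.Finite)
    (cl : A →ₗ[ℂ] V) (hcl : Function.Injective cl)
    (hclω : ∀ σ a, ρ σ (cl a) = ω σ • cl (α σ a))
    (M : IntermediateField k Ω) [FiniteDimensional k M] [Normal k M] [Fintype Gal(M/k)] :
    ∃ θ : Gal(M/k) → ℝ, (∀ h g, θ (h * g * h⁻¹) = θ g) ∧
      (∀ g, |θ g| ≤ ((finrank ℂ V - finrank ℂ A : ℕ) : ℝ)) ∧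
      (∀ (K : IntermediateField k Ω) [FiniteDimensional k K], K ≤ M → ∀ x : ℝ,
        HasGrowth (LFunction (RingHom.id ℂ) (resRep ρ K)) x →
        meanH (HK M K) θ = x - finrank ℂ (resRep α K).invariants) ∧
      ∀ f : Gal(M/k) → ℝ, (∀ x g, SConj x g → f x = f g) →
        mu 𝒰 (fun 𝔭 => dfun ρ α ω 𝔭 * f (AlgEquiv.restrictNormalHom (F := k) (K₁ := Ω) M
          (frobeniusAt Ω 𝔭).φ)) = mean (fun g => θ g * f g) := by
  obtain ⟨θ, hc, hb, hf⟩ := exists_theta_ultra h𝒰 (dfun ρ α ω) _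
    (abs_dfun_le hρ cl hcl hclω) M
  have hbd : Bdd (dfun ρ α ω) := ⟨_, abs_dfun_le hρ cl hcl hclω⟩
  refine ⟨θ, hc, hb, fun K _ hK x hx => ?_, hf⟩
  have h1 := mu_eq_of_mean h𝒰 (growth_mean ρ hρ α L hα ω hω cl hcl hclω K x hx)
  have hfin := PP_eq_fix M K hK
  have h2 := hf (fun g => (Nat.card {x : Gal(M/k) ⧸ HK M K // g • x = x} : ℝ)) (by
    have hconj : ∀ y g : Gal(M/k), (Nat.card {x : Gal(M/k) ⧸ HK M K // (y * g * y⁻¹) • x = x} : ℝ)
        = Nat.card {x : Gal(M/k) ⧸ HK M K // g • x = x} := by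
      intro y g
      exact (isPR_of_action (Γ := Gal(M/k)) (Gal(M/k) ⧸ HK M K)).conj y g
    have hinv : ∀ g : Gal(M/k), (Nat.card {x : Gal(M/k) ⧸ HK M K // g⁻¹ • x = x} : ℝ)
        = Nat.card {x : Gal(M/k) ⧸ HK M K // g • x = x} := by
      intro g
      congr 1
      refine Nat.card_congr (Equiv.subtypeEquivRight fun x => ?_)
      rw [inv_smul_eq_iff, eq_comm]
    intro x g hxg
    rcases hxg with h | h
    · obtain ⟨c, hc⟩ := isConj_iff.mp h
      rw [← hc]
      exact (hconj c x).symm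
    · obtain ⟨c, hc⟩ := isConj_iff.mp h
      have h3 := hconj c x
      rw [hc] at h3
      exact h3.symm.trans (hinv g))
  rw [mean_fix_coset θ hc] at h2
  rw [← h2, ← h1]
  refine mu_congr_finite h𝒰 (hbd.mul ?_) (hbd.mul (PP_bdd K)) ?_
  · exact bdd_comp (fun g : Gal(M/k) => (Nat.card {x : Gal(M/k) ⧸ HK M K // g • x = x} : ℝ)) _
  · refine hfin.subset fun 𝔭 h𝔭 h => h𝔭 ?_
    rw [h]

end Ultra

theorem exists_theta {k : Type*} [Field k] [NumberField k] {Ω : Type*} [Field Ω] [Algebra k Ω]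
    [IsGalois k Ω] [IsAlgClosed Ω]
    {V A : Type*} [AddCommGroup V] [Module ℂ V] [FiniteDimensional ℂ V]
    [AddCommGroup A] [Module ℂ A] [FiniteDimensional ℂ A]
    (ρ : Representation ℂ Gal(Ω/k) V) (hρ : WeightsLeTwo (RingHom.id ℂ) ρ)
    (α : Representation ℂ Gal(Ω/k) A) (L : IntermediateField k Ω) [FiniteDimensional k L]
    (hα : ∀ σ ∈ L.fixingSubgroup, α σ = 1)
    (ω : Gal(Ω/k) →* ℂ) (hω : {𝔭 : HeightOneSpectrum (𝓞 k) |
      ω (frobeniusAt Ω 𝔭).φ⁻¹ ≠ Ideal.absNorm 𝔭.asIdeal}.Finite)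
    (cl : A →ₗ[ℂ] V) (hcl : Function.Injective cl)
    (hclω : ∀ σ a, ρ σ (cl a) = ω σ • cl (α σ a))
    (M : IntermediateField k Ω) [FiniteDimensional k M] [Normal k M] [Fintype Gal(M/k)] :
    ∃ θ : Gal(M/k) → ℝ, (∀ h g, θ (h * g * h⁻¹) = θ g) ∧
      (∀ g, |θ g| ≤ ((finrank ℂ V - finrank ℂ A : ℕ) : ℝ)) ∧
      ∀ (K : IntermediateField k Ω) [FiniteDimensional k K], K ≤ M → ∀ x : ℝ,
        HasGrowth (LFunction (RingHom.id ℂ) (resRep ρ K)) x →
        meanH (HK M K) θ = x - finrank ℂ (resRep α K).invariants := by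
  obtain ⟨𝒰, h𝒰⟩ := Filter.exists_ultrafilter_le (𝓝[>] (1 : ℝ))
  obtain ⟨θ, h1, h2, h3, _⟩ := exists_theta_full h𝒰 ρ hρ α L hα ω hω cl hcl hclω M
  exact ⟨θ, h1, h2, h3⟩

end Pool.Agent.H3.SF
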