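import Mathlib
import Pool.Agent.H3.SF.Theta
import Pool.Agent.H3.SF.Span
import Pool.Agent.H3.SF.LemS

/-!
Project SF (MP_1f4fc7_nt), job SF-22 (helper3).  Assembly.
-/

open NumberField IsDedekindDomain Filter Topology Module

namespace Pool.Agent.H3.SF

open TatePole Artin Cheb

/-- bounded class functions on `S_n` with integral means over all subgroups -/
theorem lemS_int {n : ℕ} (θ : Equiv.Perm (Fin n) → ℝ) (hc : ∀ h g, θ (h * g * h⁻¹) = θ g)
    (hint : ∀ H : Subgroup (Equiv.Perm (Fin n)), ∃ z : ℤ, meanH H θ = z)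
    (B : ℕ) (hB : ∀ g, |θ g| ≤ B) (hn : 2 ^ (40 * (B + 1)) ≤ n) :
    ∃ a b : ℤ, ∀ g, θ g = a + b * ((Equiv.Perm.sign g : ℤˣ) : ℤ) := by
  have h1 : IsPR θ := by
    refine span θ hc fun a ha => ?_
    refine mean_mul_int (fun g => θ g * (((Equiv.Perm.sign g : ℤˣ) : ℤ) : ℝ)) ?_ ?_ (isPR_pc a)
    · intro h g
      rw [hc]
      congr 3
      rw [map_mul, map_mul, mul_comm (Equiv.Perm.sign h), mul_assoc, map_inv, mul_inv_cancel,
        mul_one]
    · exact fun H => meanH_sign_int Equiv.Perm.sign θ hint H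
  exact lemS θ h1 B hB hn

lemma meanH_comap {Γ Γ' : Type*} [Group Γ] [Fintype Γ] [Group Γ'] [Fintype Γ'] (e : Γ ≃* Γ')
    (H : Subgroup Γ') (f : Γ' → ℝ) :
    meanH H f = meanH (H.comap e.toMonoidHom) (fun x => f (e x)) := by
  unfold meanH
  congr 1
  · refine (Fintype.sum_equiv e.toEquiv _ _ fun x => ?_).symm
    by_cases hx : e x ∈ H
    · rw [Set.indicator_of_mem (show x ∈ ((H.comap e.toMonoidHom : Subgroup Γ) : Set Γ) from hx),
        Set.indicator_of_mem (show e.toEquiv x ∈ (H : Set Γ') from hx)]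
      rfl
    · rw [Set.indicator_of_notMem (show x ∉ ((H.comap e.toMonoidHom : Subgroup Γ) : Set Γ) from hx),
        Set.indicator_of_notMem (show e.toEquiv x ∉ (H : Set Γ') from hx)]
  · congr 1
    refine Nat.card_congr ?_
    exact ⟨fun y => ⟨e.symm y, by
      change e (e.symm y) ∈ H
      rw [e.apply_symm_apply]
      exact y.2⟩, fun x => ⟨e x, x.2⟩, fun y => Subtype.ext (e.apply_symm_apply _),
      fun x => Subtype.ext (e.symm_apply_apply _)⟩

/-- **The defect over the intermediate fields of an `S_n`-extension.** -/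
theorem symmetric_fields {k : Type*} [Field k] [NumberField k] {Ω : Type*} [Field Ω] [Algebra k Ω]
    [IsGalois k Ω] [IsAlgClosed Ω]
    {V A : Type*} [AddCommGroup V] [Module ℂ V] [FiniteDimensional ℂ V]
    [AddCommGroup A] [Module ℂ A] [FiniteDimensional ℂ A]
    (ρ : Representation ℂ Gal(Ω/k) V) (hρ : WeightsLeTwo (RingHom.id ℂ) ρ)
    (α : Representation ℂ Gal(Ω/k) A) (L : IntermediateField k Ω) [FiniteDimensional k L]
    (hα : ∀ σ ∈ L.fixingSubgroup, α σ = 1)
    (ω : Gal(Ω/k) →* ℂ) (hω : {𝔭 : HeightOneSpectrum (𝓞 k) |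
      ω (frobeniusAt Ω 𝔭).φ⁻¹ ≠ Ideal.absNorm 𝔭.asIdeal}.Finite)
    (cl : A →ₗ[ℂ] V) (hcl : Function.Injective cl)
    (hclω : ∀ σ a, ρ σ (cl a) = ω σ • cl (α σ a))
    (M : IntermediateField k Ω) [FiniteDimensional k M] [Normal k M]
    {n : ℕ} (e : Gal(M/k) ≃* Equiv.Perm (Fin n))
    (hn : 2 ^ (40 * (finrank ℂ V - finrank ℂ A + 1)) ≤ n)
    (r : IntermediateField k Ω → ℤ)
    (hr : ∀ K ≤ M, ∀ _ : FiniteDimensional k K,
      HasGrowth (LFunction (RingHom.id ℂ) (resRep ρ K)) (r K))
    (E : IntermediateField k Ω) (hE : E ≤ M) (hE2 : finrank k E = 2)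
    (K : IntermediateField k Ω) [FiniteDimensional k K] (hK : K ≤ M) :
    (E ≤ K → r K - finrank ℂ (resRep α K).invariants = r E - finrank ℂ (resRep α E).invariants) ∧
    (¬ E ≤ K → r K - finrank ℂ (resRep α K).invariants =
      r ⊥ - finrank ℂ (resRep α (⊥ : IntermediateField k Ω)).invariants) := by
  classical
  obtain ⟨θ, hc, hB, hθ⟩ := exists_theta ρ hρ α L hα ω hω cl hcl hclω M
  have hEfin : FiniteDimensional k E := FiniteDimensional.of_finrank_pos (by rw [hE2]; norm_num)
  have hδ : ∀ (K : IntermediateField k Ω) [FiniteDimensional k K], K ≤ M →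
      meanH (HK M K) θ = ((r K - finrank ℂ (resRep α K).invariants : ℤ) : ℝ) := by
    intro K _ hK
    rw [hθ K hK (r K) (hr K hK inferInstance)]
    push_cast
    rfl
  have hint : ∀ H : Subgroup (Equiv.Perm (Fin n)), ∃ z : ℤ,
      meanH H (fun g => θ (e.symm g)) = z := by
    intro H
    obtain ⟨K, hKM, hKfin, hKH⟩ := exists_HK M (H.comap e.toMonoidHom)
    refine ⟨r K - finrank ℂ (resRep α K).invariants, ?_⟩
    rw [← hδ K hKM, hKH, meanH_comap e]
    congr 1
    funext x
    rw [e.symm_apply_apply]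
  obtain ⟨a, b, hab⟩ := lemS_int (fun g => θ (e.symm g)) (fun h g => by
    rw [map_mul, map_mul, map_inv, hc]) hint _ (fun g => hB _) hn
  set s : Gal(M/k) →* ℤˣ := Equiv.Perm.sign.comp e.toMonoidHom with hs
  have hθ' : θ = fun g => (a : ℝ) + b * (((s g : ℤˣ) : ℤ) : ℝ) := by
    funext g
    have := hab (e g)
    rw [e.symm_apply_apply] at this
    exact this
  have hker : HK M E = s.ker := by
    have h1 : ((HK M E).map e.toMonoidHom).index = 2 := by
      rw [Subgroup.index_map_of_bijective (f := e.toMonoidHom) e.bijective, HK_index M hE, hE2]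
    have h2 := Equiv.Perm.eq_alternatingGroup_of_index_eq_two h1
    have h3 : ((HK M E).map e.toMonoidHom).comap e.toMonoidHom = HK M E :=
      Subgroup.comap_map_eq_self_of_injective e.injective _
    rw [← h3, h2]
    rfl
  have hval : ∀ (K : IntermediateField k Ω) [FiniteDimensional k K], K ≤ M →
      ((r K - finrank ℂ (resRep α K).invariants : ℤ) : ℝ) =
        if E ≤ K then (a : ℝ) + b else a := by
    intro K _ hK
    rw [← hδ K hK, hθ', meanH_sign, ← hker]
    simp only [HK_le_iff M hK hE]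
  have hEbot : ¬ E ≤ (⊥ : IntermediateField k Ω) := by
    intro h
    rw [le_bot_iff] at h
    rw [h, IntermediateField.finrank_bot] at hE2
    norm_num at hE2
  constructor
  · intro h
    have h1 := hval K hK
    have h2 := hval E hE
    rw [if_pos h] at h1
    rw [if_pos le_rfl] at h2
    exact_mod_cast h1.trans h2.symm
  · intro h
    have h1 := hval K hK
    have h2 := hval ⊥ bot_le
    rw [if_neg h] at h1
    rw [if_neg hEbot] at h2
    exact_mod_cast h1.trans h2.symm

end Pool.Agent.H3.SF
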