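import Mathlib
import Pool.Agent.H3.SF.Final

/-!
Project SF (MP_1f4fc7_nt), job SF-23 (helper3).  Twists by irreducible representations of `S_n` of
dimension at least two satisfy the order formula.
-/

open NumberField IsDedekindDomain Filter Topology Module
open scoped TensorProduct

namespace Pool.Agent.H3.SF

open TatePole Artin Cheb

section Char

variable {G : Type*} [Group G] [Fintype G] {W : Type*} [AddCommGroup W] [Module ℂ W]
  [FiniteDimensional ℂ W]

/-- a quadratic twist of a representation -/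
noncomputable def signTwist (s : G →* ℤˣ) (χ : Representation ℂ G W) : Representation ℂ G W where
  toFun g := (((s g : ℤˣ) : ℤ) : ℂ) • χ g
  map_one' := by simp
  map_mul' g h := by
    rw [map_mul, map_mul, smul_mul_smul_comm]
    congr 1
    push_cast
    ring

omit [Fintype G] [FiniteDimensional ℂ W] in
lemma signTwist_invariants (s : G →* ℤˣ) (χ : Representation ℂ G W) (hirr : χ.IsIrreducible)
    (h2 : 2 ≤ finrank ℂ W) : (signTwist s χ).invariants = ⊥ := by
  rw [Submodule.eq_bot_iff]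
  intro v hv
  by_contra hv0
  rw [Representation.mem_invariants] at hv
  have h1 : ∀ g, χ g v = (((s g : ℤˣ) : ℤ) : ℂ) • v := by
    intro g
    have h := hv g
    change (((s g : ℤˣ) : ℤ) : ℂ) • χ g v = v at h
    rcases Int.units_eq_one_or (s g) with hs | hs
    · rw [hs] at h ⊢
      simpa using h
    · rw [hs] at h ⊢
      simp only [Units.val_neg, Units.val_one, Int.cast_neg, Int.cast_one, neg_smul, one_smul] at h ⊢
      rw [← neg_eq_iff_eq_neg]
      exact h
  let S : Subrepresentation χ :=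
    { toSubmodule := Submodule.span ℂ {v}
      apply_mem_toSubmodule := by
        intro g w hw
        rw [Submodule.mem_span_singleton] at hw ⊢
        obtain ⟨c, rfl⟩ := hw
        refine ⟨c * (((s g : ℤˣ) : ℤ) : ℂ), ?_⟩
        rw [map_smul, h1, smul_smul] }
  have hS := hirr.eq_bot_or_eq_top S
  have hsub : S.toSubmodule = Submodule.span ℂ {v} := rfl
  rcases hS with hS | hS
  · have h3 : S.toSubmodule = ⊥ := by rw [hS]; rfl
    rw [hsub, Submodule.span_singleton_eq_bot] at h3
    exact hv0 h3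
  · have h3 : S.toSubmodule = ⊤ := by rw [hS]; rfl
    rw [hsub] at h3
    have h4 := finrank_span_singleton (K := ℂ) hv0
    rw [h3, finrank_top] at h4
    omega

/-- the mean of a quadratic twist of an irreducible character of degree at least two -/
theorem mean_sign_char (s : G →* ℤˣ) (χ : Representation ℂ G W) (hirr : χ.IsIrreducible)
    (h2 : 2 ≤ finrank ℂ W) :
    mean (fun g => (((s g : ℤˣ) : ℤ) : ℝ) * (χ.character g).re) = 0 := by
  have hcard : (Nat.card G : ℂ) ≠ 0 := by exact_mod_cast Nat.card_pos.ne'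
  letI : Invertible (Nat.card G : ℂ) := invertibleOfNonzero hcard
  have h3 := (signTwist s χ).card_inv_mul_sum_char_eq_finrank
  rw [signTwist_invariants s χ hirr h2, finrank_bot, Nat.cast_zero, mul_eq_zero] at h3
  rcases h3 with h3 | h3
  · exact absurd h3 (inv_ne_zero hcard)
  · have h4 := congrArg Complex.re h3
    rw [Complex.re_sum, Complex.zero_re] at h4
    unfold mean
    rw [div_eq_zero_iff]
    left
    rw [← h4]
    refine Finset.sum_congr rfl fun g _ => ?_
    have h5 : (signTwist s χ).character g = (((s g : ℤˣ) : ℤ) : ℂ) * χ.character g := by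
      unfold Representation.character
      change LinearMap.trace ℂ W ((((s g : ℤˣ) : ℤ) : ℂ) • χ g) = _
      rw [map_smul, smul_eq_mul]
    rw [h5]
    have h6 : ((((s g : ℤˣ) : ℤ) : ℂ) * χ.character g).re =
        (((((s g : ℤˣ) : ℤ) : ℝ) : ℂ) * χ.character g).re := by push_cast; rfl
    rw [h6, Complex.re_ofReal_mul]

theorem mean_char (χ : Representation ℂ G W) (hirr : χ.IsIrreducible) (h2 : 2 ≤ finrank ℂ W) :
    mean (fun g => (χ.character g).re) = 0 := by
  have h := mean_sign_char (1 : G →* ℤˣ) χ hirr h2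
  simpa using h

end Char

section Twist

variable {k : Type*} [Field k] [NumberField k] {Ω : Type*} [Field Ω] [Algebra k Ω] [IsGalois k Ω]
  [IsAlgClosed Ω]
variable {V A : Type*} [AddCommGroup V] [Module ℂ V] [FiniteDimensional ℂ V]
  [AddCommGroup A] [Module ℂ A] [FiniteDimensional ℂ A]

/-- the mean of a twist, for a real character -/
theorem ctr_twist_mean {𝒰 : Ultrafilter ℝ} (h𝒰 : (𝒰 : Filter ℝ) ≤ 𝓝[>] 1)
    (ρ : Representation ℂ Gal(Ω/k) V) (hρ : WeightsLeTwo (RingHom.id ℂ) ρ)
    (α : Representation ℂ Gal(Ω/k) A) (L : IntermediateField k Ω) [FiniteDimensional k L]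
    [Normal k L] (hα : ∀ σ ∈ L.fixingSubgroup, α σ = 1)
    (ω : Gal(Ω/k) →* ℂ)
    (hω : {𝔭 : HeightOneSpectrum (𝓞 k) | ω (frobeniusAt Ω 𝔭).φ⁻¹ ≠ Ideal.absNorm 𝔭.asIdeal}.Finite)
    (cl : A →ₗ[ℂ] V) (hcl : Function.Injective cl)
    (hclω : ∀ σ a, ρ σ (cl a) = ω σ • cl (α σ a))
    (M : IntermediateField k Ω) [FiniteDimensional k M] [Normal k M]
    {W : Type*} [AddCommGroup W] [Module ℂ W] [FiniteDimensional ℂ W]
    (χ : Representation ℂ Gal(M/k) W) (hreal : ∀ g, (χ.character g).im = 0) :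
    mu 𝒰 (ctr (RingHom.id ℂ) (twist ρ χ)) - finrank ℂ (twist α χ).invariants =
      mu 𝒰 (fun 𝔭 => dfun ρ α ω 𝔭 *
        (χ.character (AlgEquiv.restrictNormalHom (F := k) (K₁ := Ω) M (frobeniusAt Ω 𝔭).φ)).re) := by
  classical
  have hbd : Bdd (dfun ρ α ω) := ⟨_, abs_dfun_le hρ cl hcl hclω⟩
  have hw := fun 𝔭 D z hz => twist_weights hρ M χ 𝔭 D z hz
  have hbctr := (log_LFunction_base (twist ρ χ) hw).1
  have htriv : ∀ σ ∈ (L ⊔ M : IntermediateField k Ω).fixingSubgroup, twist α χ σ = 1 := by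
    intro σ hσ
    have h1 : σ ∈ L.fixingSubgroup := IntermediateField.fixingSubgroup_antitone le_sup_left hσ
    have h2 : σ ∈ M.fixingSubgroup := IntermediateField.fixingSubgroup_antitone le_sup_right hσ
    have h3 : AlgEquiv.restrictNormalHom M σ = 1 := by
      have h3 : σ ∈ (AlgEquiv.restrictNormalHom (F := k) (K₁ := Ω) M).ker := by
        rw [IntermediateField.restrictNormalHom_ker]
        exact h2
      exact h3
    have h4 : twist α χ σ = TensorProduct.map (α σ) (χ (AlgEquiv.restrictNormalHom M σ)) := rfl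
    rw [h4, hα σ h1, h3, map_one]
    exact TensorProduct.map_id
  have hmean := mean_character (L ⊔ M) (twist α χ) htriv
  have hmu := mu_eq_of_mean h𝒰 hmean
  have hbx : Bdd (fun 𝔭 : HeightOneSpectrum (𝓞 k) =>
      (χ.character (AlgEquiv.restrictNormalHom (F := k) (K₁ := Ω) M (frobeniusAt Ω 𝔭).φ)).re) :=
    bdd_comp (fun g => (χ.character g).re) _
  have hbα : Bdd (fun 𝔭 : HeightOneSpectrum (𝓞 k) =>
      ((twist α χ).character (frobeniusAt Ω 𝔭).φ⁻¹).re) :=
    chfun_bdd (L ⊔ M) (twist α χ) htriv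
  rw [← hmu, sub_eq_iff_eq_add, ← mu_add h𝒰 (hbd.mul hbx) hbα]
  refine mu_congr_finite h𝒰 hbctr ((hbd.mul hbx).add hbα) ?_
  refine (((finite_not_unram hρ).union hω).union (finite_ramified (Ω := Ω) M)).subset fun 𝔭 h𝔭 => ?_
  by_contra hcon
  simp only [Set.mem_union, not_or] at hcon
  obtain ⟨⟨hc1, hc2⟩, hc3⟩ := hcon
  have hg1 : Unram ρ 𝔭 := by
    by_contra h
    exact hc1 h
  have hg2 : ω (frobeniusAt Ω 𝔭).φ⁻¹ = Ideal.absNorm 𝔭.asIdeal := by
    by_contra h
    exact hc2 h
  have hg3 : ∀ Q : Ideal (𝓞 Ω), Q.IsPrime → Q.under (𝓞 k) = 𝔭.asIdeal →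
      ∀ σ ∈ Q.inertia Gal(Ω/k), σ ∈ M.fixingSubgroup := by
    intro Q hQ hQ2 σ hσ
    by_contra h
    exact hc3 ⟨Q, hQ, hQ2, σ, hσ, h⟩
  apply h𝔭
  have hNc : ((nrm 𝔭 : ℝ) : ℂ) ≠ 0 := by exact_mod_cast (nrm_pos 𝔭).ne'
  have hx : ((χ.character (AlgEquiv.restrictNormalHom M (frobeniusAt Ω 𝔭).φ⁻¹)) : ℂ) =
      (((χ.character (AlgEquiv.restrictNormalHom (F := k) (K₁ := Ω) M
        (frobeniusAt Ω 𝔭).φ)).re : ℝ) : ℂ) := by
    rw [map_inv, character_inv]
    apply Complex.ext
    · rw [Complex.conj_re, Complex.ofReal_re]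
    · rw [Complex.conj_im, Complex.ofReal_im, hreal, neg_zero]
  unfold ctr dfun
  rw [sum_eigs _ (unram_twist χ hg1 hg3), twist_character, twist_character, if_pos ⟨hg1, hg2⟩, hx,
    ← Complex.re_mul_ofReal, ← Complex.add_re, ← Complex.div_ofReal_re]
  congr 1
  field_simp
  ring

/-- **Twists by irreducible representations of `S_n` of dimension at least two.** -/
theorem symmetric_twists
    (ρ : Representation ℂ Gal(Ω/k) V) (hρ : WeightsLeTwo (RingHom.id ℂ) ρ)
    (α : Representation ℂ Gal(Ω/k) A) (L : IntermediateField k Ω) [FiniteDimensional k L]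
    (hα : ∀ σ ∈ L.fixingSubgroup, α σ = 1)
    (ω : Gal(Ω/k) →* ℂ) (hω : {𝔭 : HeightOneSpectrum (𝓞 k) |
      ω (frobeniusAt Ω 𝔭).φ⁻¹ ≠ Ideal.absNorm 𝔭.asIdeal}.Finite)
    (cl : A →ₗ[ℂ] V) (hcl : Function.Injective cl)
    (hclω : ∀ σ a, ρ σ (cl a) = ω σ • cl (α σ a))
    (M : IntermediateField k Ω) [FiniteDimensional k M] [Normal k M]
    {n : ℕ} (e : Gal(M/k) ≃* Equiv.Perm (Fin n))
    (hn : 2 ^ (40 * (finrank ℂ V - finrank ℂ A + 1)) ≤ n)
    (r : IntermediateField k Ω → ℤ)
    (hr : ∀ K ≤ M, ∀ _ : FiniteDimensional k K,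
      HasGrowth (LFunction (RingHom.id ℂ) (resRep ρ K)) (r K))
    {W : Type*} [AddCommGroup W] [Module ℂ W] [FiniteDimensional ℂ W]
    (χ : Representation ℂ Gal(M/k) W) (hirr : χ.IsIrreducible) (h2 : 2 ≤ finrank ℂ W) :
    HasGrowth (twistedL ρ χ) (twistedRank α χ) := by
  classical
  set L' : IntermediateField k Ω := IntermediateField.normalClosure k L Ω with hL'
  have hα' : ∀ σ ∈ L'.fixingSubgroup, α σ = 1 := fun σ hσ =>
    hα σ (IntermediateField.fixingSubgroup_antitone (IntermediateField.le_normalClosure L) hσ)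
  have : FiniteDimensional k L' := inferInstance
  have : Normal k L' := inferInstance
  -- every element is conjugate to its inverse
  have hconj : ∀ g : Gal(M/k), IsConj g g⁻¹ := by
    intro g
    have h1 : IsConj (e g) (e g)⁻¹ := by
      rw [Equiv.Perm.isConj_iff_cycleType_eq, Equiv.Perm.cycleType_inv]
    rw [isConj_iff] at h1 ⊢
    obtain ⟨c, hc⟩ := h1
    refine ⟨e.symm c, ?_⟩
    apply e.injective
    rw [map_mul, map_mul, map_inv, map_inv, e.apply_symm_apply]
    exact hc
  have hchar : ∀ x g : Gal(M/k), IsConj x g → χ.character x = χ.character g := by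
    intro x g h
    obtain ⟨c, hc⟩ := isConj_iff.mp h
    rw [← hc, χ.char_conj]
  have hreal : ∀ g, (χ.character g).im = 0 := by
    intro g
    have h1 := hchar g g⁻¹ (hconj g)
    rw [character_inv] at h1
    have h3 := congrArg Complex.im h1
    rw [Complex.conj_im] at h3
    linarith
  have hS : ∀ x g : Gal(M/k), SConj x g → (χ.character x).re = (χ.character g).re := by
    intro x g h
    rcases h with h | h
    · rw [hchar x g h]
    · rw [hchar x g⁻¹ h, character_inv, Complex.conj_re]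
  have key : Tendsto (fun t : ℝ => Real.log ‖LFunction (RingHom.id ℂ) (twist ρ χ)
      ((t + 1 : ℝ) : ℂ)‖ / Lam t) (𝓝[>] 1) (𝓝 (finrank ℂ (twist α χ).invariants : ℝ)) := by
    rw [tendsto_iff_ultrafilter]
    intro 𝒰 h𝒰
    obtain ⟨θ, hc, hB, hθ, hf⟩ := exists_theta_full h𝒰 ρ hρ α L hα ω hω cl hcl hclω M
    have hint : ∀ H : Subgroup (Equiv.Perm (Fin n)), ∃ z : ℤ,
        meanH H (fun g => θ (e.symm g)) = z := by
      intro H
      obtain ⟨K, hKM, hKfin, hKH⟩ := exists_HK M (H.comap e.toMonoidHom)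
      refine ⟨r K - finrank ℂ (resRep α K).invariants, ?_⟩
      have h1 := hθ K hKM (r K) (hr K hKM inferInstance)
      rw [hKH] at h1
      rw [meanH_comap e]
      simp only [e.symm_apply_apply]
      rw [h1]
      push_cast
      rfl
    obtain ⟨a, b, hab⟩ := lemS_int (fun g => θ (e.symm g)) (fun h g => by
      rw [map_mul, map_mul, map_inv, hc]) hint _ (fun g => hB _) hn
    have h1 := ctr_twist_mean h𝒰 ρ hρ α L' hα' ω hω cl hcl hclω M χ hreal
    have h3 := hf (fun g => (χ.character g).re) hS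
    rw [h3] at h1
    have h4 : mean (fun g => θ g * (χ.character g).re) = 0 := by
      have h5 : (fun g => θ g * (χ.character g).re) = fun g => (a : ℝ) * (χ.character g).re +
          b * ((((Equiv.Perm.sign.comp e.toMonoidHom) g : ℤˣ) : ℤ) * (χ.character g).re) := by
        funext g
        have h6 := hab (e g)
        simp only [e.symm_apply_apply] at h6
        rw [h6, add_mul, mul_assoc]
        rfl
      rw [h5]
      unfold mean
      rw [Finset.sum_add_distrib, ← Finset.mul_sum, ← Finset.mul_sum, add_div, mul_div_assoc,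
        mul_div_assoc]
      have h7 := mean_char χ hirr h2
      have h8 := mean_sign_char (Equiv.Perm.sign.comp e.toMonoidHom) χ hirr h2
      unfold mean at h7 h8
      rw [h7, h8, mul_zero, mul_zero, add_zero]
    rw [h4, sub_eq_zero] at h1
    rw [← h1]
    exact log_tendsto_mu h𝒰 (twist ρ χ) (fun 𝔭 D z hz => twist_weights hρ M χ 𝔭 D z hz)
  have hshift : Tendsto (fun s : ℝ => s - 1) (𝓝[>] 2) (𝓝[>] 1) := by
    rw [tendsto_nhdsWithin_iff]
    constructor
    · have : Continuous (fun s : ℝ => s - 1) := by fun_prop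
      have h1 := (this.tendsto 2).mono_left (nhdsWithin_le_nhds (s := Set.Ioi 2))
      have h2 : (2 : ℝ) - 1 = 1 := by norm_num
      rw [h2] at h1
      exact h1
    · filter_upwards [self_mem_nhdsWithin] with s hs
      have : (2 : ℝ) < s := hs
      change (1 : ℝ) < s - 1
      linarith
  refine (key.comp hshift).congr fun s => ?_
  simp only [Function.comp_apply]
  have e1 : s - 1 + 1 = s := by ring
  have e2 : Lam (s - 1) = Real.log (1 / (s - 2)) := by
    unfold Lam
    rw [show s - 1 - 1 = s - 2 by ring]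
  rw [e1, e2]
  rfl

end Twist

end Pool.Agent.H3.SF
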